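import Pool.Agent.Lib_helper8.Berg.Pull

/-!
The algebra attached to a conical commutative monoid and its frame.
-/

set_option linter.unusedSectionVars false

namespace Pool.Agent.Lib_helper8.Berg

universe u v

/-- Generators of the algebra. -/
inductive Gn (M : Type u) : Type u
  | e (x : M) : Gn M
  | a (x y : M) : Gn M
  | b (x y : M) : Gn M
  | c (x y : M) : Gn M
  | d (x y : M) : Gn M

section

variable (k : Type v) [Field k] (M : Type u) [AddCommMonoid M]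

/-- Defining relations of the algebra. -/
inductive Rl : FreeAlgebra k (Gn M) → FreeAlgebra k (Gn M) → Prop
  | e0 : Rl (FreeAlgebra.ι k (Gn.e 0)) 0
  | ee (x : M) : Rl (FreeAlgebra.ι k (Gn.e x) * FreeAlgebra.ι k (Gn.e x)) (FreeAlgebra.ι k (Gn.e x))
  | ea (x y : M) : Rl (FreeAlgebra.ι k (Gn.e (x + y)) * FreeAlgebra.ι k (Gn.a x y))
      (FreeAlgebra.ι k (Gn.a x y))
  | ae (x y : M) : Rl (FreeAlgebra.ι k (Gn.a x y) * FreeAlgebra.ι k (Gn.e x))
      (FreeAlgebra.ι k (Gn.a x y))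
  | eb (x y : M) : Rl (FreeAlgebra.ι k (Gn.e (x + y)) * FreeAlgebra.ι k (Gn.b x y))
      (FreeAlgebra.ι k (Gn.b x y))
  | be (x y : M) : Rl (FreeAlgebra.ι k (Gn.b x y) * FreeAlgebra.ι k (Gn.e y))
      (FreeAlgebra.ι k (Gn.b x y))
  | ec (x y : M) : Rl (FreeAlgebra.ι k (Gn.e x) * FreeAlgebra.ι k (Gn.c x y))
      (FreeAlgebra.ι k (Gn.c x y))
  | ce (x y : M) : Rl (FreeAlgebra.ι k (Gn.c x y) * FreeAlgebra.ι k (Gn.e (x + y)))
      (FreeAlgebra.ι k (Gn.c x y))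
  | ed (x y : M) : Rl (FreeAlgebra.ι k (Gn.e y) * FreeAlgebra.ι k (Gn.d x y))
      (FreeAlgebra.ι k (Gn.d x y))
  | de (x y : M) : Rl (FreeAlgebra.ι k (Gn.d x y) * FreeAlgebra.ι k (Gn.e (x + y)))
      (FreeAlgebra.ι k (Gn.d x y))
  | ca (x y : M) : Rl (FreeAlgebra.ι k (Gn.c x y) * FreeAlgebra.ι k (Gn.a x y))
      (FreeAlgebra.ι k (Gn.e x))
  | db (x y : M) : Rl (FreeAlgebra.ι k (Gn.d x y) * FreeAlgebra.ι k (Gn.b x y))
      (FreeAlgebra.ι k (Gn.e y))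
  | cb (x y : M) : Rl (FreeAlgebra.ι k (Gn.c x y) * FreeAlgebra.ι k (Gn.b x y)) 0
  | da (x y : M) : Rl (FreeAlgebra.ι k (Gn.d x y) * FreeAlgebra.ι k (Gn.a x y)) 0
  | sum (x y : M) : Rl (FreeAlgebra.ι k (Gn.a x y) * FreeAlgebra.ι k (Gn.c x y)
      + FreeAlgebra.ι k (Gn.b x y) * FreeAlgebra.ι k (Gn.d x y)) (FreeAlgebra.ι k (Gn.e (x + y)))
  | b0 (y : M) : Rl (FreeAlgebra.ι k (Gn.b 0 y)) (FreeAlgebra.ι k (Gn.e y))
  | d0 (y : M) : Rl (FreeAlgebra.ι k (Gn.d 0 y)) (FreeAlgebra.ι k (Gn.e y))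
  | a0 (x : M) : Rl (FreeAlgebra.ι k (Gn.a x 0)) (FreeAlgebra.ι k (Gn.e x))
  | c0 (x : M) : Rl (FreeAlgebra.ι k (Gn.c x 0)) (FreeAlgebra.ι k (Gn.e x))

/-- The algebra attached to a commutative monoid. -/
def Alg : Type (max u v) := RingQuot (Rl k M)

noncomputable instance : Ring (Alg k M) := inferInstanceAs (Ring (RingQuot (Rl k M)))
noncomputable instance : Algebra k (Alg k M) := inferInstanceAs (Algebra k (RingQuot (Rl k M)))

/-- The quotient map. -/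
noncomputable def Alg.mk : FreeAlgebra k (Gn M) →ₐ[k] Alg k M := RingQuot.mkAlgHom k (Rl k M)

variable {M}

/-- The image of a generator. -/
noncomputable def Alg.g (x : Gn M) : Alg k M := Alg.mk k M (FreeAlgebra.ι k x)

variable {k}

theorem Alg.mk_rel {x y : FreeAlgebra k (Gn M)} (h : Rl k M x y) : Alg.mk k M x = Alg.mk k M y :=
  RingQuot.mkAlgHom_rel k h

theorem Alg.e0 : Alg.g k (Gn.e (0 : M)) = 0 := by
  have := Alg.mk_rel (Rl.e0 (k := k) (M := M))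
  rwa [map_zero] at this

theorem Alg.ee (x : M) : Alg.g k (Gn.e x) * Alg.g k (Gn.e x) = Alg.g k (Gn.e x) := by
  have := Alg.mk_rel (Rl.ee (k := k) x)
  rwa [map_mul] at this

theorem Alg.ea (x y : M) : Alg.g k (Gn.e (x + y)) * Alg.g k (Gn.a x y) = Alg.g k (Gn.a x y) := by
  have := Alg.mk_rel (Rl.ea (k := k) x y)
  rwa [map_mul] at this

theorem Alg.ae (x y : M) : Alg.g k (Gn.a x y) * Alg.g k (Gn.e x) = Alg.g k (Gn.a x y) := by
  have := Alg.mk_rel (Rl.ae (k := k) x y)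
  rwa [map_mul] at this

theorem Alg.eb (x y : M) : Alg.g k (Gn.e (x + y)) * Alg.g k (Gn.b x y) = Alg.g k (Gn.b x y) := by
  have := Alg.mk_rel (Rl.eb (k := k) x y)
  rwa [map_mul] at this

theorem Alg.be (x y : M) : Alg.g k (Gn.b x y) * Alg.g k (Gn.e y) = Alg.g k (Gn.b x y) := by
  have := Alg.mk_rel (Rl.be (k := k) x y)
  rwa [map_mul] at this

theorem Alg.ec (x y : M) : Alg.g k (Gn.e x) * Alg.g k (Gn.c x y) = Alg.g k (Gn.c x y) := by
  have := Alg.mk_rel (Rl.ec (k := k) x y)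
  rwa [map_mul] at this

theorem Alg.ce (x y : M) : Alg.g k (Gn.c x y) * Alg.g k (Gn.e (x + y)) = Alg.g k (Gn.c x y) := by
  have := Alg.mk_rel (Rl.ce (k := k) x y)
  rwa [map_mul] at this

theorem Alg.ed (x y : M) : Alg.g k (Gn.e y) * Alg.g k (Gn.d x y) = Alg.g k (Gn.d x y) := by
  have := Alg.mk_rel (Rl.ed (k := k) x y)
  rwa [map_mul] at this

theorem Alg.de (x y : M) : Alg.g k (Gn.d x y) * Alg.g k (Gn.e (x + y)) = Alg.g k (Gn.d x y) := by
  have := Alg.mk_rel (Rl.de (k := k) x y)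
  rwa [map_mul] at this

theorem Alg.ca (x y : M) : Alg.g k (Gn.c x y) * Alg.g k (Gn.a x y) = Alg.g k (Gn.e x) := by
  have := Alg.mk_rel (Rl.ca (k := k) x y)
  rwa [map_mul] at this

theorem Alg.db (x y : M) : Alg.g k (Gn.d x y) * Alg.g k (Gn.b x y) = Alg.g k (Gn.e y) := by
  have := Alg.mk_rel (Rl.db (k := k) x y)
  rwa [map_mul] at this

theorem Alg.cb (x y : M) : Alg.g k (Gn.c x y) * Alg.g k (Gn.b x y) = 0 := by
  have := Alg.mk_rel (Rl.cb (k := k) x y)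
  rwa [map_mul, map_zero] at this

theorem Alg.da (x y : M) : Alg.g k (Gn.d x y) * Alg.g k (Gn.a x y) = 0 := by
  have := Alg.mk_rel (Rl.da (k := k) x y)
  rwa [map_mul, map_zero] at this

theorem Alg.sum (x y : M) : Alg.g k (Gn.a x y) * Alg.g k (Gn.c x y)
    + Alg.g k (Gn.b x y) * Alg.g k (Gn.d x y) = Alg.g k (Gn.e (x + y)) := by
  have := Alg.mk_rel (Rl.sum (k := k) x y)
  rwa [map_add, map_mul, map_mul] at this

theorem Alg.b0 (y : M) : Alg.g k (Gn.b 0 y) = Alg.g k (Gn.e y) := Alg.mk_rel (Rl.b0 (k := k) y)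
theorem Alg.d0 (y : M) : Alg.g k (Gn.d 0 y) = Alg.g k (Gn.e y) := Alg.mk_rel (Rl.d0 (k := k) y)
theorem Alg.a0 (x : M) : Alg.g k (Gn.a x 0) = Alg.g k (Gn.e x) := Alg.mk_rel (Rl.a0 (k := k) x)
theorem Alg.c0 (x : M) : Alg.g k (Gn.c x 0) = Alg.g k (Gn.e x) := Alg.mk_rel (Rl.c0 (k := k) x)

/-- Values of generators in an algebra satisfying the relations. -/
structure Vals (k : Type v) [Field k] (M : Type u) [AddCommMonoid M] (S : Type*) [Ring S]
    [Algebra k S] where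
  f : Gn M → S
  e0 : f (Gn.e 0) = 0
  ee : ∀ x, f (Gn.e x) * f (Gn.e x) = f (Gn.e x)
  ea : ∀ x y, f (Gn.e (x + y)) * f (Gn.a x y) = f (Gn.a x y)
  ae : ∀ x y, f (Gn.a x y) * f (Gn.e x) = f (Gn.a x y)
  eb : ∀ x y, f (Gn.e (x + y)) * f (Gn.b x y) = f (Gn.b x y)
  be : ∀ x y, f (Gn.b x y) * f (Gn.e y) = f (Gn.b x y)
  ec : ∀ x y, f (Gn.e x) * f (Gn.c x y) = f (Gn.c x y)
  ce : ∀ x y, f (Gn.c x y) * f (Gn.e (x + y)) = f (Gn.c x y)
  ed : ∀ x y, f (Gn.e y) * f (Gn.d x y) = f (Gn.d x y)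
  de : ∀ x y, f (Gn.d x y) * f (Gn.e (x + y)) = f (Gn.d x y)
  ca : ∀ x y, f (Gn.c x y) * f (Gn.a x y) = f (Gn.e x)
  db : ∀ x y, f (Gn.d x y) * f (Gn.b x y) = f (Gn.e y)
  cb : ∀ x y, f (Gn.c x y) * f (Gn.b x y) = 0
  da : ∀ x y, f (Gn.d x y) * f (Gn.a x y) = 0
  sum : ∀ x y, f (Gn.a x y) * f (Gn.c x y) + f (Gn.b x y) * f (Gn.d x y) = f (Gn.e (x + y))
  b0 : ∀ y, f (Gn.b 0 y) = f (Gn.e y)
  d0 : ∀ y, f (Gn.d 0 y) = f (Gn.e y)
  a0 : ∀ x, f (Gn.a x 0) = f (Gn.e x)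
  c0 : ∀ x, f (Gn.c x 0) = f (Gn.e x)

variable {S : Type*} [Ring S] [Algebra k S]

/-- Universal property. -/
noncomputable def Alg.lift (φ : Vals k M S) : Alg k M →ₐ[k] S :=
  RingQuot.liftAlgHom k ⟨FreeAlgebra.lift k φ.f, by
    intro x y h
    cases h
    case e0 => simp [φ.e0]
    case ee => simp [φ.ee]
    case ea => simp [φ.ea]
    case ae => simp [φ.ae]
    case eb => simp [φ.eb]
    case be => simp [φ.be]
    case ec => simp [φ.ec]
    case ce => simp [φ.ce]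
    case ed => simp [φ.ed]
    case de => simp [φ.de]
    case ca => simp [φ.ca]
    case db => simp [φ.db]
    case cb => simp [φ.cb]
    case da => simp [φ.da]
    case sum => simp [φ.sum]
    case b0 => simp [φ.b0]
    case d0 => simp [φ.d0]
    case a0 => simp [φ.a0]
    case c0 => simp [φ.c0]⟩

@[simp] theorem Alg.lift_g (φ : Vals k M S) (x : Gn M) : Alg.lift φ (Alg.g k x) = φ.f x := by
  unfold Alg.lift Alg.g Alg.mk
  erw [RingQuot.liftAlgHom_mkAlgHom_apply]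
  simp

/-- Induction principle. -/
theorem Alg.induction {P : Alg k M → Prop} (hc : ∀ c : k, P (algebraMap k _ c))
    (hg : ∀ x, P (Alg.g k x)) (hm : ∀ r s, P r → P s → P (r * s))
    (ha : ∀ r s, P r → P s → P (r + s)) (r : Alg k M) : P r := by
  obtain ⟨r, rfl⟩ := RingQuot.mkAlgHom_surjective k (Rl k M) r
  induction r using FreeAlgebra.induction with
  | grade0 c =>
    change P (Alg.mk k M _)
    rw [AlgHom.commutes]
    exact hc c
  | grade1 x => exact hg x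
  | mul r s hr hs =>
    rw [map_mul]; exact hm _ _ hr hs
  | add r s hr hs =>
    rw [map_add]; exact ha _ _ hr hs

theorem Alg.hom_ext {f h : Alg k M →ₐ[k] S} (H : ∀ x, f (Alg.g k x) = h (Alg.g k x)) : f = h := by
  ext r
  induction r using Alg.induction with
  | hc c => rw [AlgHom.commutes, AlgHom.commutes]
  | hg x => exact H x
  | hm r s hr hs => rw [map_mul, map_mul, hr, hs]
  | ha r s hr hs => rw [map_add, map_add, hr, hs]

end

end Pool.Agent.Lib_helper8.Berg
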