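import Pool.Agent.Lib_helper8.Berg.Alg

/-!
The frame of the algebra, and its comparison with frames of the same shape.
-/

set_option linter.unusedSectionVars false

namespace Pool.Agent.Lib_helper8.Berg

universe u v w

/-- Objects. -/
inductive Ob (M : Type u) [Zero M] : Type u
  | star : Ob M
  | p (x : M) (hx : x ≠ 0) : Ob M
  | q (x : M) (hx : x ≠ 0) : Ob M

/-- Relations. -/
inductive Ed (M : Type u) [Zero M] : Type u
  | t (x : M) (hx : x ≠ 0) : Ed M
  | s (x y : M) (hx : x ≠ 0) (hy : y ≠ 0) : Ed M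

section

variable {M : Type u} [AddCommMonoid M] (hM : ∀ x y : M, x + y = 0 → x = 0)

theorem con_ne (hM : ∀ x y : M, x + y = 0 → x = 0) {x y : M} (hx : x ≠ 0) : x + y ≠ 0 :=
  fun h => hx (hM x y h)

/-- The shape attached to a conical monoid. -/
def shM (hM : ∀ x y : M, x + y = 0 → x = 0) : Shape (Ob M) (Ed M) where
  v l := match l with
    | Ed.t _ _ => Ob.star
    | Ed.s x y hx _ => Ob.p (x + y) (con_ne hM hx)
  a l := match l with
    | Ed.t x hx => Ob.p x hx
    | Ed.s x _ hx _ => Ob.p x hx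
  b l := match l with
    | Ed.t x hx => Ob.q x hx
    | Ed.s _ y _ hy => Ob.p y hy

variable (k : Type v) [Field k]

/-- Abbreviation for the idempotents. -/
noncomputable def E (x : M) : Alg k M := Alg.g k (Gn.e x)

theorem E_mul_E (x : M) : E k x * E k x = E k x := Alg.ee x

/-- The frame in the algebra. -/
noncomputable def algFrame : Frame (shM hM) (Alg k M) where
  e b := match b with
    | Ob.star => 1
    | Ob.p x _ => E k x
    | Ob.q x _ => 1 - E k x
  pr l := match l with
    | Ed.t x _ => ![1, E k x, 1 - E k x]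
    | Ed.s x y _ _ => ![E k (x + y), Alg.g k (Gn.c x y), Alg.g k (Gn.d x y)]
  inj l := match l with
    | Ed.t x _ => ![1, E k x, 1 - E k x]
    | Ed.s x y _ _ => ![E k (x + y), Alg.g k (Gn.a x y), Alg.g k (Gn.b x y)]
  e_mul_e b := by
    cases b with
    | star => exact mul_one 1
    | p x hx => exact E_mul_E k x
    | q x hx =>
      change (1 - E k x) * (1 - E k x) = 1 - E k x
      rw [mul_sub, sub_mul, sub_mul, E_mul_E]
      simp
  pr_zero l := by cases l <;> rfl
  inj_zero l := by cases l <;> rfl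
  e_mul_pr l i := by
    cases l with
    | t x hx =>
      fin_cases i
      · exact mul_one 1
      · exact E_mul_E k x
      · change (1 - E k x) * (1 - E k x) = 1 - E k x
        rw [mul_sub, sub_mul, sub_mul, E_mul_E]
        simp
    | s x y hx hy =>
      fin_cases i
      · exact E_mul_E k (x + y)
      · exact Alg.ec x y
      · exact Alg.ed x y
  pr_mul_e l i := by
    cases l with
    | t x hx =>
      fin_cases i
      · exact mul_one 1
      · exact mul_one _
      · exact mul_one _
    | s x y hx hy =>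
      fin_cases i
      · exact E_mul_E k (x + y)
      · exact Alg.ce x y
      · exact Alg.de x y
  e_mul_inj l i := by
    cases l with
    | t x hx =>
      fin_cases i
      · exact mul_one 1
      · exact one_mul _
      · exact one_mul _
    | s x y hx hy =>
      fin_cases i
      · exact E_mul_E k (x + y)
      · exact Alg.ea x y
      · exact Alg.eb x y
  inj_mul_e l i := by
    cases l with
    | t x hx =>
      fin_cases i
      · exact mul_one 1
      · exact E_mul_E k x
      · change (1 - E k x) * (1 - E k x) = 1 - E k x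
        rw [mul_sub, sub_mul, sub_mul, E_mul_E]
        simp
    | s x y hx hy =>
      fin_cases i
      · exact E_mul_E k (x + y)
      · exact Alg.ae x y
      · exact Alg.be x y
  pr_mul_inj_same l i := by
    cases l with
    | t x hx =>
      fin_cases i
      · exact mul_one 1
      · exact E_mul_E k x
      · change (1 - E k x) * (1 - E k x) = 1 - E k x
        rw [mul_sub, sub_mul, sub_mul, E_mul_E]
        simp
    | s x y hx hy =>
      fin_cases i
      · exact E_mul_E k (x + y)
      · exact Alg.ca x y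
      · exact Alg.db x y
  pr_mul_inj_12 l := by
    cases l with
    | t x hx =>
      change E k x * (1 - E k x) = 0
      rw [mul_sub, E_mul_E, mul_one, sub_self]
    | s x y hx hy => exact Alg.cb x y
  pr_mul_inj_21 l := by
    cases l with
    | t x hx =>
      change (1 - E k x) * E k x = 0
      rw [sub_mul, E_mul_E, one_mul, sub_self]
    | s x y hx hy => exact Alg.da x y
  sum_12 l := by
    cases l with
    | t x hx =>
      change E k x * E k x + (1 - E k x) * (1 - E k x) = 1
      rw [mul_sub, sub_mul, sub_mul, E_mul_E]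
      simp
    | s x y hx hy => exact Alg.sum x y

theorem algFrame_star : (algFrame hM k).e Ob.star = 1 := rfl
theorem algFrame_p (x : M) (hx : x ≠ 0) : (algFrame hM k).e (Ob.p x hx) = E k x := rfl
theorem algFrame_q (x : M) (hx : x ≠ 0) : (algFrame hM k).e (Ob.q x hx) = 1 - E k x := rfl

/-- The frame of the algebra is connected. -/
theorem algConn : Conn k (algFrame hM k) Ob.star where
  one := rfl
  gen V hobj hpr hinj := by
    have h1 : ∀ b w, w ∈ V b → w ∈ V Ob.star := by
      intro b w hw
      cases b with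
      | star => exact hw
      | p x hx =>
        have := hinj (Ed.t x hx) 1 w hw
        have h2 : E k x • w = w := hobj _ _ hw
        change E k x • w ∈ V Ob.star at this
        rwa [h2] at this
      | q x hx =>
        have := hinj (Ed.t x hx) 2 w hw
        have h2 : (1 - E k x) • w = w := hobj _ _ hw
        change (1 - E k x) • w ∈ V Ob.star at this
        rwa [h2] at this
    have hE : ∀ (x : M) (w : ℕ →₀ Alg k M), w ∈ V Ob.star → E k x • w ∈ V Ob.star := by
      intro x w hw
      by_cases hx : x = 0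
      · subst hx
        have : E k (0 : M) = 0 := Alg.e0
        rw [this, zero_smul]; exact zero_mem _
      · exact h1 _ _ (hpr (Ed.t x hx) 1 w hw)
    refine ⟨h1, ?_, ?_⟩
    · intro r
      induction r using Alg.induction with
      | hc c =>
        intro w hw
        rw [algebraMap_smul]
        exact Submodule.smul_mem _ _ hw
      | hg x =>
        intro w hw
        cases x with
        | e x => exact hE x w hw
        | a x y =>
          by_cases hx : x = 0
          · subst hx
            have : Alg.g k (Gn.a (0 : M) y) = 0 := by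
              rw [← Alg.ae, Alg.e0, mul_zero]
            rw [this, zero_smul]; exact zero_mem _
          by_cases hy : y = 0
          · subst hy
            rw [Alg.a0]; exact hE x w hw
          · rw [← Alg.ae, mul_smul]
            have h2 : E k x • w ∈ V (Ob.p x hx) := hpr (Ed.t x hx) 1 w hw
            exact h1 _ _ (hinj (Ed.s x y hx hy) 1 _ h2)
        | b x y =>
          by_cases hy : y = 0
          · subst hy
            have : Alg.g k (Gn.b x (0 : M)) = 0 := by
              rw [← Alg.be, Alg.e0, mul_zero]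
            rw [this, zero_smul]; exact zero_mem _
          by_cases hx : x = 0
          · subst hx
            rw [Alg.b0]; exact hE y w hw
          · rw [← Alg.be, mul_smul]
            have h2 : E k y • w ∈ V (Ob.p y hy) := hpr (Ed.t y hy) 1 w hw
            exact h1 _ _ (hinj (Ed.s x y hx hy) 2 _ h2)
        | c x y =>
          by_cases hx : x = 0
          · subst hx
            have : Alg.g k (Gn.c (0 : M) y) = 0 := by
              rw [← Alg.ec, Alg.e0, zero_mul]
            rw [this, zero_smul]; exact zero_mem _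
          by_cases hy : y = 0
          · subst hy
            rw [Alg.c0]; exact hE x w hw
          · rw [← Alg.ce, mul_smul]
            have h2 : E k (x + y) • w ∈ V (Ob.p (x + y) (con_ne hM hx)) :=
              hpr (Ed.t (x + y) (con_ne hM hx)) 1 w hw
            exact h1 _ _ (hpr (Ed.s x y hx hy) 1 _ h2)
        | d x y =>
          by_cases hy : y = 0
          · subst hy
            have : Alg.g k (Gn.d x (0 : M)) = 0 := by
              rw [← Alg.ed, Alg.e0, zero_mul]
            rw [this, zero_smul]; exact zero_mem _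
          by_cases hx : x = 0
          · subst hx
            rw [Alg.d0]; exact hE y w hw
          · rw [← Alg.de, mul_smul]
            have h2 : E k (x + y) • w ∈ V (Ob.p (x + y) (con_ne hM hx)) :=
              hpr (Ed.t (x + y) (con_ne hM hx)) 1 w hw
            exact h1 _ _ (hpr (Ed.s x y hx hy) 2 _ h2)
      | hm r s hr hs =>
        intro w hw
        rw [mul_smul]
        exact hr _ (hs _ hw)
      | ha r s hr hs =>
        intro w hw
        rw [add_smul]
        exact add_mem (hr _ hw) (hs _ hw)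
    · intro b w hw
      cases b with
      | star =>
        change (1 : Alg k M) • w ∈ V Ob.star
        rw [one_smul]; exact hw
      | p x hx => exact hpr (Ed.t x hx) 1 w hw
      | q x hx => exact hpr (Ed.t x hx) 2 w hw

variable {hM k}

section Hom

variable {S : Type w} [Ring S] [Algebra k S] (F : Frame (shM hM) S)

open scoped Classical

/-- The idempotent attached to `x` by a frame. -/
noncomputable def fE (x : M) : S :=
  if hx : x = 0 then 0 else F.inj (Ed.t x hx) 1 * F.pr (Ed.t x hx) 1

theorem fE_zero : fE F (0 : M) = 0 := by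
  unfold fE; rw [dif_pos rfl]

theorem fE_ne {x : M} (hx : x ≠ 0) : fE F x = F.inj (Ed.t x hx) 1 * F.pr (Ed.t x hx) 1 := by
  unfold fE; rw [dif_neg hx]

noncomputable def fA (x y : M) : S :=
  if hx : x = 0 then 0 else if hy : y = 0 then fE F x else
    F.inj (Ed.t (x + y) (con_ne hM hx)) 1 * F.inj (Ed.s x y hx hy) 1 * F.pr (Ed.t x hx) 1

noncomputable def fB (x y : M) : S :=
  if hy : y = 0 then 0 else if hx : x = 0 then fE F y else
    F.inj (Ed.t (x + y) (con_ne hM hx)) 1 * F.inj (Ed.s x y hx hy) 2 * F.pr (Ed.t y hy) 1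

noncomputable def fC (x y : M) : S :=
  if hx : x = 0 then 0 else if hy : y = 0 then fE F x else
    F.inj (Ed.t x hx) 1 * F.pr (Ed.s x y hx hy) 1 * F.pr (Ed.t (x + y) (con_ne hM hx)) 1

noncomputable def fD (x y : M) : S :=
  if hy : y = 0 then 0 else if hx : x = 0 then fE F y else
    F.inj (Ed.t y hy) 1 * F.pr (Ed.s x y hx hy) 2 * F.pr (Ed.t (x + y) (con_ne hM hx)) 1

theorem fA_ne {x y : M} (hx : x ≠ 0) (hy : y ≠ 0) : fA F x y =
    F.inj (Ed.t (x + y) (con_ne hM hx)) 1 * F.inj (Ed.s x y hx hy) 1 * F.pr (Ed.t x hx) 1 := by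
  unfold fA; rw [dif_neg hx, dif_neg hy]

theorem fB_ne {x y : M} (hx : x ≠ 0) (hy : y ≠ 0) : fB F x y =
    F.inj (Ed.t (x + y) (con_ne hM hx)) 1 * F.inj (Ed.s x y hx hy) 2 * F.pr (Ed.t y hy) 1 := by
  unfold fB; rw [dif_neg hy, dif_neg hx]

theorem fC_ne {x y : M} (hx : x ≠ 0) (hy : y ≠ 0) : fC F x y =
    F.inj (Ed.t x hx) 1 * F.pr (Ed.s x y hx hy) 1 * F.pr (Ed.t (x + y) (con_ne hM hx)) 1 := by
  unfold fC; rw [dif_neg hx, dif_neg hy]

theorem fD_ne {x y : M} (hx : x ≠ 0) (hy : y ≠ 0) : fD F x y =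
    F.inj (Ed.t y hy) 1 * F.pr (Ed.s x y hx hy) 2 * F.pr (Ed.t (x + y) (con_ne hM hx)) 1 := by
  unfold fD; rw [dif_neg hy, dif_neg hx]

theorem fA_0y (y : M) : fA F 0 y = 0 := by unfold fA; rw [dif_pos rfl]
theorem fA_x0 (x : M) : fA F x 0 = fE F x := by
  unfold fA
  by_cases hx : x = 0
  · rw [dif_pos hx, hx, fE_zero]
  · rw [dif_neg hx, dif_pos rfl]
theorem fB_x0 (x : M) : fB F x 0 = 0 := by unfold fB; rw [dif_pos rfl]
theorem fB_0y (y : M) : fB F 0 y = fE F y := by
  unfold fB
  by_cases hy : y = 0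
  · rw [dif_pos hy, hy, fE_zero]
  · rw [dif_neg hy, dif_pos rfl]
theorem fC_0y (y : M) : fC F 0 y = 0 := by unfold fC; rw [dif_pos rfl]
theorem fC_x0 (x : M) : fC F x 0 = fE F x := by
  unfold fC
  by_cases hx : x = 0
  · rw [dif_pos hx, hx, fE_zero]
  · rw [dif_neg hx, dif_pos rfl]
theorem fD_x0 (x : M) : fD F x 0 = 0 := by unfold fD; rw [dif_pos rfl]
theorem fD_0y (y : M) : fD F 0 y = fE F y := by
  unfold fD
  by_cases hy : y = 0
  · rw [dif_pos hy, hy, fE_zero]
  · rw [dif_neg hy, dif_pos rfl]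

/-- `pr * inj = e` for the relation `t x`. -/
theorem pt_it (x : M) (hx : x ≠ 0) (z : S) :
    F.pr (Ed.t x hx) 1 * (F.inj (Ed.t x hx) 1 * z) = F.e (Ob.p x hx) * z := by
  rw [← mul_assoc]
  have := F.pr_mul_inj_same (Ed.t x hx) 1
  rw [this]; rfl

theorem e_pt (x : M) (hx : x ≠ 0) (z : S) :
    F.e (Ob.p x hx) * (F.pr (Ed.t x hx) 1 * z) = F.pr (Ed.t x hx) 1 * z := by
  rw [← mul_assoc]
  have := F.e_mul_pr (Ed.t x hx) 1
  change F.e (Ob.p x hx) * F.pr (Ed.t x hx) 1 = _ at this
  rw [this]

theorem e_pt' (x : M) (hx : x ≠ 0) :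
    F.e (Ob.p x hx) * F.pr (Ed.t x hx) 1 = F.pr (Ed.t x hx) 1 := F.e_mul_pr (Ed.t x hx) 1

theorem e_ps1 (x y : M) (hx : x ≠ 0) (hy : y ≠ 0) (z : S) :
    F.e (Ob.p x hx) * (F.pr (Ed.s x y hx hy) 1 * z) = F.pr (Ed.s x y hx hy) 1 * z := by
  rw [← mul_assoc]
  have := F.e_mul_pr (Ed.s x y hx hy) 1
  change F.e (Ob.p x hx) * F.pr (Ed.s x y hx hy) 1 = _ at this
  rw [this]

theorem e_ps2 (x y : M) (hx : x ≠ 0) (hy : y ≠ 0) (z : S) :
    F.e (Ob.p y hy) * (F.pr (Ed.s x y hx hy) 2 * z) = F.pr (Ed.s x y hx hy) 2 * z := by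
  rw [← mul_assoc]
  have := F.e_mul_pr (Ed.s x y hx hy) 2
  change F.e (Ob.p y hy) * F.pr (Ed.s x y hx hy) 2 = _ at this
  rw [this]

theorem e_is (x y : M) (hx : x ≠ 0) (hy : y ≠ 0) (i : Fin 3) (z : S) :
    F.e (Ob.p (x + y) (con_ne hM hx)) * (F.inj (Ed.s x y hx hy) i * z)
      = F.inj (Ed.s x y hx hy) i * z := by
  rw [← mul_assoc]
  have := F.e_mul_inj (Ed.s x y hx hy) i
  change F.e (Ob.p (x + y) (con_ne hM hx)) * _ = _ at this
  rw [this]

theorem ps1_is1 (x y : M) (hx : x ≠ 0) (hy : y ≠ 0) (z : S) :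
    F.pr (Ed.s x y hx hy) 1 * (F.inj (Ed.s x y hx hy) 1 * z) = F.e (Ob.p x hx) * z := by
  rw [← mul_assoc]
  have := F.pr_mul_inj_same (Ed.s x y hx hy) 1
  rw [this]; rfl

theorem ps2_is2 (x y : M) (hx : x ≠ 0) (hy : y ≠ 0) (z : S) :
    F.pr (Ed.s x y hx hy) 2 * (F.inj (Ed.s x y hx hy) 2 * z) = F.e (Ob.p y hy) * z := by
  rw [← mul_assoc]
  have := F.pr_mul_inj_same (Ed.s x y hx hy) 2
  rw [this]; rfl

theorem ps1_is2 (x y : M) (hx : x ≠ 0) (hy : y ≠ 0) (z : S) :
    F.pr (Ed.s x y hx hy) 1 * (F.inj (Ed.s x y hx hy) 2 * z) = 0 := by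
  rw [← mul_assoc, F.pr_mul_inj_12, zero_mul]

theorem ps2_is1 (x y : M) (hx : x ≠ 0) (hy : y ≠ 0) (z : S) :
    F.pr (Ed.s x y hx hy) 2 * (F.inj (Ed.s x y hx hy) 1 * z) = 0 := by
  rw [← mul_assoc, F.pr_mul_inj_21, zero_mul]

/-- The values of the generators given by a frame. -/
noncomputable def valsOf : Vals k M S where
  f g := match g with
    | Gn.e x => fE F x
    | Gn.a x y => fA F x y
    | Gn.b x y => fB F x y
    | Gn.c x y => fC F x y
    | Gn.d x y => fD F x y
  e0 := fE_zero F
  ee x := by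
    change fE F x * fE F x = fE F x
    by_cases hx : x = 0
    · rw [hx, fE_zero, mul_zero]
    · rw [fE_ne F hx, mul_assoc, pt_it, e_pt']
  ea x y := by
    change fE F (x + y) * fA F x y = fA F x y
    by_cases hx : x = 0
    · rw [hx, fA_0y, mul_zero]
    by_cases hy : y = 0
    · subst hy
      rw [fA_x0, add_zero]
      rw [fE_ne F hx, mul_assoc, pt_it, e_pt']
    · rw [fA_ne F hx hy, fE_ne F (con_ne hM hx)]
      simp only [mul_assoc]
      rw [pt_it, e_is]
  ae x y := by
    change fA F x y * fE F x = fA F x y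
    by_cases hx : x = 0
    · rw [hx, fA_0y, zero_mul]
    by_cases hy : y = 0
    · subst hy
      rw [fA_x0]
      rw [fE_ne F hx, mul_assoc, pt_it, e_pt']
    · rw [fA_ne F hx hy, fE_ne F hx]
      simp only [mul_assoc]
      rw [pt_it, e_pt']
  eb x y := by
    change fE F (x + y) * fB F x y = fB F x y
    by_cases hy : y = 0
    · rw [hy, fB_x0, mul_zero]
    by_cases hx : x = 0
    · subst hx
      rw [fB_0y, zero_add]
      rw [fE_ne F hy, mul_assoc, pt_it, e_pt']
    · rw [fB_ne F hx hy, fE_ne F (con_ne hM hx)]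
      simp only [mul_assoc]
      rw [pt_it, e_is]
  be x y := by
    change fB F x y * fE F y = fB F x y
    by_cases hy : y = 0
    · rw [hy, fB_x0, zero_mul]
    by_cases hx : x = 0
    · subst hx
      rw [fB_0y]
      rw [fE_ne F hy, mul_assoc, pt_it, e_pt']
    · rw [fB_ne F hx hy, fE_ne F hy]
      simp only [mul_assoc]
      rw [pt_it, e_pt']
  ec x y := by
    change fE F x * fC F x y = fC F x y
    by_cases hx : x = 0
    · rw [hx, fC_0y, mul_zero]
    by_cases hy : y = 0
    · subst hy
      rw [fC_x0]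
      rw [fE_ne F hx, mul_assoc, pt_it, e_pt']
    · rw [fC_ne F hx hy, fE_ne F hx]
      simp only [mul_assoc]
      rw [pt_it, e_ps1]
  ce x y := by
    change fC F x y * fE F (x + y) = fC F x y
    by_cases hx : x = 0
    · rw [hx, fC_0y, zero_mul]
    by_cases hy : y = 0
    · subst hy
      rw [fC_x0, add_zero]
      rw [fE_ne F hx, mul_assoc, pt_it, e_pt']
    · rw [fC_ne F hx hy, fE_ne F (con_ne hM hx)]
      simp only [mul_assoc]
      rw [pt_it, e_pt']
  ed x y := by
    change fE F y * fD F x y = fD F x y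
    by_cases hy : y = 0
    · rw [hy, fD_x0, mul_zero]
    by_cases hx : x = 0
    · subst hx
      rw [fD_0y]
      rw [fE_ne F hy, mul_assoc, pt_it, e_pt']
    · rw [fD_ne F hx hy, fE_ne F hy]
      simp only [mul_assoc]
      rw [pt_it, e_ps2]
  de x y := by
    change fD F x y * fE F (x + y) = fD F x y
    by_cases hy : y = 0
    · rw [hy, fD_x0, zero_mul]
    by_cases hx : x = 0
    · subst hx
      rw [fD_0y, zero_add]
      rw [fE_ne F hy, mul_assoc, pt_it, e_pt']
    · rw [fD_ne F hx hy, fE_ne F (con_ne hM hx)]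
      simp only [mul_assoc]
      rw [pt_it, e_pt']
  ca x y := by
    change fC F x y * fA F x y = fE F x
    by_cases hx : x = 0
    · rw [hx, fC_0y, zero_mul, fE_zero]
    by_cases hy : y = 0
    · subst hy
      rw [fC_x0, fA_x0]
      rw [fE_ne F hx, mul_assoc, pt_it, e_pt']
    · rw [fC_ne F hx hy, fA_ne F hx hy, fE_ne F hx]
      simp only [mul_assoc]
      rw [pt_it, e_is, ps1_is1, e_pt']
  db x y := by
    change fD F x y * fB F x y = fE F y
    by_cases hy : y = 0
    · rw [hy, fD_x0, zero_mul, fE_zero]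
    by_cases hx : x = 0
    · subst hx
      rw [fD_0y, fB_0y]
      rw [fE_ne F hy, mul_assoc, pt_it, e_pt']
    · rw [fD_ne F hx hy, fB_ne F hx hy, fE_ne F hy]
      simp only [mul_assoc]
      rw [pt_it, e_is, ps2_is2, e_pt']
  cb x y := by
    change fC F x y * fB F x y = 0
    by_cases hx : x = 0
    · rw [hx, fC_0y, zero_mul]
    by_cases hy : y = 0
    · rw [hy, fB_x0, mul_zero]
    · rw [fC_ne F hx hy, fB_ne F hx hy]
      simp only [mul_assoc]
      rw [pt_it, e_is, ps1_is2, mul_zero]
  da x y := by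
    change fD F x y * fA F x y = 0
    by_cases hx : x = 0
    · rw [hx, fA_0y, mul_zero]
    by_cases hy : y = 0
    · rw [hy, fD_x0, zero_mul]
    · rw [fD_ne F hx hy, fA_ne F hx hy]
      simp only [mul_assoc]
      rw [pt_it, e_is, ps2_is1, mul_zero]
  sum x y := by
    change fA F x y * fC F x y + fB F x y * fD F x y = fE F (x + y)
    by_cases hx : x = 0
    · subst hx
      rw [fA_0y, zero_mul, zero_add, zero_add, fB_0y, fD_0y]
      by_cases hy : y = 0
      · rw [hy, fE_zero, mul_zero]
      · rw [fE_ne F hy, mul_assoc, pt_it, e_pt']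
    by_cases hy : y = 0
    · subst hy
      rw [fB_x0, zero_mul, add_zero, add_zero, fA_x0, fC_x0]
      rw [fE_ne F hx, mul_assoc, pt_it, e_pt']
    · rw [fA_ne F hx hy, fB_ne F hx hy, fC_ne F hx hy, fD_ne F hx hy, fE_ne F (con_ne hM hx)]
      simp only [mul_assoc]
      rw [pt_it, pt_it, e_ps1, e_ps2, ← mul_add]
      congr 1
      have h := F.sum_12 (Ed.s x y hx hy)
      change _ = F.e (Ob.p (x + y) (con_ne hM hx)) at h
      calc F.inj (Ed.s x y hx hy) 1 * (F.pr (Ed.s x y hx hy) 1 * F.pr (Ed.t (x + y) (con_ne hM hx)) 1)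
          + F.inj (Ed.s x y hx hy) 2 * (F.pr (Ed.s x y hx hy) 2 * F.pr (Ed.t (x + y) (con_ne hM hx)) 1)
          = (F.inj (Ed.s x y hx hy) 1 * F.pr (Ed.s x y hx hy) 1
            + F.inj (Ed.s x y hx hy) 2 * F.pr (Ed.s x y hx hy) 2)
            * F.pr (Ed.t (x + y) (con_ne hM hx)) 1 := by
            rw [add_mul, mul_assoc, mul_assoc]
        _ = F.pr (Ed.t (x + y) (con_ne hM hx)) 1 := by
            rw [h, e_pt']
  b0 y := fB_0y F y
  d0 y := fD_0y F y
  a0 x := fA_x0 F x
  c0 x := fC_x0 F x

/-- The homomorphism from the algebra given by a frame. -/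
noncomputable def toS : Alg k M →ₐ[k] S := Alg.lift (valsOf (k := k) F)

@[simp] theorem toS_e (x : M) : toS (k := k) F (Alg.g k (Gn.e x)) = fE F x := Alg.lift_g _ _
@[simp] theorem toS_E (x : M) : toS (k := k) F (E k x) = fE F x := Alg.lift_g _ _
@[simp] theorem toS_a (x y : M) : toS (k := k) F (Alg.g k (Gn.a x y)) = fA F x y := Alg.lift_g _ _
@[simp] theorem toS_b (x y : M) : toS (k := k) F (Alg.g k (Gn.b x y)) = fB F x y := Alg.lift_g _ _
@[simp] theorem toS_c (x y : M) : toS (k := k) F (Alg.g k (Gn.c x y)) = fC F x y := Alg.lift_g _ _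
@[simp] theorem toS_d (x y : M) : toS (k := k) F (Alg.g k (Gn.d x y)) = fD F x y := Alg.lift_g _ _

theorem star_it (x : M) (hx : x ≠ 0) (i : Fin 3) :
    F.e Ob.star * F.inj (Ed.t x hx) i = F.inj (Ed.t x hx) i := F.e_mul_inj (Ed.t x hx) i

theorem pt_star (x : M) (hx : x ≠ 0) (i : Fin 3) :
    F.pr (Ed.t x hx) i * F.e Ob.star = F.pr (Ed.t x hx) i := F.pr_mul_e (Ed.t x hx) i

theorem fE_comm (x : M) : F.e Ob.star * fE F x = fE F x * F.e Ob.star := by
  by_cases hx : x = 0
  · rw [hx, fE_zero, mul_zero, zero_mul]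
  · rw [fE_ne F hx, ← mul_assoc, star_it, mul_assoc, pt_star]

theorem toS_comm (r : Alg k M) : F.e Ob.star * toS F r = toS F r * F.e Ob.star := by
  induction r using Alg.induction with
  | hc c => rw [AlgHom.commutes]; exact (Algebra.commutes c _).symm
  | hg g =>
    cases g with
    | e x => rw [toS_e]; exact fE_comm F x
    | a x y =>
      rw [toS_a]
      by_cases hx : x = 0
      · rw [hx, fA_0y, mul_zero, zero_mul]
      by_cases hy : y = 0
      · rw [hy, fA_x0, fE_comm]
      · rw [fA_ne F hx hy, ← mul_assoc, ← mul_assoc, star_it, mul_assoc _ _ (F.e Ob.star), pt_star]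
    | b x y =>
      rw [toS_b]
      by_cases hy : y = 0
      · rw [hy, fB_x0, mul_zero, zero_mul]
      by_cases hx : x = 0
      · rw [hx, fB_0y, fE_comm]
      · rw [fB_ne F hx hy, ← mul_assoc, ← mul_assoc, star_it, mul_assoc _ _ (F.e Ob.star), pt_star]
    | c x y =>
      rw [toS_c]
      by_cases hx : x = 0
      · rw [hx, fC_0y, mul_zero, zero_mul]
      by_cases hy : y = 0
      · rw [hy, fC_x0, fE_comm]
      · rw [fC_ne F hx hy, ← mul_assoc, ← mul_assoc, star_it, mul_assoc _ _ (F.e Ob.star), pt_star]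
    | d x y =>
      rw [toS_d]
      by_cases hy : y = 0
      · rw [hy, fD_x0, mul_zero, zero_mul]
      by_cases hx : x = 0
      · rw [hx, fD_0y, fE_comm]
      · rw [fD_ne F hx hy, ← mul_assoc, ← mul_assoc, star_it, mul_assoc _ _ (F.e Ob.star), pt_star]
  | hm r s hr hs => rw [map_mul, ← mul_assoc, hr, mul_assoc, hs, mul_assoc]
  | ha r s hr hs => rw [map_add, mul_add, add_mul, hr, hs]

end Hom

end

end Pool.Agent.Lib_helper8.Berg
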