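import Mathlib

/-!
Frames, good filtrations and the strictness theorem.
-/

namespace Pool.Agent.Lib_helper8.Berg

universe u1 u2 u3 u4 u5

/-- A shape: relations `v l = a l + b l` between objects. -/
structure Shape (B : Type u1) (L : Type u2) where
  v : L → B
  a : L → B
  b : L → B

/-- The two ends of a relation: slot `0` is the end `v`, slots `1, 2` form the end `a + b`. -/
def side (i : Fin 3) : Bool := decide (i ≠ 0)

@[simp] theorem side_zero : side 0 = false := rfl
@[simp] theorem side_one : side 1 = true := rfl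
@[simp] theorem side_two : side 2 = true := rfl

variable {B : Type u1} {L : Type u2}

/-- The target object of a slot. -/
def Shape.tgt (sh : Shape B L) (l : L) : Fin 3 → B := ![sh.v l, sh.a l, sh.b l]

@[simp] theorem Shape.tgt_zero (sh : Shape B L) (l : L) : sh.tgt l 0 = sh.v l := rfl
@[simp] theorem Shape.tgt_one (sh : Shape B L) (l : L) : sh.tgt l 1 = sh.a l := rfl
@[simp] theorem Shape.tgt_two (sh : Shape B L) (l : L) : sh.tgt l 2 = sh.b l := rfl

/-- A frame of shape `sh` in a ring `R`. -/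
structure Frame (sh : Shape B L) (R : Type u3) [Ring R] where
  e : B → R
  pr : L → Fin 3 → R
  inj : L → Fin 3 → R
  e_mul_e : ∀ b, e b * e b = e b
  pr_zero : ∀ l, pr l 0 = e (sh.v l)
  inj_zero : ∀ l, inj l 0 = e (sh.v l)
  e_mul_pr : ∀ l i, e (sh.tgt l i) * pr l i = pr l i
  pr_mul_e : ∀ l i, pr l i * e (sh.v l) = pr l i
  e_mul_inj : ∀ l i, e (sh.v l) * inj l i = inj l i
  inj_mul_e : ∀ l i, inj l i * e (sh.tgt l i) = inj l i
  pr_mul_inj_same : ∀ l i, pr l i * inj l i = e (sh.tgt l i)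
  pr_mul_inj_12 : ∀ l, pr l 1 * inj l 2 = 0
  pr_mul_inj_21 : ∀ l, pr l 2 * inj l 1 = 0
  sum_12 : ∀ l, inj l 1 * pr l 1 + inj l 2 * pr l 2 = e (sh.v l)

section Defs

variable {sh : Shape B L} {k : Type u3} [Field k] {R : Type u4} [Ring R] [Algebra k R]
variable (F : Frame sh R)
variable (W : Type u5) [AddCommGroup W] [Module k W] [Module R W] [IsScalarTower k R W]

variable (k) in
/-- The `b`-part of a module. -/
def obj (b : B) : Submodule k W where
  carrier := {w | F.e b • w = w}
  add_mem' := by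
    intro x y hx hy
    simp only [Set.mem_ofPred_eq] at *
    rw [smul_add, hx, hy]
  zero_mem' := by simp
  smul_mem' := by
    intro c x hx
    simp only [Set.mem_ofPred_eq] at *
    rw [← smul_comm c, hx]

variable {F W}

theorem mem_obj {b : B} {w : W} : w ∈ obj k F W b ↔ F.e b • w = w := Iff.rfl

/-- The elements at `l` all of whose components of the end `ε` lie in the family `V`. -/
def low (F : Frame sh R) (V : B → Submodule k W) (l : L) (ε : Bool) : Submodule k W where
  carrier := {w | F.e (sh.v l) • w = w ∧ ∀ i, side i = ε → F.pr l i • w ∈ V (sh.tgt l i)}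
  add_mem' := by
    intro x y hx hy
    simp only [Set.mem_ofPred_eq] at *
    refine ⟨by rw [smul_add, hx.1, hy.1], fun i hi => ?_⟩
    rw [smul_add]
    exact add_mem (hx.2 i hi) (hy.2 i hi)
  zero_mem' := by simp
  smul_mem' := by
    intro c x hx
    simp only [Set.mem_ofPred_eq] at *
    refine ⟨by rw [← smul_comm c, hx.1], fun i hi => ?_⟩
    rw [← smul_comm c]
    exact Submodule.smul_mem _ _ (hx.2 i hi)

/-- The elements at `l` all of whose components lie in the family `V`. -/
def upp (F : Frame sh R) (V : B → Submodule k W) (l : L) : Submodule k W :=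
  low F V l false ⊓ low F V l true

theorem mem_low {V : B → Submodule k W} {l : L} {ε : Bool} {w : W} :
    w ∈ low F V l ε ↔ F.e (sh.v l) • w = w ∧ ∀ i, side i = ε → F.pr l i • w ∈ V (sh.tgt l i) :=
  Iff.rfl

theorem mem_upp {V : B → Submodule k W} {l : L} {w : W} :
    w ∈ upp F V l ↔ F.e (sh.v l) • w = w ∧ ∀ i, F.pr l i • w ∈ V (sh.tgt l i) := by
  unfold upp
  rw [Submodule.mem_inf, mem_low, mem_low]
  constructor
  · rintro ⟨⟨h1, h2⟩, -, h3⟩
    refine ⟨h1, fun i => ?_⟩
    cases hi : side i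
    · exact h2 i hi
    · exact h3 i hi
  · rintro ⟨h1, h2⟩
    exact ⟨⟨h1, fun i _ => h2 i⟩, h1, fun i _ => h2 i⟩

/-- The sum map `x ↦ Σ pr s • x s`. -/
noncomputable def prSum (k : Type u3) [Field k] [Algebra k R] (F : Frame sh R)
    (W : Type u5) [AddCommGroup W] [Module k W] [Module R W] [IsScalarTower k R W] :
    (L × Fin 3 →₀ W) →ₗ[k] W :=
  Finsupp.lsum k (fun s => (Algebra.lsmul k k W (F.pr s.1 s.2)))

theorem prSum_apply (x : L × Fin 3 →₀ W) :
    prSum k F W x = x.sum fun s w => F.pr s.1 s.2 • w := by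
  rw [prSum, Finsupp.lsum_apply]
  rfl

@[simp] theorem prSum_single (s : L × Fin 3) (w : W) :
    prSum k F W (Finsupp.single s w) = F.pr s.1 s.2 • w := by
  rw [prSum_apply, Finsupp.sum_single_index (by simp)]

/-- Good filtrations. -/
structure GoodFil (k : Type u3) [Field k] [Algebra k R] (F : Frame sh R)
    (W : Type u5) [AddCommGroup W] [Module k W] [Module R W] [IsScalarTower k R W] where
  V : ℕ → B → Submodule k W
  le_obj : ∀ n b w, w ∈ V n b → F.e b • w = w
  mono : ∀ n b w, w ∈ V n b → w ∈ V (n + 1) b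
  pr_mem : ∀ n l i w, w ∈ V n (sh.v l) → F.pr l i • w ∈ V (n + 1) (sh.tgt l i)
  inj_mem : ∀ n l i w, w ∈ V n (sh.tgt l i) → F.inj l i • w ∈ V (n + 1) (sh.v l)
  zero : ∀ l w, w ∈ upp F (V 0) l → w = 0
  exh : ∀ b w, F.e b • w = w → ∃ n, w ∈ V n b
  indep : ∀ n b (x : L × Fin 3 →₀ W), (∀ s, x s ∈ upp F (V (n + 1)) s.1) →
    (∀ s, x s ≠ 0 → sh.tgt s.1 s.2 = b) → prSum k F W x ∈ V n b →
    ∀ s, x s ∈ low F (V n) s.1 (side s.2)

end Defs

section Basic

variable {sh : Shape B L} {k : Type u3} [Field k] {R : Type u4} [Ring R] [Algebra k R]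
variable {F : Frame sh R}
variable {W : Type u5} [AddCommGroup W] [Module k W] [Module R W] [IsScalarTower k R W]

theorem eq_sum_12 {l : L} {w : W} (h : F.e (sh.v l) • w = w) :
    w = F.inj l 1 • F.pr l 1 • w + F.inj l 2 • F.pr l 2 • w := by
  rw [smul_smul, smul_smul, ← add_smul, F.sum_12, h]

theorem pr_zero_smul {l : L} {w : W} (h : F.e (sh.v l) • w = w) : F.pr l 0 • w = w := by
  rw [F.pr_zero, h]

theorem e_pr_smul (l : L) (i : Fin 3) (w : W) :
    F.e (sh.tgt l i) • F.pr l i • w = F.pr l i • w := by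
  rw [smul_smul, F.e_mul_pr]

theorem e_inj_smul (l : L) (i : Fin 3) (w : W) :
    F.e (sh.v l) • F.inj l i • w = F.inj l i • w := by
  rw [smul_smul, F.e_mul_inj]

theorem GoodFil.low_le_upp (G : GoodFil k F W) (n : ℕ) (l : L) (ε : Bool) {w : W}
    (hw : w ∈ low F (G.V n) l ε) : w ∈ upp F (G.V (n + 1)) l := by
  rw [mem_low] at hw
  rw [mem_upp]
  refine ⟨hw.1, ?_⟩
  cases ε
  · have h0 := hw.2 0 rfl
    rw [pr_zero_smul hw.1] at h0
    intro i
    exact G.pr_mem n l i w h0
  · have h1 := hw.2 1 rfl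
    have h2 := hw.2 2 rfl
    have h3 : w ∈ G.V (n + 1) (sh.v l) := by
      rw [eq_sum_12 hw.1]
      exact add_mem (G.inj_mem n l 1 _ h1) (G.inj_mem n l 2 _ h2)
    intro i
    fin_cases i
    · change F.pr l 0 • w ∈ _
      rw [pr_zero_smul hw.1]
      exact h3
    · exact G.mono _ _ _ h1
    · exact G.mono _ _ _ h2

end Basic

section Strict

variable {sh : Shape B L} {k : Type u3} [Field k] {R : Type u4} [Ring R] [Algebra k R]
variable (F : Frame sh R)
variable {N : Type u5} [AddCommGroup N] [Module k N] [Module R N] [IsScalarTower k R N]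

/-- Edge spaces built from vertex spaces. -/
def UNof (V : B → Submodule k N) (E : L → Submodule k N) (l : L) : Submodule k N :=
  low F V l false ⊔ low F V l true ⊔ E l

/-- Vertex spaces built from vertex and edge spaces. -/
def VPof (V : B → Submodule k N) (U : L → Submodule k N) (b : B) : Submodule k N where
  carrier := {w | ∃ w0 ∈ V b, ∃ x : L × Fin 3 →₀ N, (∀ s, x s ∈ U s.1) ∧
    (∀ s, x s ≠ 0 → sh.tgt s.1 s.2 = b) ∧ w = w0 + prSum k F N x}
  add_mem' := by
    rintro w w' ⟨w0, hw0, x, hx1, hx2, rfl⟩ ⟨w0', hw0', x', hx1', hx2', rfl⟩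
    refine ⟨w0 + w0', add_mem hw0 hw0', x + x', fun s => ?_, fun s hs => ?_, ?_⟩
    · exact add_mem (hx1 s) (hx1' s)
    · by_contra hne
      apply hs
      have h1 : x s = 0 := by
        by_contra h; exact hne (hx2 s h)
      have h2 : x' s = 0 := by
        by_contra h; exact hne (hx2' s h)
      rw [Finsupp.add_apply, h1, h2, add_zero]
    · rw [map_add]; abel
  zero_mem' := ⟨0, zero_mem _, 0, by simp, by simp, by simp⟩
  smul_mem' := by
    rintro c w ⟨w0, hw0, x, hx1, hx2, rfl⟩
    refine ⟨c • w0, Submodule.smul_mem _ _ hw0, c • x, fun s => ?_, fun s hs => ?_, ?_⟩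
    · exact Submodule.smul_mem _ _ (hx1 s)
    · apply hx2 s
      intro h
      apply hs
      rw [Finsupp.smul_apply, h, smul_zero]
    · rw [map_smul, smul_add]

variable (DV : ℕ → B → Submodule k N) (DE : ℕ → L → Submodule k N)

/-- The filtration generated by `DV`, `DE`. -/
def VN : ℕ → B → Submodule k N
  | 0 => DV 0
  | n + 1 => fun b => VPof F (VN n) (UNof F (VN n) (DE (n + 1))) b ⊔ DV (n + 1) b

def UN : ℕ → L → Submodule k N
  | 0 => fun _ => ⊥
  | n + 1 => UNof F (VN F DV DE n) (DE (n + 1))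

def VP : ℕ → B → Submodule k N
  | 0 => fun _ => ⊥
  | n + 1 => VPof F (VN F DV DE n) (UN F DV DE (n + 1))

theorem VN_eq (n : ℕ) (b : B) : VN F DV DE n b = VP F DV DE n b ⊔ DV n b := by
  cases n with
  | zero => simp [VN, VP]
  | succ n => rfl

variable {F DV DE}

theorem VN_le_VP (n : ℕ) (b : B) : VN F DV DE n b ≤ VP F DV DE (n + 1) b := by
  intro w hw
  exact ⟨w, hw, 0, by simp, by simp, by simp⟩

theorem VP_le_VN (n : ℕ) (b : B) : VP F DV DE n b ≤ VN F DV DE n b := by
  rw [VN_eq]; exact le_sup_left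

theorem DV_le_VN (n : ℕ) (b : B) : DV n b ≤ VN F DV DE n b := by
  rw [VN_eq]; exact le_sup_right

theorem VN_mono_succ (n : ℕ) (b : B) : VN F DV DE n b ≤ VN F DV DE (n + 1) b :=
  (VN_le_VP n b).trans (VP_le_VN (n + 1) b)

theorem VN_mono {m n : ℕ} (h : m ≤ n) (b : B) : VN F DV DE m b ≤ VN F DV DE n b := by
  induction h with
  | refl => exact le_rfl
  | step _ ih => exact ih.trans (VN_mono_succ _ b)

theorem pr_UN_mem (n : ℕ) (l : L) (i : Fin 3) {w : N} (hw : w ∈ UN F DV DE (n + 1) l) :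
    F.pr l i • w ∈ VP F DV DE (n + 1) (sh.tgt l i) := by
  classical
  refine ⟨0, zero_mem _, Finsupp.single (l, i) w, fun s => ?_, fun s hs => ?_, ?_⟩
  · rw [Finsupp.single_apply]
    split_ifs with h
    · subst h; exact hw
    · exact zero_mem _
  · rw [Finsupp.single_apply] at hs
    split_ifs at hs with h
    · subst h; rfl
    · exact absurd rfl hs
  · simp

variable (hDV : ∀ n b w, w ∈ DV n b → F.e b • w = w)
variable (hDE : ∀ n l w, w ∈ DE n l → F.e (sh.v l) • w = w)

include hDE in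
theorem UN_e (n : ℕ) (l : L) {w : N} (hw : w ∈ UN F DV DE n l) : F.e (sh.v l) • w = w := by
  cases n with
  | zero =>
    have : w = 0 := by simpa [UN] using hw
    rw [this, smul_zero]
  | succ n =>
    change w ∈ UNof F _ _ l at hw
    unfold UNof at hw
    rw [Submodule.mem_sup] at hw
    obtain ⟨y, hy, z, hz, rfl⟩ := hw
    rw [Submodule.mem_sup] at hy
    obtain ⟨y1, hy1, y2, hy2, rfl⟩ := hy
    rw [smul_add, smul_add, hy1.1, hy2.1, hDE _ _ _ hz]

theorem prSum_e (b : B) (x : L × Fin 3 →₀ N) (hx : ∀ s, x s ≠ 0 → sh.tgt s.1 s.2 = b) :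
    F.e b • prSum k F N x = prSum k F N x := by
  rw [prSum_apply, Finsupp.sum, Finset.smul_sum]
  refine Finset.sum_congr rfl fun s hs => ?_
  have := hx s (Finsupp.mem_support_iff.mp hs)
  rw [← this, e_pr_smul]

include hDV in
theorem VN_e (n : ℕ) (b : B) {w : N} (hw : w ∈ VN F DV DE n b) : F.e b • w = w := by
  induction n generalizing b w with
  | zero => exact hDV 0 b w hw
  | succ n ih =>
    rw [VN_eq, Submodule.mem_sup] at hw
    obtain ⟨y, hy, z, hz, rfl⟩ := hw
    obtain ⟨w0, hw0, x, hx1, hx2, rfl⟩ := hy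
    rw [smul_add, smul_add, ih b hw0, prSum_e b x hx2, hDV _ _ _ hz]

include hDE in
theorem UN_le_low (n : ℕ) (l : L) (ε : Bool) :
    UN F DV DE n l ≤ low F (VN F DV DE n) l ε := by
  cases n with
  | zero => simp [UN]
  | succ n =>
    intro w hw
    exact ⟨UN_e hDE (n + 1) l hw, fun i _ => VP_le_VN _ _ (pr_UN_mem n l i hw)⟩

theorem low_le_UN (n : ℕ) (l : L) (ε : Bool) :
    low F (VN F DV DE n) l ε ≤ UN F DV DE (n + 1) l := by
  change _ ≤ UNof F _ _ l
  unfold UNof
  cases ε
  · exact le_sup_of_le_left le_sup_left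
  · exact le_sup_of_le_left le_sup_right

theorem DE_le_UN (n : ℕ) (l : L) : DE (n + 1) l ≤ UN F DV DE (n + 1) l :=
  le_sup_right

end Strict

section Main

variable {sh : Shape B L} {k : Type u3} [Field k] {R : Type u4} [Ring R] [Algebra k R]
variable {F : Frame sh R}
variable {N : Type u5} [AddCommGroup N] [Module k N] [Module R N] [IsScalarTower k R N]
variable {M : Type u5} [AddCommGroup M] [Module k M] [Module R M] [IsScalarTower k R M]
variable {DV : ℕ → B → Submodule k N} {DE : ℕ → L → Submodule k N}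

/-- The previous step of a good filtration. -/
def GoodFil.prev (G : GoodFil k F M) : ℕ → B → Submodule k M
  | 0 => fun _ => ⊥
  | n + 1 => G.V n

theorem map_prSum (f : N →ₗ[R] M) (x : L × Fin 3 →₀ N) :
    f (prSum k F N x) = prSum k F M (x.mapRange f (map_zero f)) := by
  rw [prSum_apply, prSum_apply, Finsupp.sum_mapRange_index (by simp), map_finsuppSum]
  simp

/-- The compatibility of generating spaces with a map. -/
structure FilHyp (G : GoodFil k F M) (f : N →ₗ[R] M)
    (DV : ℕ → B → Submodule k N) (DE : ℕ → L → Submodule k N) : Prop where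
  hDV : ∀ n b w, w ∈ DV n b → F.e b • w = w
  hDE : ∀ n l w, w ∈ DE n l → F.e (sh.v l) • w = w
  fDV : ∀ n b w, w ∈ DV n b → f w ∈ G.V n b
  fDE : ∀ n l w, w ∈ DE n l → f w ∈ upp F (G.V n) l

/-- The hypotheses of the strictness theorem. -/
structure StrictHyp (G : GoodFil k F M) (f : N →ₗ[R] M)
    (DV : ℕ → B → Submodule k N) (DE : ℕ → L → Submodule k N) : Prop
    extends FilHyp G f DV DE where
  c1 : ∀ n b d w, d ∈ DV n b → w ∈ VP F DV DE n b → f (d + w) ∈ G.prev n b → d = 0
  c23 : ∀ n l ε w (d q : Fin 3 → N), F.e (sh.v l) • w = w →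
    (∀ i, side i = ε → d i ∈ DV n (sh.tgt l i)) →
    (∀ i, side i = ε → q i ∈ VP F DV DE n (sh.tgt l i)) →
    (∀ i, side i = ε → F.pr l i • w = d i + q i) →
    f w ∈ upp F (G.V n) l → ∀ i, side i = ε → d i = 0
  c45 : ∀ n l ε e p1 p2, e ∈ DE (n + 1) l → p1 ∈ low F (VN F DV DE n) l false →
    p2 ∈ low F (VN F DV DE n) l true → f (e + p1 + p2) ∈ low F (G.V n) l ε → e = 0

variable {G : GoodFil k F M} {f : N →ₗ[R] M}

theorem f_low (n : ℕ) (hV : ∀ b w, w ∈ VN F DV DE n b → f w ∈ G.V n b)
    (l : L) (ε : Bool) {w : N} (hw : w ∈ low F (VN F DV DE n) l ε) :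
    f w ∈ low F (G.V n) l ε := by
  refine ⟨by rw [← map_smul, hw.1], fun i hi => ?_⟩
  rw [← map_smul]
  exact hV _ _ (hw.2 i hi)

theorem FilHyp.f_UN_aux (H : FilHyp G f DV DE) (n : ℕ)
    (hV : ∀ b w, w ∈ VN F DV DE n b → f w ∈ G.V n b)
    (l : L) {w : N} (hw : w ∈ UN F DV DE (n + 1) l) : f w ∈ upp F (G.V (n + 1)) l := by
  change w ∈ UNof F _ _ l at hw
  unfold UNof at hw
  rw [Submodule.mem_sup] at hw
  obtain ⟨y, hy, z, hz, rfl⟩ := hw
  rw [Submodule.mem_sup] at hy
  obtain ⟨y1, hy1, y2, hy2, rfl⟩ := hy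
  rw [map_add, map_add]
  refine add_mem (add_mem ?_ ?_) (H.fDE _ _ _ hz)
  · exact G.low_le_upp n l false (f_low n hV l false hy1)
  · exact G.low_le_upp n l true (f_low n hV l true hy2)

theorem FilHyp.f_VN (H : FilHyp G f DV DE) (n : ℕ) :
    ∀ b w, w ∈ VN F DV DE n b → f w ∈ G.V n b := by
  induction n with
  | zero => exact fun b w hw => H.fDV 0 b w hw
  | succ n ih =>
    intro b w hw
    rw [VN_eq, Submodule.mem_sup] at hw
    obtain ⟨y, hy, z, hz, rfl⟩ := hw
    obtain ⟨w0, hw0, x, hx1, hx2, rfl⟩ := hy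
    rw [map_add, map_add]
    refine add_mem (add_mem (G.mono _ _ _ (ih _ _ hw0)) ?_) (H.fDV _ _ _ hz)
    rw [prSum_apply, map_finsuppSum]
    refine sum_mem fun s hs => ?_
    have h1 := H.f_UN_aux n ih s.1 (hx1 s)
    rw [mem_upp] at h1
    have h2 := h1.2 s.2
    change f (F.pr s.1 s.2 • x s) ∈ _
    rw [map_smul, ← hx2 s (Finsupp.mem_support_iff.mp hs)]
    exact h2

theorem FilHyp.f_UN (H : FilHyp G f DV DE) (n : ℕ) (l : L) {w : N}
    (hw : w ∈ UN F DV DE n l) : f w ∈ upp F (G.V n) l := by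
  cases n with
  | zero =>
    have : w = 0 := by simpa [UN] using hw
    rw [this, map_zero]; exact zero_mem _
  | succ n => exact H.f_UN_aux n (H.f_VN n) l hw

/-- Statement `PQ n` of the strictness theorem. -/
def PQ (G : GoodFil k F M) (f : N →ₗ[R] M)
    (DV : ℕ → B → Submodule k N) (DE : ℕ → L → Submodule k N) (n : ℕ) : Prop :=
  ∀ l ε w, w ∈ low F (VN F DV DE n) l ε → f w ∈ upp F (G.V n) l → w ∈ UN F DV DE n l

theorem StrictHyp.xy (H : StrictHyp G f DV DE) (n : ℕ) (hPQ : PQ G f DV DE n)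
    (l : L) (ε : Bool) (x : N) (hx : x ∈ UN F DV DE (n + 1) l) (hfx : f x ∈ low F (G.V n) l ε) :
    x ∈ low F (VN F DV DE n) l ε := by
  have hx' := hx
  change x ∈ UNof F _ _ l at hx'
  unfold UNof at hx'
  rw [Submodule.mem_sup] at hx'
  obtain ⟨y, hy, e, he, rfl⟩ := hx'
  rw [Submodule.mem_sup] at hy
  obtain ⟨p1, hp1, p2, hp2, rfl⟩ := hy
  have he0 : e = 0 := by
    refine H.c45 n l ε e p1 p2 he hp1 hp2 ?_
    convert hfx using 2
    abel
  subst he0
  rw [add_zero] at hfx hx ⊢
  have h1 := f_low n (H.f_VN n) l false hp1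
  have h2 := f_low n (H.f_VN n) l true hp2
  rw [map_add] at hfx
  cases ε
  · have h3 : f p2 ∈ low F (G.V n) l false := by
      have := sub_mem hfx h1
      rwa [add_sub_cancel_left] at this
    have h4 : p2 ∈ UN F DV DE n l := hPQ l true p2 hp2 ⟨h3, h2⟩
    exact add_mem hp1 (UN_le_low H.hDE n l false h4)
  · have h3 : f p1 ∈ low F (G.V n) l true := by
      have := sub_mem hfx h2
      rwa [add_sub_cancel_right] at this
    have h4 : p1 ∈ UN F DV DE n l := hPQ l false p1 hp1 ⟨h1, h3⟩
    exact add_mem (UN_le_low H.hDE n l true h4) hp2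

/-- Key consequence of independence: an element of `VP (n+1) b` whose image differs from the
image of a slot element by something in `V n b`. -/
theorem StrictHyp.key (H : StrictHyp G f DV DE) (n : ℕ) (hPQ : PQ G f DV DE n)
    (l : L) (i : Fin 3) (q : N) (u : M) (hq : q ∈ VP F DV DE (n + 1) (sh.tgt l i))
    (hu : u ∈ upp F (G.V (n + 1)) l) (hfq : f q - F.pr l i • u ∈ G.V n (sh.tgt l i)) :
    ∃ y ∈ UN F DV DE (n + 1) l, u - f y ∈ low F (G.V n) l (side i) ∧
      q - F.pr l i • y ∈ VN F DV DE n (sh.tgt l i) := by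
  classical
  obtain ⟨w0, hw0, x, hx1, hx2, rfl⟩ := hq
  refine ⟨x (l, i), hx1 (l, i), ?_⟩
  have key := G.indep n (sh.tgt l i)
    (Finsupp.single (l, i) u - x.mapRange f (map_zero f)) ?_ ?_ ?_
  · have k1 := key (l, i)
    simp only [Finsupp.coe_sub, Pi.sub_apply, Finsupp.single_eq_same, Finsupp.mapRange_apply]
      at k1
    refine ⟨k1, ?_⟩
    have hsplit : x = Finsupp.single (l, i) (x (l, i)) + x.erase (l, i) := by
      rw [Finsupp.single_add_erase]
    have h3 : prSum k F N x = F.pr l i • x (l, i) + prSum k F N (x.erase (l, i)) := by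
      conv_lhs => rw [hsplit]
      rw [map_add, prSum_single]
    have h4 : prSum k F N (x.erase (l, i)) ∈ VN F DV DE n (sh.tgt l i) := by
      rw [prSum_apply]
      refine sum_mem fun s hs => ?_
      have hs1 : s ≠ (l, i) := by
        intro h
        subst h
        simp at hs
      have hs2 : x s ≠ 0 := by
        have := Finsupp.mem_support_iff.mp hs
        rwa [Finsupp.erase_ne hs1] at this
      rw [Finsupp.erase_ne hs1]
      have ks := key s
      simp only [Finsupp.coe_sub, Pi.sub_apply, Finsupp.mapRange_apply] at ks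
      rw [Finsupp.single_eq_of_ne hs1, zero_sub, ← map_neg] at ks
      have h5 := H.xy n hPQ s.1 (side s.2) (-(x s)) (neg_mem (hx1 s)) ks
      have h6 := h5.2 s.2 rfl
      rw [smul_neg, neg_mem_iff] at h6
      rw [← hx2 s hs2]
      exact h6
    rw [h3]
    have : w0 + (F.pr l i • x (l, i) + prSum k F N (x.erase (l, i))) - F.pr l i • x (l, i)
        = w0 + prSum k F N (x.erase (l, i)) := by abel
    rw [this]
    exact add_mem hw0 h4
  · intro s
    rw [Finsupp.sub_apply, Finsupp.mapRange_apply, Finsupp.single_apply]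
    refine sub_mem ?_ (H.f_UN (n + 1) s.1 (hx1 s))
    split_ifs with h
    · subst h; exact hu
    · exact zero_mem _
  · intro s hs
    by_contra hne
    apply hs
    rw [Finsupp.sub_apply, Finsupp.mapRange_apply, Finsupp.single_apply]
    have h1 : (l, i) ≠ s := by
      intro h; subst h; exact hne rfl
    have h2 : x s = 0 := by
      by_contra h; exact hne (hx2 s h)
    rw [if_neg h1, h2, map_zero, sub_zero]
  · rw [map_sub, prSum_single, ← map_prSum]
    have h1 : F.pr l i • u - f (prSum k F N x)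
        = f w0 - (f (w0 + prSum k F N x) - F.pr l i • u) := by
      rw [map_add]; abel
    rw [h1]
    exact sub_mem (H.f_VN n _ _ hw0) hfq

theorem StrictHyp.pq (H : StrictHyp G f DV DE) (n : ℕ) : PQ G f DV DE n := by
  induction n with
  | zero =>
    intro l ε w hw hfw
    have hfw0 : f w = 0 := G.zero l _ hfw
    have h1 : ∀ i, side i = ε → F.pr l i • w = 0 := by
      intro i hi
      have h2 := hw.2 i hi
      refine H.c1 0 _ (F.pr l i • w) 0 h2 (zero_mem _) ?_
      rw [add_zero, map_smul, hfw0, smul_zero]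
      exact zero_mem _
    have h2 : w = 0 := by
      cases ε
      · have := h1 0 rfl
        rwa [pr_zero_smul hw.1] at this
      · rw [eq_sum_12 hw.1, h1 1 rfl, h1 2 rfl, smul_zero, smul_zero, add_zero]
    rw [h2]; exact zero_mem _
  | succ n ih =>
    intro l ε w hw hfw
    -- decompose the components
    have hdec : ∀ i, side i = ε → ∃ q ∈ VP F DV DE (n + 1) (sh.tgt l i),
        ∃ d ∈ DV (n + 1) (sh.tgt l i), q + d = F.pr l i • w := by
      intro i hi
      have h2 := hw.2 i hi
      rw [VN_eq, Submodule.mem_sup] at h2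
      exact h2
    choose! q hq d hd hqd using hdec
    have hd0 : ∀ i, side i = ε → d i = 0 := by
      refine H.c23 (n + 1) l ε w d q hw.1 hd hq ?_ hfw
      intro i hi
      rw [← hqd i hi, add_comm]
    have hmem : ∀ i, side i = ε → F.pr l i • w ∈ VP F DV DE (n + 1) (sh.tgt l i) := by
      intro i hi
      rw [← hqd i hi, hd0 i hi, add_zero]
      exact hq i hi
    have hkey : ∀ i, side i = ε → ∃ y ∈ UN F DV DE (n + 1) l,
        f w - f y ∈ low F (G.V n) l (side i) ∧
        F.pr l i • w - F.pr l i • y ∈ VN F DV DE n (sh.tgt l i) := by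
      intro i hi
      refine H.key n ih l i (F.pr l i • w) (f w) (hmem i hi) hfw ?_
      rw [map_smul, sub_self]; exact zero_mem _
    -- reference slot
    obtain ⟨i0, hi0⟩ : ∃ i0 : Fin 3, side i0 = ε := by
      cases ε
      · exact ⟨0, rfl⟩
      · exact ⟨1, rfl⟩
    obtain ⟨y0, hy0, hfy0, -⟩ := hkey i0 hi0
    have hmain : w - y0 ∈ low F (VN F DV DE n) l ε := by
      refine ⟨?_, fun i hi => ?_⟩
      · rw [smul_sub, hw.1, UN_e H.hDE _ _ hy0]
      · obtain ⟨y, hy, hfy, hpy⟩ := hkey i hi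
        have h1 : f (y - y0) ∈ low F (G.V n) l ε := by
          rw [hi] at hfy
          rw [hi0] at hfy0
          have := sub_mem hfy0 hfy
          rw [map_sub]
          convert this using 1
          abel
        have h2 := H.xy n ih l ε (y - y0) (sub_mem hy hy0) h1
        have h3 := h2.2 i hi
        have h4 := add_mem hpy h3
        convert h4 using 1
        rw [smul_sub, smul_sub]; abel
    have := add_mem (low_le_UN n l ε hmain) hy0
    rwa [sub_add_cancel] at this

/-- Strictness: the map reflects the filtration. -/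
theorem StrictHyp.reflect_succ (H : StrictHyp G f DV DE) (n : ℕ) (b : B) (w : N)
    (hw : w ∈ VN F DV DE (n + 1) b) (hfw : f w ∈ G.V n b) : w ∈ VN F DV DE n b := by
  rw [VN_eq, Submodule.mem_sup] at hw
  obtain ⟨q, hq, d, hd, rfl⟩ := hw
  have hd0 : d = 0 := by
    refine H.c1 (n + 1) b d q hd hq ?_
    change f (d + q) ∈ G.V n b
    rwa [add_comm d q]
  subst hd0
  rw [add_zero] at hfw ⊢
  obtain ⟨w0, hw0, x, hx1, hx2, rfl⟩ := hq
  refine add_mem hw0 ?_
  have key := G.indep n b (x.mapRange f (map_zero f)) ?_ ?_ ?_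
  · rw [prSum_apply]
    refine sum_mem fun s hs => ?_
    have ks := key s
    rw [Finsupp.mapRange_apply] at ks
    have h5 := H.xy n (H.pq n) s.1 (side s.2) (x s) (hx1 s) ks
    have h6 := h5.2 s.2 rfl
    rw [← hx2 s (Finsupp.mem_support_iff.mp hs)]
    exact h6
  · intro s
    rw [Finsupp.mapRange_apply]
    exact H.f_UN (n + 1) s.1 (hx1 s)
  · intro s hs
    apply hx2 s
    intro h
    apply hs
    rw [Finsupp.mapRange_apply, h, map_zero]
  · rw [← map_prSum]
    rw [map_add] at hfw
    have := sub_mem hfw (H.f_VN n _ _ hw0)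
    rwa [add_sub_cancel_left] at this

theorem StrictHyp.reflect (H : StrictHyp G f DV DE) (m n : ℕ) (b : B) (w : N)
    (hw : w ∈ VN F DV DE n b) (hfw : f w ∈ G.V m b) : w ∈ VN F DV DE m b := by
  rcases le_total n m with h | h
  · exact VN_mono h b hw
  · have mono : ∀ j, m ≤ j → f w ∈ G.V j b := by
      intro j hj
      induction hj with
      | refl => exact hfw
      | step _ ih => exact G.mono _ _ _ ih
    obtain ⟨j, rfl⟩ := Nat.exists_eq_add_of_le h
    clear h
    induction j with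
    | zero => exact hw
    | succ j ih =>
      exact ih (H.reflect_succ (m + j) b w hw (mono _ (by omega)))

theorem StrictHyp.inj_of_mem (H : StrictHyp G f DV DE) (n : ℕ) (b : B) (w : N)
    (hw : w ∈ VN F DV DE n b) (hfw : f w = 0) : w = 0 := by
  have h0 : w ∈ VN F DV DE 0 b := by
    apply H.reflect 0 n b w hw
    rw [hfw]; exact zero_mem _
  refine H.c1 0 b w 0 h0 (zero_mem _) ?_
  rw [add_zero, hfw]; exact zero_mem _

end Main

end Pool.Agent.Lib_helper8.Berg
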