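import Pool.Agent.Lib_helper8.Berg.StarMod

/-!
The two main theorems: idempotent matrices over the algebra are diagonalisable, and the
idempotents attached to different elements are not equivalent.
-/

set_option linter.unusedSectionVars false

namespace Pool.Agent.Lib_helper8.Berg

universe u v

section

variable {M : Type u} [AddCommMonoid M] (hM : ∀ x y : M, x + y = 0 → x = 0)
variable (k : Type v) [Field k]

open scoped Classical

/-- Projection to the coordinates satisfying `P`. -/
noncomputable def proj {R : Type*} [Ring R] (P : ℕ → Prop) : (ℕ →₀ R) →ₗ[R] (ℕ →₀ R) :=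
  Finsupp.linearCombination R (fun j => if P j then Finsupp.single j (1 : R) else 0)

theorem proj_apply {R : Type*} [Ring R] (P : ℕ → Prop) (w : ℕ →₀ R) (j : ℕ) :
    proj P w j = if P j then w j else 0 := by
  rw [proj, Finsupp.linearCombination_apply, Finsupp.sum, Finsupp.finsetSum_apply]
  rw [Finset.sum_eq_single j]
  · split_ifs with h
    · simp
    · simp
  · intro i _ hij
    split_ifs with h
    · rw [Finsupp.smul_single, Finsupp.single_eq_of_ne (Ne.symm hij)]
    · simp
  · intro h
    rw [Finsupp.notMem_support_iff] at h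
    rw [h]; simp

theorem proj_sp {R : Type*} [Ring R] {B L : Type*} {sh : Shape B L} {F : Frame sh R}
    {b : ℕ → Option B} (P : ℕ → Prop) {w : ℕ →₀ R} (hw : w ∈ sp F b) : proj P w ∈ sp F b := by
  intro j
  rw [proj_apply]
  split_ifs
  · exact hw j
  · rw [zero_mul]

theorem Phi_proj {R : Type*} [Ring R] {M : Type*} [AddCommGroup M] [Module R M] (m : ℕ → M)
    (w : ℕ →₀ R) : Phi m (proj (fun j => m j ≠ 0) w) = Phi m w := by
  rw [proj, Finsupp.linearCombination_apply, Finsupp.sum, map_sum, Phi_apply, Finsupp.sum]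
  refine Finset.sum_congr rfl fun j _ => ?_
  rw [map_smul]
  congr 1
  split_ifs with h
  · rw [Phi_single, one_smul]
  · rw [map_zero]
    push Not at h
    exact h.symm

/-- All idempotents of objects are nonzero. -/
theorem e_ne_zero (β : Ob M) : (algFrame hM k).e β ≠ 0 := by
  obtain ⟨m, h1, -, h3, -⟩ := exists_model hM k (fun _ => some β)
  intro h
  apply h3 0 β rfl
  have := h1 0
  rw [Frame.eo_some, h, zero_smul] at this
  exact this.symm

include hM in
theorem E_ne_zero {x : M} (hx : x ≠ 0) : E k x ≠ 0 := e_ne_zero hM k (Ob.p x hx)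

/-- Idempotent matrices are diagonalisable. -/
theorem exists_diag {n : ℕ} (e : Matrix (Fin n) (Fin n) (Alg k M)) (he : e * e = e) :
    ∃ (J : Type) (_ : Fintype J) (_ : DecidableEq J) (b : J → Ob M)
      (X : Matrix (Fin n) J (Alg k M)) (Y : Matrix J (Fin n) (Alg k M)),
      X * Y = e ∧ Y * X = Matrix.diagonal (fun j => (algFrame hM k).e (b j)) := by
  let F := algFrame hM k
  let g : ℕ → Option (Ob M) := fun j => if j < n then some Ob.star else none
  obtain ⟨m0, h1, h2, -, h4, -⟩ := exists_model hM k g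
  have C : Conn k F Ob.star := algConn hM k
  have hinj : ∀ w : ℕ →₀ Alg k M, w ∈ sp F g → Phi m0 w = 0 → w = 0 :=
    fun w hw h0 => C.inj_init (wmFil hM k g) g m0 h2 h4 hw h0
  have hinj' : ∀ w w' : ℕ →₀ Alg k M, w ∈ sp F g → w' ∈ sp F g → Phi m0 w = Phi m0 w' →
      w = w' := by
    intro w w' hw hw' h
    rw [← sub_eq_zero]
    refine hinj _ (sub_mem hw hw') ?_
    rw [map_sub, h, sub_self]
  -- rows
  let row : ℕ → (ℕ →₀ Alg k M) := fun i =>
    if h : i < n then ∑ i' : Fin n, Finsupp.single (i' : ℕ) (e ⟨i, h⟩ i') else 0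
  have row_apply : ∀ (i i' : Fin n), row i i' = e i i' := by
    intro i i'
    simp only [row]
    rw [dif_pos i.2, Finsupp.finsetSum_apply, Finset.sum_eq_single i']
    · simp
    · intro j _ hj
      rw [Finsupp.single_eq_of_ne]
      intro h
      exact hj (Fin.ext h.symm)
    · intro h; exact absurd (Finset.mem_univ _) h
  have row_sp : ∀ i, row i ∈ sp F g := by
    intro i
    simp only [row]
    split_ifs with h
    · refine sum_mem fun i' _ => ?_
      intro j
      rw [Finsupp.single_apply]
      split_ifs with h'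
      · subst h'
        simp only [g]
        rw [if_pos i'.2, Frame.eo_some]
        exact mul_one _
      · rw [zero_mul]
    · exact zero_mem _
  have sp_supp : ∀ w ∈ sp F g, ∀ j, n ≤ j → w j = 0 := by
    intro w hw j hj
    have := hw j
    simp only [g] at this
    rw [if_neg (by omega), Frame.eo_none, mul_zero] at this
    exact this.symm
  have sp_ext : ∀ w w' : ℕ →₀ Alg k M, w ∈ sp F g → w' ∈ sp F g →
      (∀ i : Fin n, w i = w' i) → w = w' := by
    intro w w' hw hw' h
    ext j
    by_cases hj : j < n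
    · exact h ⟨j, hj⟩
    · rw [sp_supp w hw j (by omega), sp_supp w' hw' j (by omega)]
  -- the operator of right multiplication by `e`
  let Eop : (ℕ →₀ Alg k M) →ₗ[Alg k M] (ℕ →₀ Alg k M) := Finsupp.linearCombination _ row
  have Eop_sp : ∀ w, Eop w ∈ sp F g := by
    intro w
    simp only [Eop]
    rw [Finsupp.linearCombination_apply]
    exact sum_mem fun j _ => Submodule.smul_mem _ _ (row_sp j)
  have sum_fin : ∀ {X : Type (max u v)} [AddCommMonoid X] (w : ℕ →₀ Alg k M) (_ : w ∈ sp F g)
      (f : ℕ → Alg k M → X) (_ : ∀ j, f j 0 = 0), w.sum f = ∑ i : Fin n, f i (w i) := by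
    intro X _ w hw f hf
    rw [Finsupp.sum, Finset.sum_subset (s₂ := Finset.range n)]
    · rw [Finset.sum_range]
    · intro j hj
      rw [Finset.mem_range]
      by_contra h
      rw [Finsupp.mem_support_iff] at hj
      exact hj (sp_supp w hw j (by omega))
    · intro j _ hj
      rw [Finsupp.notMem_support_iff] at hj
      rw [hj, hf]
  have Eop_sum : ∀ w ∈ sp F g, Eop w = ∑ i : Fin n, w i • row i := by
    intro w hw
    simp only [Eop]
    rw [Finsupp.linearCombination_apply, sum_fin w hw _ (by simp)]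
  have Eop_apply : ∀ w ∈ sp F g, ∀ i' : Fin n, Eop w i' = ∑ i : Fin n, w i * e i i' := by
    intro w hw i'
    simp only [Eop]
    rw [Finsupp.linearCombination_apply, sum_fin w hw _ (by simp), Finsupp.finsetSum_apply]
    refine Finset.sum_congr rfl fun i _ => ?_
    rw [Finsupp.smul_apply, row_apply, smul_eq_mul]
  have Eop_row : ∀ i : Fin n, Eop (row i) = row i := by
    intro i
    refine sp_ext _ _ (Eop_sp _) (row_sp _) fun i' => ?_
    rw [Eop_apply _ (row_sp _), row_apply]
    have := congrFun (congrFun he i) i'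
    rw [Matrix.mul_apply] at this
    rw [← this]
    refine Finset.sum_congr rfl fun j _ => ?_
    rw [row_apply]
  have Eop_idem : ∀ w ∈ sp F g, Eop (Eop w) = Eop w := by
    intro w hw
    rw [Eop_sum w hw, map_sum]
    refine Finset.sum_congr rfl fun i _ => ?_
    rw [map_smul, Eop_row]
  -- the family
  let x : Fam F (WM hM k g) :=
    { b := g
      m := fun i => Phi m0 (row i)
      bound := n
      hb := by
        intro j hj
        simp only [g]
        rw [if_neg (by omega)]
      hm := by
        intro j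
        by_cases hj : j < n
        · simp only [g]
          rw [if_pos hj, Frame.eo_some]
          change (1 : Alg k M) • _ = _
          rw [one_smul]
        · have : row j = 0 := by simp only [row]; rw [dif_neg hj]
          rw [this, map_zero, smul_zero] }
  have hx : ∀ w ∈ sp F g, Phi x.m w = Phi m0 (Eop w) := by
    intro w hw
    simp only [Eop]
    rw [Phi_apply, Finsupp.linearCombination_apply, Finsupp.sum, Finsupp.sum, map_sum]
    refine Finset.sum_congr rfl fun j _ => ?_
    rw [map_smul]
  have hτ : ∀ l, (fun _ : Ob M => (0 : ℕ)) ((shM hM).v l)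
      = (fun _ : Ob M => (0 : ℕ)) ((shM hM).a l) + (fun _ : Ob M => (0 : ℕ)) ((shM hM).b l) :=
    fun l => rfl
  obtain ⟨y, ⟨⟨θ, θ', t1, t2⟩, -⟩, H⟩ := exists_strict (τ := fun _ : Ob M => (0 : ℕ)) hτ
    (wmFil hM k g) x
  have hyinj : ∀ w w' : ℕ →₀ Alg k M, w ∈ sp F y.b → w' ∈ sp F y.b →
      (∀ j, w j ≠ 0 → y.m j ≠ 0) → (∀ j, w' j ≠ 0 → y.m j ≠ 0) →
      Phi y.m w = Phi y.m w' → w = w' := by
    intro w w' hw hw' hs hs' h
    rw [← sub_eq_zero]
    refine C.inj_strict H (sub_mem hw hw') ?_ ?_
    · intro j hj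
      by_contra hy
      apply hj
      have a1 : w j = 0 := by by_contra h'; exact hs j h' hy
      have a2 : w' j = 0 := by by_contra h'; exact hs' j h' hy
      rw [Finsupp.sub_apply, a1, a2, sub_zero]
    · rw [map_sub, h, sub_self]
  -- index type
  let J : Type := {j : Fin y.bound // y.m j ≠ 0}
  have hJb : ∀ j : J, ∃ β, y.b j.1 = some β := by
    intro j
    cases hb : y.b j.1 with
    | none => exact absurd (y.m_eq_zero hb) j.2
    | some β => exact ⟨β, rfl⟩
  choose bJ hbJ using hJb
  let pj : (ℕ →₀ Alg k M) →ₗ[Alg k M] (ℕ →₀ Alg k M) := proj (fun j => y.m j ≠ 0)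
  have pj_supp : ∀ w j, pj w j ≠ 0 → y.m j ≠ 0 := by
    intro w j hj
    simp only [pj, proj_apply] at hj
    split_ifs at hj with h
    · exact h
    · exact absurd rfl hj
  have pj_apply : ∀ w (j : J), pj w j.1 = w j.1 := by
    intro w j
    simp only [pj, proj_apply]
    rw [if_pos j.2]
  -- expansion of `pj w` for `w` in the free module
  have pj_expand : ∀ w ∈ sp F y.b, pj w = ∑ j : J, w j.1 • Finsupp.single (j.1 : ℕ) (F.e (bJ j)) := by
    intro w hw
    ext i
    rw [Finsupp.finsetSum_apply]
    by_cases hi : y.m i ≠ 0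
    · have hib : i < y.bound := by
        by_contra h
        exact hi (y.m_eq_zero' (not_lt.mp h))
      rw [Finset.sum_eq_single (⟨⟨i, hib⟩, hi⟩ : J)]
      · rw [Finsupp.smul_single, Finsupp.single_eq_same, smul_eq_mul]
        have h5 := hw i
        have h6 := hbJ (⟨⟨i, hib⟩, hi⟩ : J)
        change y.b i = _ at h6
        rw [h6, Frame.eo_some] at h5
        rw [h5]
        exact pj_apply w (⟨⟨i, hib⟩, hi⟩ : J)
      · intro j _ hj
        rw [Finsupp.smul_single, Finsupp.single_eq_of_ne]
        intro h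
        apply hj
        apply Subtype.ext
        apply Fin.ext
        exact h.symm
      · intro h; exact absurd (Finset.mem_univ _) h
    · have h5 : pj w i = 0 := by
        simp only [pj, proj_apply]
        rw [if_neg hi]
      rw [h5]
      symm
      refine Finset.sum_eq_zero fun j _ => ?_
      rw [Finsupp.smul_single, Finsupp.single_eq_of_ne]
      rintro rfl
      exact hi j.2
  let δ : J → (ℕ →₀ Alg k M) := fun j => Finsupp.single (j.1 : ℕ) (F.e (bJ j))
  have δ_sp : ∀ j, δ j ∈ sp F y.b := by
    intro j i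
    simp only [δ]
    rw [Finsupp.single_apply]
    split_ifs with h
    · subst h
      rw [hbJ j, Frame.eo_some, F.e_mul_e]
    · rw [zero_mul]
  have δ_supp : ∀ (j : J) i, δ j i ≠ 0 → y.m i ≠ 0 := by
    intro j i hi
    simp only [δ] at hi
    rw [Finsupp.single_apply] at hi
    split_ifs at hi with h
    · rw [← h]; exact j.2
    · exact absurd rfl hi
  refine ⟨J, inferInstance, inferInstance, bJ, Matrix.of fun i j => (θ (row i)) j.1,
    Matrix.of fun j i => (Eop (θ' (δ j))) i, ?_, ?_⟩
  · ext i i''
    rw [Matrix.mul_apply]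
    simp only [Matrix.of_apply]
    have key : Eop (θ' (pj (θ (row i)))) = row i := by
      refine hinj' _ _ (Eop_sp _) (row_sp _) ?_
      have a1 := (t1 (row i) (row_sp i))
      have a2 := t2 _ (proj_sp (fun j => y.m j ≠ 0) a1.1)
      change θ' (pj (θ (row i))) ∈ sp F g ∧ _ at a2
      rw [← hx _ a2.1]
      have a3 := a2.2.2
      change Phi x.m (θ' (pj (θ (row i)))) = Phi y.m (pj (θ (row i))) at a3
      rw [a3]
      simp only [pj]
      rw [Phi_proj, a1.2.2, hx _ (row_sp i), Eop_row]
    have key2 : Eop (θ' (pj (θ (row i)))) (i'' : ℕ) = row i (i'' : ℕ) := by rw [key]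
    rw [row_apply] at key2
    rw [← key2, pj_expand _ (t1 (row i) (row_sp i)).1, map_sum, map_sum, Finsupp.finsetSum_apply]
    refine Finset.sum_congr rfl fun j _ => ?_
    rw [map_smul, map_smul, Finsupp.smul_apply, smul_eq_mul]
  · ext j j'
    rw [Matrix.mul_apply]
    simp only [Matrix.of_apply]
    have b1 := t2 (δ j) (δ_sp j)
    change θ' (δ j) ∈ sp F g ∧ _ at b1
    have key : pj (θ (Eop (θ' (δ j)))) = δ j := by
      have b2 := t1 (Eop (θ' (δ j))) (Eop_sp _)
      refine hyinj _ _ (proj_sp _ b2.1) (δ_sp j) (pj_supp _) (δ_supp j) ?_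
      simp only [pj]
      rw [Phi_proj, b2.2.2]
      rw [hx _ (Eop_sp _), Eop_idem _ b1.1, ← hx _ b1.1]
      exact b1.2.2
    have key2 : pj (θ (Eop (θ' (δ j)))) (j'.1 : ℕ) = δ j (j'.1 : ℕ) := by rw [key]
    rw [pj_apply] at key2
    have e1 : ∑ i : Fin n, (Eop (θ' (δ j))) i * (θ (row i)) j'.1
        = (θ (Eop (Eop (θ' (δ j))))) j'.1 := by
      rw [Eop_sum _ (Eop_sp (θ' (δ j))), map_sum, Finsupp.finsetSum_apply]
      refine Finset.sum_congr rfl fun i _ => ?_
      rw [map_smul, Finsupp.smul_apply, smul_eq_mul]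
    rw [e1, Eop_idem _ b1.1, key2]
    simp only [δ]
    rw [Matrix.diagonal_apply, Finsupp.single_apply]
    by_cases h : j = j'
    · subst h; rw [if_pos rfl, if_pos rfl]
    · rw [if_neg h, if_neg]
      intro h'
      apply h
      apply Subtype.ext
      apply Fin.ext
      exact h'

/-- The class function on objects. -/
def clsOb : Ob M → WithTop M
  | Ob.star => ⊤
  | Ob.p x _ => (x : WithTop M)
  | Ob.q _ _ => ⊤

theorem clsOb_rel (l : Ed M) : clsOb ((shM hM).v l) = clsOb ((shM hM).a l) + clsOb ((shM hM).b l) := by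
  cases l with
  | t x hx => exact (WithTop.add_top _).symm
  | s x y hx hy => exact WithTop.coe_add x y

include hM in
/-- The idempotents of different elements are not equivalent. -/
theorem E_inj {x y : M} (u v : Alg k M) (huv : u * v = E k x) (hvu : v * u = E k y) : x = y := by
  by_cases hx : x = 0
  · by_contra hxy
    have hy : y ≠ 0 := by rw [hx] at hxy; exact Ne.symm hxy
    apply E_ne_zero hM k hy
    have h0 : E k x = 0 := by rw [hx]; exact Alg.e0
    rw [← E_mul_E, ← hvu]
    calc v * u * (v * u) = v * (u * v) * u := by simp only [mul_assoc]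
      _ = 0 := by rw [huv, h0, mul_zero, zero_mul]
  by_cases hy : y = 0
  · exfalso
    apply E_ne_zero hM k hx
    have h0 : E k y = 0 := by rw [hy]; exact Alg.e0
    rw [← E_mul_E, ← huv]
    calc u * v * (u * v) = u * (v * u) * v := by simp only [mul_assoc]
      _ = 0 := by rw [hvu, h0, mul_zero, zero_mul]
  let F := algFrame hM k
  have C : Conn k F Ob.star := algConn hM k
  let g : ℕ → Option (Ob M) := fun j => if j = 0 then some (Ob.p y hy) else none
  obtain ⟨m0, h1, h2, h3, h4, h5⟩ := exists_model hM k g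
  have hinj : ∀ w : ℕ →₀ Alg k M, w ∈ sp F g → Phi m0 w = 0 → w = 0 :=
    fun w hw h0 => C.inj_init (wmFil hM k g) g m0 h2 h4 hw h0
  have hg0 : g 0 = some (Ob.p y hy) := if_pos rfl
  have hgj : ∀ j β, g j = some β → j = 0 := by
    intro j β h
    by_contra hj
    simp only [g] at h
    rw [if_neg hj] at h
    exact absurd h (by simp)
  set m00 := m0 0 with hm00
  have hEm : E k y • m00 = m00 := by
    have := h1 0
    rw [hg0, Frame.eo_some] at this
    exact this
  have hm00V : m00 ∈ (wmFil hM k g).V 0 (Ob.p y hy) := h2 0 _ hg0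
  have hm00ne : m00 ≠ 0 := h3 0 _ hg0
  -- normalised isomorphism
  let u' := u * E k y
  let v' := v * E k x
  have hEu : E k x * u = u * E k y := by rw [← huv, ← hvu, mul_assoc]
  have hEv : E k y * v = v * E k x := by rw [← huv, ← hvu, mul_assoc]
  have hxu' : E k x * u' = u' := by
    simp only [u']
    rw [← mul_assoc, hEu, mul_assoc, E_mul_E]
  have hu'y : u' * E k y = u' := by simp only [u']; rw [mul_assoc, E_mul_E]
  have hyv' : E k y * v' = v' := by
    simp only [v']
    rw [← mul_assoc, hEv, mul_assoc, E_mul_E]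
  have hv'x : v' * E k x = v' := by simp only [v']; rw [mul_assoc, E_mul_E]
  have hv'u' : v' * u' = E k y := by
    simp only [u', v']
    rw [mul_assoc, ← mul_assoc (E k x), hEu, mul_assoc u, E_mul_E, ← mul_assoc, hvu, E_mul_E]
  have hu'v' : u' * v' = E k x := by
    simp only [u', v']
    rw [mul_assoc, ← mul_assoc (E k y), hEv, mul_assoc v, E_mul_E, ← mul_assoc, huv, E_mul_E]
  -- the family
  let X : Fam F (WM hM k g) :=
    { b := fun j => if j = 0 then some (Ob.p x hx) else none
      m := fun j => if j = 0 then u' • m00 else 0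
      bound := 1
      hb := by
        intro j hj
        rw [if_neg (by omega)]
      hm := by
        intro j
        by_cases hj : j = 0
        · rw [if_pos hj, if_pos hj, Frame.eo_some]
          change E k x • u' • m00 = u' • m00
          rw [smul_smul, hxu']
        · rw [if_neg hj, if_neg hj, smul_zero] }
  have hXb0 : X.b 0 = some (Ob.p x hx) := rfl
  have hXbj : ∀ j, j ≠ 0 → X.b j = none := fun j hj => if_neg hj
  have hXsp : ∀ w ∈ sp F X.b, ∀ j, j ≠ 0 → w j = 0 := by
    intro w hw j hj
    have := hw j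
    rw [hXbj j hj, Frame.eo_none, mul_zero] at this
    exact this.symm
  have hPX : ∀ w ∈ sp F X.b, Phi X.m w = (w 0 * u') • m00 := by
    intro w hw
    have e1 : w = Finsupp.single 0 (w 0) := by
      ext j
      by_cases hj : j = 0
      · rw [hj, Finsupp.single_eq_same]
      · rw [hXsp w hw j hj, Finsupp.single_eq_of_ne hj]
    conv_lhs => rw [e1]
    rw [Phi_single]
    change w 0 • u' • m00 = _
    rw [smul_smul]
  obtain ⟨Y, ⟨⟨θ, θ', t1, t2⟩, hcls⟩, H⟩ := exists_strict (τ := clsOb) (clsOb_rel hM)
    (wmFil hM k g) X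
  -- the element over `m00`
  let s0 : ℕ →₀ Alg k M := Finsupp.single 0 v'
  have hs0 : s0 ∈ sp F X.b := by
    intro j
    by_cases hj : j = 0
    · rw [hj, hXb0, Frame.eo_some]
      simp only [s0]
      rw [Finsupp.single_eq_same]
      exact hv'x
    · simp only [s0]
      rw [Finsupp.single_eq_of_ne hj, zero_mul]
  have hPs0 : Phi X.m s0 = m00 := by
    rw [hPX s0 hs0]
    simp only [s0]
    rw [Finsupp.single_eq_same, hv'u', hEm]
  let w : ℕ →₀ Alg k M := proj (fun j => Y.m j ≠ 0) (θ s0)
  have hw : w ∈ sp F Y.b := proj_sp _ (t1 s0 hs0).1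
  have hwsupp : ∀ j, w j ≠ 0 → Y.m j ≠ 0 := by
    intro j hj
    simp only [w, proj_apply] at hj
    split_ifs at hj with h
    · exact h
    · exact absurd rfl hj
  have hPw : Phi Y.m w = m00 := by
    simp only [w]
    rw [Phi_proj, (t1 s0 hs0).2.2, hPs0]
  have hyw : F.e (Ob.p y hy) • w = w := by
    simp only [w]
    rw [← map_smul, ← map_smul]
    congr 2
    simp only [s0]
    rw [Finsupp.smul_single, smul_eq_mul]
    congr 1
  have hwDV := C.reflect_zero H hw hwsupp hyw (by rw [hPw]; exact hm00V)
  obtain ⟨c, c1, c2⟩ := hwDV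
  have hw0 : w ≠ 0 := by
    intro h
    apply hm00ne
    rw [← hPw, h, map_zero]
  obtain ⟨j0, hj0⟩ := exists_coeff_ne_zero c c2 hw0
  obtain ⟨hmj0, hlj0, hbj0⟩ := c1 j0 hj0
  -- `Y.m j0` is a scalar multiple of `m00`
  have hVj0 : Y.m j0 ∈ (wmFil hM k g).V 0 (Ob.p y hy) := by
    have hsp := lev_spec (wmFil hM k g) (Y.hm j0) hmj0
    rw [hlj0] at hsp
    rcases hsp with ⟨i, β, e1, e2, e3⟩ | ⟨i, l, e1, e2, e3⟩
    · have : i = 0 := by omega
      subst this
      rw [hbj0] at e2
      rw [Option.some.inj e2]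
      exact e3
    · omega
  obtain ⟨a, ha⟩ : ∃ a : k, Y.m j0 = a • m00 := by
    obtain ⟨c', d1, d2⟩ := h5 _ _ hVj0
    refine ⟨c' 0, ?_⟩
    rw [d2, Finsupp.sum, Finset.sum_eq_single 0]
    · intro j hj hj'
      exact absurd (hgj j _ (d1 j (Finsupp.mem_support_iff.mp hj))) hj'
    · intro h
      rw [Finsupp.notMem_support_iff] at h
      rw [h, zero_smul]
  have ha0 : a ≠ 0 := by
    intro h
    rw [h, zero_smul] at ha
    exact hmj0 ha
  have hm00j0 : m00 = a⁻¹ • Y.m j0 := by
    rw [ha, smul_smul, inv_mul_cancel₀ ha0, one_smul]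
  -- unit vectors
  let δ : ℕ → (ℕ →₀ Alg k M) := fun j => Finsupp.single j (F.eo (Y.b j))
  have hδ : ∀ j, δ j ∈ sp F Y.b := fun j => single_mem_sp j
  have hPδ : ∀ j, Phi Y.m (δ j) = Y.m j := by
    intro j
    simp only [δ]
    rw [Phi_single, Y.hm j]
  have hYm : ∀ j, Y.m j = ((θ' (δ j)) 0 * u') • m00 := by
    intro j
    rw [← hPδ j, ← (t2 (δ j) (hδ j)).2.2, hPX _ (t2 (δ j) (hδ j)).1]
  -- only one nonzero element
  have honly : ∀ j, j ≠ j0 → Y.m j = 0 := by
    intro j hj
    by_contra hne
    set r := (θ' (δ j)) 0 * u' with hr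
    have e1 : Phi Y.m (δ j - (r * algebraMap k (Alg k M) a⁻¹) • δ j0) = 0 := by
      have e0 : (r * algebraMap k (Alg k M) a⁻¹) • Y.m j0 = r • m00 := by
        rw [mul_smul, algebraMap_smul, ← hm00j0]
      rw [map_sub, map_smul, hPδ, hPδ, e0, hYm j, ← hr, sub_self]
    have e2 : δ j - (r * algebraMap k (Alg k M) a⁻¹) • δ j0 = 0 := by
      refine C.inj_strict H (sub_mem (hδ j) (Submodule.smul_mem _ _ (hδ j0))) ?_ e1
      intro i hi
      rw [Finsupp.sub_apply, Finsupp.smul_apply] at hi
      simp only [δ] at hi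
      by_cases h6 : i = j
      · rw [h6]; exact hne
      · by_cases h7 : i = j0
        · rw [h7]; exact hmj0
        · rw [Finsupp.single_eq_of_ne h6, Finsupp.single_eq_of_ne h7, smul_zero, sub_zero] at hi
          exact absurd rfl hi
    have e3 := congrArg (fun f => f j) e2
    simp only [Finsupp.coe_zero, Pi.zero_apply] at e3
    rw [Finsupp.sub_apply, Finsupp.smul_apply] at e3
    simp only [δ] at e3
    rw [Finsupp.single_eq_same, Finsupp.single_eq_of_ne hj, smul_zero, sub_zero] at e3
    apply hne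
    rw [← Y.hm j, e3, zero_smul]
  -- the other objects are trivial
  have hnone : ∀ j, j ≠ j0 → Y.b j = none := by
    intro j hj
    have e1 := hYm j
    rw [honly j hj] at e1
    have hb := t2 (δ j) (hδ j)
    set t := (θ' (δ j)) 0 with ht
    have htx : t * E k x = t := hb.1 0
    have e2 : (Finsupp.single 0 (t * u') : ℕ →₀ Alg k M) = 0 := by
      refine hinj _ ?_ ?_
      · intro i
        by_cases hi : i = 0
        · rw [hi, hg0, Frame.eo_some, Finsupp.single_eq_same]
          change t * u' * E k y = t * u'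
          rw [mul_assoc, hu'y]
        · rw [Finsupp.single_eq_of_ne hi, zero_mul]
      · rw [Phi_single]; exact e1.symm
    have e3 : t * u' = 0 := by
      have := congrArg (fun f => f 0) e2
      simpa using this
    have e4 : t = 0 := by
      calc t = t * (u' * v') := by rw [hu'v', htx]
        _ = (t * u') * v' := (mul_assoc t u' v').symm
        _ = 0 := by rw [e3, zero_mul]
    have e5 : θ' (δ j) = 0 := by
      ext i
      by_cases hi : i = 0
      · rw [hi, ← ht, e4]; rfl
      · rw [hXsp _ hb.1 i hi]; rfl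
    have e6 : δ j = 0 := by
      rw [← hb.2.1, e5, map_zero]
    have e7 : F.eo (Y.b j) = 0 := by
      have := congrArg (fun f => f j) e6
      simpa [δ] using this
    cases hbj : Y.b j with
    | none => rfl
    | some β =>
      rw [hbj, Frame.eo_some] at e7
      exact absurd e7 (e_ne_zero hM k β)
  -- compare classes
  have hclsX : X.cls clsOb = (x : WithTop M) := by
    unfold Fam.cls
    change ∑ j ∈ Finset.range 1, tau clsOb (X.b j) = _
    rw [Finset.sum_range_one, hXb0]
    rfl
  have hclsY : Y.cls clsOb = (y : WithTop M) := by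
    unfold Fam.cls
    rw [Finset.sum_eq_single j0]
    · rw [hbj0]; rfl
    · intro j _ hj
      rw [hnone j hj]; rfl
    · intro h
      exact absurd (Finset.mem_range.mpr (Y.lt_bound hbj0)) h
  rw [hclsX, hclsY] at hcls
  exact WithTop.coe_injective hcls

end

end Pool.Agent.Lib_helper8.Berg
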