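import Pool.Agent.Lib_helper8.Berg.Moves

/-!
Levels, the measure, and strictness of measure-minimal families.
-/

set_option linter.unusedSectionVars false

namespace Pool.Agent.Lib_helper8.Berg

universe u1 u2 u3 u4 u5 u6

variable {B : Type u1} {L : Type u2} {sh : Shape B L}
variable {k : Type u3} [Field k] {R : Type u4} [Ring R] [Algebra k R]
variable {F : Frame sh R}
variable {M : Type u4} [AddCommGroup M] [Module k M] [Module R M] [IsScalarTower k R M]

/-- The predicate of having level at most a given value. -/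
def Lv (G : GoodFil k F M) (o : Option B) (m : M) (n : ℕ) : Prop :=
  (∃ i β, n = 2 * i + 1 ∧ o = some β ∧ m ∈ G.V i β) ∨
  (∃ i l, n = 2 * i ∧ o = some (sh.v l) ∧ m ∈ upp F (G.V i) l)

/-- The level of a typed element. -/
noncomputable def lev (G : GoodFil k F M) (o : Option B) (m : M) : ℕ := sInf {n | Lv G o m n}

open Classical in
/-- The weight of a typed element. -/
noncomputable def wt (G : GoodFil k F M) (o : Option B) (m : M) : ℕ :=
  if m = 0 then 0 else 3 ^ lev G o m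

theorem wt_zero (G : GoodFil k F M) (o : Option B) : wt G o 0 = 0 := by
  unfold wt; simp

theorem wt_le (G : GoodFil k F M) {o : Option B} {m : M} {n : ℕ} (h : Lv G o m n) :
    wt G o m ≤ 3 ^ n := by
  unfold wt
  split_ifs
  · exact Nat.zero_le _
  · exact Nat.pow_le_pow_right (by norm_num) (Nat.sInf_le h)

theorem wt_eq (G : GoodFil k F M) {o : Option B} {m : M} (h : m ≠ 0) :
    wt G o m = 3 ^ lev G o m := by
  unfold wt; rw [if_neg h]

theorem lev_spec (G : GoodFil k F M) {o : Option B} {m : M} (hm : F.eo o • m = m) (h : m ≠ 0) :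
    Lv G o m (lev G o m) := by
  have hne : {n | Lv G o m n}.Nonempty := by
    cases o with
    | none => rw [Frame.eo_none, zero_smul] at hm; exact absurd hm.symm h
    | some β =>
      obtain ⟨n, hn⟩ := G.exh β m hm
      exact ⟨2 * n + 1, Or.inl ⟨n, β, rfl, rfl, hn⟩⟩
  exact Nat.sInf_mem hne

theorem wt_lt_of_V (G : GoodFil k F M) {β : B} {m : M} {i n : ℕ} (h : m ∈ G.V i β)
    (hn : 2 * i + 1 < n) : wt G (some β) m < 3 ^ n :=
  lt_of_le_of_lt (wt_le G (Or.inl ⟨i, β, rfl, rfl, h⟩)) (Nat.pow_lt_pow_right (by norm_num) hn)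

/-- The measure of a family. -/
noncomputable def mu (G : GoodFil k F M) (x : Fam F M) : ℕ :=
  ∑ j ∈ Finset.range x.bound, wt G (x.b j) (x.m j)

/-- Vectors with scalar coordinates at the indices satisfying `P`. -/
def cf (k : Type u3) [Field k] [Algebra k R] (F : Frame sh R) (P : ℕ → Prop) (β : B) :
    Submodule k (ℕ →₀ R) where
  carrier := {d | ∃ c : ℕ →₀ k, (∀ j, c j ≠ 0 → P j) ∧ ∀ j, d j = c j • F.e β}
  add_mem' := by
    rintro d d' ⟨c, h1, h2⟩ ⟨c', h1', h2'⟩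
    refine ⟨c + c', fun j hj => ?_, fun j => ?_⟩
    · by_contra hP
      apply hj
      have a1 : c j = 0 := by by_contra h; exact hP (h1 j h)
      have a2 : c' j = 0 := by by_contra h; exact hP (h1' j h)
      rw [Finsupp.add_apply, a1, a2, add_zero]
    · rw [Finsupp.add_apply, h2, h2', Finsupp.add_apply, add_smul]
  zero_mem' := ⟨0, by simp, by simp⟩
  smul_mem' := by
    rintro a d ⟨c, h1, h2⟩
    refine ⟨a • c, fun j hj => h1 j ?_, fun j => ?_⟩
    · intro h
      apply hj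
      rw [Finsupp.smul_apply, h, smul_zero]
    · rw [Finsupp.smul_apply, h2, Finsupp.smul_apply, smul_assoc]

theorem cf_e {P : ℕ → Prop} {β : B} {d : ℕ →₀ R} (hd : d ∈ cf k F P β) : F.e β • d = d := by
  obtain ⟨c, -, h2⟩ := hd
  ext j
  rw [Finsupp.smul_apply, h2, smul_comm, smul_eq_mul, F.e_mul_e]

theorem cf_sp {P : ℕ → Prop} {β : B} {b : ℕ → Option B} (hP : ∀ j, P j → b j = some β)
    {d : ℕ →₀ R} (hd : d ∈ cf k F P β) : d ∈ sp F b := by
  obtain ⟨c, h1, h2⟩ := hd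
  intro j
  rw [h2]
  by_cases hc : c j = 0
  · rw [hc, zero_smul, zero_mul]
  · rw [hP j (h1 j hc), Frame.eo_some, smul_mul_assoc, F.e_mul_e]

theorem cf_Phi {P : ℕ → Prop} {β : B} {b : ℕ → Option B} (hP : ∀ j, P j → b j = some β)
    {m : ℕ → M} (hm : ∀ j, F.eo (b j) • m j = m j) {S : Submodule k M}
    (hS : ∀ j, P j → m j ∈ S) {d : ℕ →₀ R} (hd : d ∈ cf k F P β) : Phi m d ∈ S := by
  obtain ⟨c, h1, h2⟩ := hd
  rw [Phi_apply]
  refine sum_mem fun j _ => ?_
  change d j • m j ∈ S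
  rw [h2]
  by_cases hc : c j = 0
  · rw [hc, zero_smul, zero_smul]; exact zero_mem _
  · have hj := h1 j hc
    have := hm j
    rw [hP j hj, Frame.eo_some] at this
    rw [smul_assoc, this]
    exact Submodule.smul_mem _ _ (hS j hj)

variable (G : GoodFil k F M) (x : Fam F M)

/-- Generating vertex spaces of a family. -/
def DVx (n : ℕ) (β : B) : Submodule k (ℕ →₀ R) :=
  cf k F (fun j => x.m j ≠ 0 ∧ lev G (x.b j) (x.m j) = 2 * n + 1 ∧ x.b j = some β) β

/-- Generating edge spaces of a family. -/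
def DEx (n : ℕ) (l : L) : Submodule k (ℕ →₀ R) :=
  cf k F (fun j => x.m j ≠ 0 ∧ lev G (x.b j) (x.m j) = 2 * n ∧ x.b j = some (sh.v l) ∧
    x.m j ∈ upp F (G.V n) l) (sh.v l)

/-- Vectors supported on generators of level less than `n`. -/
def Zx (n : ℕ) : Submodule R (ℕ →₀ R) where
  carrier := {w | w ∈ sp F x.b ∧ ∀ j, w j ≠ 0 → x.m j ≠ 0 ∧ lev G (x.b j) (x.m j) < n}
  add_mem' := by
    rintro w w' ⟨h1, h2⟩ ⟨h1', h2'⟩
    refine ⟨add_mem h1 h1', fun j hj => ?_⟩
    by_contra hP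
    apply hj
    have a1 : w j = 0 := by by_contra h; exact hP (h2 j h)
    have a2 : w' j = 0 := by by_contra h; exact hP (h2' j h)
    rw [Finsupp.add_apply, a1, a2, add_zero]
  zero_mem' := ⟨zero_mem _, by simp⟩
  smul_mem' := by
    rintro a w ⟨h1, h2⟩
    refine ⟨Submodule.smul_mem _ _ h1, fun j hj => h2 j ?_⟩
    intro h
    apply hj
    rw [Finsupp.smul_apply, h, smul_zero]

variable {G x}

theorem Zx_mono {m n : ℕ} (h : m ≤ n) {w : ℕ →₀ R} (hw : w ∈ Zx G x m) : w ∈ Zx G x n :=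
  ⟨hw.1, fun j hj => ⟨(hw.2 j hj).1, lt_of_lt_of_le (hw.2 j hj).2 h⟩⟩

theorem Zx_apply_eq_zero {n : ℕ} {w : ℕ →₀ R} (hw : w ∈ Zx G x n) {j : ℕ}
    (hj : n ≤ lev G (x.b j) (x.m j)) : w j = 0 := by
  by_contra h
  have := (hw.2 j h).2
  omega

theorem DVx_Z {n : ℕ} {β : B} {d : ℕ →₀ R} (hd : d ∈ DVx G x n β) : d ∈ Zx G x (2 * n + 2) := by
  refine ⟨cf_sp (fun j hj => hj.2.2) hd, fun j hj => ?_⟩
  obtain ⟨c, h1, h2⟩ := hd
  rw [h2] at hj
  have hc : c j ≠ 0 := by
    intro h; rw [h, zero_smul] at hj; exact hj rfl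
  have := h1 j hc
  exact ⟨this.1, by omega⟩

theorem DEx_Z {n : ℕ} {l : L} {d : ℕ →₀ R} (hd : d ∈ DEx G x n l) : d ∈ Zx G x (2 * n + 1) := by
  refine ⟨cf_sp (fun j hj => hj.2.2.1) hd, fun j hj => ?_⟩
  obtain ⟨c, h1, h2⟩ := hd
  rw [h2] at hj
  have hc : c j ≠ 0 := by
    intro h; rw [h, zero_smul] at hj; exact hj rfl
  have := h1 j hc
  exact ⟨this.1, by omega⟩

theorem low_Z {V : B → Submodule k (ℕ →₀ R)} {n : ℕ} (hV : ∀ β w, w ∈ V β → w ∈ Zx G x n)
    {l : L} {ε : Bool} {w : ℕ →₀ R} (hw : w ∈ low F V l ε) : w ∈ Zx G x n := by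
  cases ε
  · have h0 := hw.2 0 rfl
    rw [pr_zero_smul hw.1] at h0
    exact hV _ _ h0
  · rw [eq_sum_12 hw.1]
    exact add_mem (Submodule.smul_mem _ _ (hV _ _ (hw.2 1 rfl)))
      (Submodule.smul_mem _ _ (hV _ _ (hw.2 2 rfl)))

theorem UN_Z_aux (n : ℕ) (hV : ∀ β w, w ∈ VN F (DVx G x) (DEx G x) n β → w ∈ Zx G x (2 * n + 2))
    {l : L} {w : ℕ →₀ R} (hw : w ∈ UN F (DVx G x) (DEx G x) (n + 1) l) :
    w ∈ Zx G x (2 * (n + 1) + 1) := by
  change w ∈ UNof F _ _ l at hw
  unfold UNof at hw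
  rw [Submodule.mem_sup] at hw
  obtain ⟨y, hy, z, hz, rfl⟩ := hw
  rw [Submodule.mem_sup] at hy
  obtain ⟨y1, hy1, y2, hy2, rfl⟩ := hy
  exact add_mem (add_mem (Zx_mono (by omega) (low_Z hV hy1)) (Zx_mono (by omega) (low_Z hV hy2)))
    (DEx_Z hz)

theorem VP_Z_aux (n : ℕ) (hV : ∀ β w, w ∈ VN F (DVx G x) (DEx G x) n β → w ∈ Zx G x (2 * n + 2))
    {β : B} {w : ℕ →₀ R} (hw : w ∈ VP F (DVx G x) (DEx G x) (n + 1) β) :
    w ∈ Zx G x (2 * (n + 1) + 1) := by
  obtain ⟨w0, hw0, y, hy1, hy2, rfl⟩ := hw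
  refine add_mem (Zx_mono (by omega) (hV _ _ hw0)) ?_
  rw [prSum_apply]
  exact sum_mem fun s _ => Submodule.smul_mem _ _ (UN_Z_aux n hV (hy1 s))

theorem VN_Z (n : ℕ) : ∀ β w, w ∈ VN F (DVx G x) (DEx G x) n β → w ∈ Zx G x (2 * n + 2) := by
  induction n with
  | zero =>
    intro β w hw
    exact DVx_Z hw
  | succ n ih =>
    intro β w hw
    rw [VN_eq, Submodule.mem_sup] at hw
    obtain ⟨y, hy, z, hz, rfl⟩ := hw
    exact add_mem (Zx_mono (by omega) (VP_Z_aux n ih hy)) (DVx_Z hz)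

theorem VP_Z (n : ℕ) {β : B} {w : ℕ →₀ R} (hw : w ∈ VP F (DVx G x) (DEx G x) n β) :
    w ∈ Zx G x (2 * n + 1) := by
  cases n with
  | zero =>
    have : w = 0 := by simpa [VP] using hw
    rw [this]; exact zero_mem _
  | succ n => exact VP_Z_aux n (VN_Z n) hw

theorem filHyp (G : GoodFil k F M) (x : Fam F M) :
    FilHyp G (Phi (R := R) x.m) (DVx G x) (DEx G x) where
  hDV n b w hw := cf_e hw
  hDE n l w hw := cf_e hw
  fDV n b w hw := by
    refine cf_Phi (b := x.b) (fun j hj => hj.2.2) x.hm (fun j hj => ?_) hw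
    have h1 := lev_spec G (x.hm j) hj.1
    rw [hj.2.1] at h1
    rcases h1 with ⟨i, β, h2, h3, h4⟩ | ⟨i, l, h2, h3, h4⟩
    · have : i = n := by omega
      subst this
      rw [hj.2.2] at h3
      rw [Option.some.inj h3]
      exact h4
    · omega
  fDE n l w hw := by
    refine cf_Phi (b := x.b) (fun j hj => hj.2.2.1) x.hm (fun j hj => ?_) hw
    exact hj.2.2.2

variable {T : Type u6} [AddCommMonoid T] {τ : B → T}

theorem mu_update_lt (x y : Fam F M) (i0 : ℕ) (hi : i0 < x.bound) (hb : y.b = x.b)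
    (hbd : y.bound = x.bound) (m' : M) (hm : y.m = Function.update x.m i0 m')
    (hlt : wt G (x.b i0) m' < wt G (x.b i0) (x.m i0)) : mu G y < mu G x := by
  classical
  unfold mu
  rw [hbd, hb, hm]
  refine Finset.sum_lt_sum (fun j _ => ?_) ⟨i0, Finset.mem_range.mpr hi, ?_⟩
  · by_cases hj : j = i0
    · subst hj; rw [Function.update_self]; exact hlt.le
    · rw [Function.update_of_ne hj]
  · rw [Function.update_self]; exact hlt

/-- In a minimal family a transvection cannot decrease the weight. -/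
theorem minT1 (hmin : ∀ y, Rel τ x y → mu G x ≤ mu G y) (i0 : ℕ) (β : B)
    (hi0 : x.b i0 = some β) (s : ℕ →₀ R)
    (hs : s ∈ sp F x.b) (hes : F.e β • s = s) (c : k) (hc : c ≠ 0)
    (hsi : s i0 = c • F.e β)
    (hlt : wt G (some β) (Phi x.m s) < wt G (some β) (x.m i0)) : False := by
  obtain ⟨y, h1, h2, h3, h4⟩ := exists_T1 τ x i0 β hi0 s hs hes c hc hsi
  have := mu_update_lt (G := G) x y i0 (x.lt_bound hi0) h2 h3 _ h4 (by rw [hi0]; exact hlt)
  exact absurd (hmin y h1) (not_le.mpr this)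

theorem exists_coeff_ne_zero {β : B} {d : ℕ →₀ R} (c : ℕ →₀ k)
    (h2 : ∀ j, d j = c j • F.e β) (hd : d ≠ 0) : ∃ j, c j ≠ 0 := by
  by_contra h
  push Not at h
  apply hd
  ext j
  rw [h2, h, zero_smul, Finsupp.zero_apply]

theorem min_c1 (hmin : ∀ y, Rel τ x y → mu G x ≤ mu G y) (n : ℕ) (b : B) (d w : ℕ →₀ R)
    (hd : d ∈ DVx G x n b) (hw : w ∈ VP F (DVx G x) (DEx G x) n b)
    (hf : Phi x.m (d + w) ∈ G.prev n b) : d = 0 := by
  by_contra hd0
  obtain ⟨c, h1, h2⟩ := id hd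
  obtain ⟨i0, hi0⟩ := exists_coeff_ne_zero c h2 hd0
  obtain ⟨hm0, hl0, hb0⟩ := h1 i0 hi0
  have hwi : w i0 = 0 := Zx_apply_eq_zero (VP_Z n hw) (by rw [hl0])
  refine minT1 hmin i0 b hb0 (d + w) (add_mem (DVx_Z hd).1 (VP_Z n hw).1) ?_ (c i0) hi0 ?_ ?_
  · rw [smul_add, cf_e hd]
    congr 1
    exact VN_e (F := F) (DV := DVx G x) (DE := DEx G x) (fun n b w hw => cf_e hw) n b
      (VP_le_VN n b hw)
  · rw [Finsupp.add_apply, h2, hwi, add_zero]
  · rw [wt_eq G hm0, ← hb0, hl0, hb0]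
    cases n with
    | zero =>
      have : Phi x.m (d + w) = 0 := by simpa [GoodFil.prev] using hf
      rw [this, wt_zero]
      positivity
    | succ n =>
      exact wt_lt_of_V G hf (by omega)

theorem min_c45 (hτ : ∀ l, τ (sh.v l) = τ (sh.a l) + τ (sh.b l))
    (hmin : ∀ y, Rel τ x y → mu G x ≤ mu G y) (n : ℕ) (l : L) (ε : Bool) (e p1 p2 : ℕ →₀ R)
    (he : e ∈ DEx G x (n + 1) l) (hp1 : p1 ∈ low F (VN F (DVx G x) (DEx G x) n) l false)
    (hp2 : p2 ∈ low F (VN F (DVx G x) (DEx G x) n) l true)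
    (hf : Phi x.m (e + p1 + p2) ∈ low F (G.V n) l ε) : e = 0 := by
  classical
  by_contra he0
  obtain ⟨c, h1, h2⟩ := id he
  obtain ⟨i0, hi0⟩ := exists_coeff_ne_zero c h2 he0
  obtain ⟨hm0, hl0, hb0, hu0⟩ := h1 i0 hi0
  have hz1 := low_Z (VN_Z n) hp1
  have hz2 := low_Z (VN_Z n) hp2
  have hp1i : p1 i0 = 0 := Zx_apply_eq_zero hz1 (by rw [hl0]; omega)
  have hp2i : p2 i0 = 0 := Zx_apply_eq_zero hz2 (by rw [hl0]; omega)
  have hs : e + p1 + p2 ∈ sp F x.b := add_mem (add_mem (DEx_Z he).1 hz1.1) hz2.1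
  have hes : F.e (sh.v l) • (e + p1 + p2) = e + p1 + p2 := by
    rw [smul_add, smul_add, cf_e he, hp1.1, hp2.1]
  have hsi : (e + p1 + p2) i0 = c i0 • F.e (sh.v l) := by
    rw [Finsupp.add_apply, Finsupp.add_apply, h2, hp1i, hp2i, add_zero, add_zero]
  have hwt : wt G (some (sh.v l)) (x.m i0) = 3 ^ (2 * (n + 1)) := by
    rw [wt_eq G hm0, ← hb0, hl0]
  cases ε
  · refine minT1 hmin i0 _ hb0 _ hs hes (c i0) hi0 hsi ?_
    rw [hwt]
    have h0 := hf.2 0 rfl
    rw [pr_zero_smul hf.1] at h0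
    exact wt_lt_of_V G h0 (by omega)
  · obtain ⟨y, hy1, hy2, hy3, hy4⟩ := exists_T1 τ x i0 _ hb0 _ hs hes (c i0) hi0 hsi
    obtain ⟨z, hz1', hz2', hz3', hz4'⟩ := exists_T2 τ hτ y l i0 (by rw [hy2, hb0])
    have hlt0 := x.lt_bound hb0
    have hne : i0 ≠ x.bound := hlt0.ne
    have hle := hmin z (hy1.trans τ hz1')
    have hzi : z.m i0 = F.pr l 1 • Phi x.m (e + p1 + p2) := by
      rw [hz4', hy3, Function.update_of_ne hne, Function.update_self, hy4, Function.update_self]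
    have hzj : z.m x.bound = F.pr l 2 • Phi x.m (e + p1 + p2) := by
      rw [hz4', hy3, Function.update_self, hy4, Function.update_self]
    have hzo : ∀ j, j ≠ i0 → j ≠ x.bound → z.m j = x.m j := by
      intro j h3 h4
      rw [hz4', hy3, Function.update_of_ne h4, Function.update_of_ne h3, hy4,
        Function.update_of_ne h3]
    have hbi : z.b i0 = some (sh.a l) := by
      rw [hz2', hy3, Function.update_of_ne hne, Function.update_self]
    have hbj : z.b x.bound = some (sh.b l) := by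
      rw [hz2', hy3, Function.update_self]
    have hbo : ∀ j, j ≠ i0 → j ≠ x.bound → z.b j = x.b j := by
      intro j h3 h4
      rw [hz2', hy3, Function.update_of_ne h4, Function.update_of_ne h3, hy2]
    have hmux : mu G x = 3 ^ (2 * (n + 1)) +
        ∑ j ∈ ((Finset.range (x.bound + 1)).erase i0).erase x.bound, wt G (x.b j) (x.m j) := by
      unfold mu
      have e1 : ((Finset.range (x.bound + 1)).erase i0).erase x.bound
          = (Finset.range x.bound).erase i0 := by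
        ext j
        simp only [Finset.mem_erase, Finset.mem_range]
        omega
      rw [e1, ← hwt, ← hb0]
      exact (Finset.add_sum_erase _ _ (Finset.mem_range.mpr hlt0)).symm
    have hmuz : mu G z = wt G (some (sh.a l)) (F.pr l 1 • Phi x.m (e + p1 + p2)) +
        (wt G (some (sh.b l)) (F.pr l 2 • Phi x.m (e + p1 + p2)) +
        ∑ j ∈ ((Finset.range (x.bound + 1)).erase i0).erase x.bound, wt G (x.b j) (x.m j)) := by
      unfold mu
      rw [hz3', hy3, sum_two (fun j => wt G (z.b j) (z.m j)) (i := i0) (j := x.bound)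
        (by omega) (by omega) hne, hbi, hzi, hbj, hzj]
      congr 2
      refine Finset.sum_congr rfl fun j hj => ?_
      rw [Finset.mem_erase, Finset.mem_erase] at hj
      rw [hbo j hj.2.1 hj.1, hzo j hj.2.1 hj.1]
    have b1 := wt_le G (Or.inl ⟨n, _, rfl, rfl, hf.2 1 rfl⟩ : Lv G (some (sh.a l)) _ (2 * n + 1))
    have b2 := wt_le G (Or.inl ⟨n, _, rfl, rfl, hf.2 2 rfl⟩ : Lv G (some (sh.b l)) _ (2 * n + 1))
    rw [hmux, hmuz] at hle
    have b3 : 3 ^ (2 * (n + 1)) = 3 * 3 ^ (2 * n + 1) := by ring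
    have b4 : 0 < 3 ^ (2 * n + 1) := by positivity
    omega

theorem Phi_update (m : ℕ → M) (i0 : ℕ) (v : M) (r : ℕ →₀ R) :
    Phi (R := R) (Function.update m i0 v) r = Phi m r + r i0 • (v - m i0) := by
  classical
  rw [Phi_apply, Phi_apply]
  have h2 : (r.sum fun j c => c • Function.update m i0 v j) - (r.sum fun j c => c • m j)
        = r i0 • (v - m i0) := by
    rw [← Finsupp.sum_sub, Finsupp.sum]
    rw [Finset.sum_eq_single i0]
    · rw [Function.update_self, smul_sub]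
    · intro j _ hj
      rw [Function.update_of_ne hj, sub_self]
    · intro h0
      rw [Finsupp.notMem_support_iff] at h0
      simp [h0]
  rw [← h2]; abel

/-- Step A: a nontrivial scalar dependency between the two components forces vanishing. -/
theorem min_dep (hmin : ∀ y, Rel τ x y → mu G x ≤ mu G y) (n : ℕ) (l : L) (w : ℕ →₀ R)
    (d q : Fin 3 → (ℕ →₀ R))
    (hd : ∀ i, side i = true → d i ∈ DVx G x n (sh.tgt l i))
    (hq : ∀ i, side i = true → q i ∈ VP F (DVx G x) (DEx G x) n (sh.tgt l i))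
    (hdq : ∀ i, side i = true → F.pr l i • w = d i + q i)
    (hf : Phi x.m w ∈ upp F (G.V n) l)
    (c1 c2 : k) (hc : c1 ≠ 0 ∨ c2 ≠ 0) (β : B) (hβ1 : c1 ≠ 0 → sh.a l = β)
    (hβ2 : c2 ≠ 0 → sh.b l = β) (qq : ℕ →₀ R) (hqq : qq ∈ VP F (DVx G x) (DEx G x) n β)
    (hdep : c1 • (F.pr l 1 • Phi x.m w) + c2 • (F.pr l 2 • Phi x.m w) - Phi x.m qq ∈ G.prev n β) :
    ∀ i, side i = true → d i = 0 := by
  classical
  have H := filHyp G x
  cases n with
  | zero =>
    intro i hi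
    have hu0 : Phi x.m w = 0 := G.zero l _ hf
    refine min_c1 hmin 0 _ (d i) (q i) (hd i hi) (hq i hi) ?_
    rw [← hdq i hi, map_smul, hu0, smul_zero]
    exact zero_mem _
  | succ n =>
    obtain ⟨w0, hw0, xx, hx1, hx2, rfl⟩ := hqq
    set u := Phi x.m w with hu
    have key := G.indep n β
      (Finsupp.single (l, 1) (c1 • u) + Finsupp.single (l, 2) (c2 • u)
        - xx.mapRange (Phi x.m) (map_zero _)) ?_ ?_ ?_
    · -- extract
      have hyy : ∃ yy ∈ UN F (DVx G x) (DEx G x) (n + 1) l, u - Phi x.m yy ∈ low F (G.V n) l true := by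
        rcases hc with hc | hc
        · have k1 := key (l, 1)
          simp only [Finsupp.coe_sub, Finsupp.coe_add, Pi.sub_apply, Pi.add_apply,
            Finsupp.single_eq_same, Finsupp.mapRange_apply] at k1
          rw [Finsupp.single_eq_of_ne (by simp), add_zero] at k1
          change _ ∈ low F (G.V n) l true at k1
          refine ⟨c1⁻¹ • xx (l, 1), Submodule.smul_mem _ _ (hx1 (l, 1)), ?_⟩
          have := Submodule.smul_mem _ c1⁻¹ k1
          rw [smul_sub, smul_smul, inv_mul_cancel₀ hc, one_smul] at this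
          rw [LinearMap.map_smul_of_tower]
          exact this
        · have k1 := key (l, 2)
          simp only [Finsupp.coe_sub, Finsupp.coe_add, Pi.sub_apply, Pi.add_apply,
            Finsupp.single_eq_same, Finsupp.mapRange_apply] at k1
          rw [Finsupp.single_eq_of_ne (by simp), zero_add] at k1
          change _ ∈ low F (G.V n) l true at k1
          refine ⟨c2⁻¹ • xx (l, 2), Submodule.smul_mem _ _ (hx1 (l, 2)), ?_⟩
          have := Submodule.smul_mem _ c2⁻¹ k1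
          rw [smul_sub, smul_smul, inv_mul_cancel₀ hc, one_smul] at this
          rw [LinearMap.map_smul_of_tower]
          exact this
      obtain ⟨yy, hyy1, hyy2⟩ := hyy
      intro i hi
      refine min_c1 hmin (n + 1) _ (d i) (q i - F.pr l i • yy) (hd i hi)
        (sub_mem (hq i hi) (pr_UN_mem n l i hyy1)) ?_
      change _ ∈ G.V n _
      have h1 := hyy2.2 i hi
      rw [hu, ← map_sub, ← map_smul, smul_sub, hdq i hi] at h1
      rw [← add_sub_assoc]
      exact h1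
    · intro s
      rw [Finsupp.sub_apply, Finsupp.add_apply, Finsupp.mapRange_apply, Finsupp.single_apply,
        Finsupp.single_apply]
      refine sub_mem (add_mem ?_ ?_) (H.f_UN (n + 1) s.1 (hx1 s))
      · split_ifs with h
        · subst h; exact Submodule.smul_mem _ _ hf
        · exact zero_mem _
      · split_ifs with h
        · subst h; exact Submodule.smul_mem _ _ hf
        · exact zero_mem _
    · intro s hs
      by_contra hne
      apply hs
      rw [Finsupp.sub_apply, Finsupp.add_apply, Finsupp.mapRange_apply, Finsupp.single_apply,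
        Finsupp.single_apply]
      have h2 : xx s = 0 := by
        by_contra h; exact hne (hx2 s h)
      rw [h2, map_zero, sub_zero]
      have h3 : (if (l, (1 : Fin 3)) = s then c1 • u else 0) = 0 := by
        split_ifs with h
        · subst h
          by_cases hc1 : c1 = 0
          · rw [hc1, zero_smul]
          · exact absurd (hβ1 hc1) hne
        · rfl
      have h4 : (if (l, (2 : Fin 3)) = s then c2 • u else 0) = 0 := by
        split_ifs with h
        · subst h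
          by_cases hc1 : c2 = 0
          · rw [hc1, zero_smul]
          · exact absurd (hβ2 hc1) hne
        · rfl
      rw [h3, h4, add_zero]
    · rw [map_sub, map_add, prSum_single, prSum_single, ← map_prSum]
      change c1 • F.pr l 1 • u + c2 • F.pr l 2 • u - Phi x.m (w0 + prSum k F (ℕ →₀ R) xx)
        ∈ G.V n β at hdep
      rw [map_add] at hdep
      have h5 := add_mem hdep (H.f_VN n _ _ hw0)
      change F.pr l 1 • c1 • u + F.pr l 2 • c2 • u - _ ∈ _
      rw [smul_comm (F.pr l 1) c1 u, smul_comm (F.pr l 2) c2 u]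
      convert h5 using 1
      abel

theorem min_c23_true (hτ : ∀ l, τ (sh.v l) = τ (sh.a l) + τ (sh.b l))
    (hmin : ∀ y, Rel τ x y → mu G x ≤ mu G y) (n : ℕ) (l : L) (w : ℕ →₀ R)
    (d q : Fin 3 → (ℕ →₀ R)) (hw : F.e (sh.v l) • w = w)
    (hd : ∀ i, side i = true → d i ∈ DVx G x n (sh.tgt l i))
    (hq : ∀ i, side i = true → q i ∈ VP F (DVx G x) (DEx G x) n (sh.tgt l i))
    (hdq : ∀ i, side i = true → F.pr l i • w = d i + q i)
    (hf : Phi x.m w ∈ upp F (G.V n) l) : ∀ i, side i = true → d i = 0 := by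
  classical
  by_contra hcon
  have dep := min_dep hmin n l w d q hd hq hdq hf
  set u := Phi x.m w with hu
  have hpu : ∀ i, F.pr l i • u = Phi x.m (F.pr l i • w) := fun i => by rw [hu, map_smul]
  have hd1 : d 1 ≠ 0 := by
    intro h
    apply hcon
    refine dep 1 0 (Or.inl one_ne_zero) (sh.a l) (fun _ => rfl) (fun h => absurd rfl h) (q 1)
      (hq 1 rfl) ?_
    rw [one_smul, zero_smul, add_zero, hpu, hdq 1 rfl, h, zero_add, sub_self]
    exact zero_mem _
  have hd2 : d 2 ≠ 0 := by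
    intro h
    apply hcon
    refine dep 0 1 (Or.inr one_ne_zero) (sh.b l) (fun h => absurd rfl h) (fun _ => rfl) (q 2)
      (hq 2 rfl) ?_
    rw [one_smul, zero_smul, zero_add, hpu, hdq 2 rfl, h, zero_add, sub_self]
    exact zero_mem _
  obtain ⟨c, h1, h2⟩ := id (hd 1 rfl)
  obtain ⟨c', h1', h2'⟩ := id (hd 2 rfl)
  change ∀ j, c j ≠ 0 → x.m j ≠ 0 ∧ lev G (x.b j) (x.m j) = 2 * n + 1 ∧ x.b j = some (sh.a l) at h1
  change ∀ j, c' j ≠ 0 → x.m j ≠ 0 ∧ lev G (x.b j) (x.m j) = 2 * n + 1 ∧ x.b j = some (sh.b l)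
    at h1'
  change ∀ j, d 1 j = c j • F.e (sh.a l) at h2
  change ∀ j, d 2 j = c' j • F.e (sh.b l) at h2'
  obtain ⟨i0, hi0⟩ := exists_coeff_ne_zero c h2 hd1
  obtain ⟨hm0, hl0, hb0⟩ := h1 i0 hi0
  obtain ⟨t, ht⟩ : ∃ t : k, t = (c i0)⁻¹ * c' i0 := ⟨_, rfl⟩
  have hct : c' i0 = t * c i0 := by
    rw [ht, mul_right_comm, inv_mul_cancel₀ hi0, one_mul]
  have htab : t ≠ 0 → sh.a l = sh.b l := by
    intro h
    have h3 : c' i0 ≠ 0 := by
      rw [hct]; exact mul_ne_zero h hi0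
    have h4 := (h1' i0 h3).2.2
    rw [hb0] at h4
    exact Option.some.inj h4
  have hte : t • F.e (sh.a l) = t • F.e (sh.b l) := by
    by_cases h : t = 0
    · rw [h, zero_smul, zero_smul]
    · rw [htab h]
  obtain ⟨j0, hj0⟩ : ∃ j0, c' j0 - t * c j0 ≠ 0 := by
    by_contra hall
    push Not at hall
    have hd2t : d 2 = t • d 1 := by
      ext j
      rw [Finsupp.smul_apply, h2, h2', sub_eq_zero.mp (hall j), mul_smul, smul_comm t (c j),
        smul_comm t (c j), hte]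
    by_cases h : t = 0
    · rw [h, zero_smul] at hd2t; exact hd2 hd2t
    · apply hcon
      refine dep (-t) 1 (Or.inr one_ne_zero) (sh.b l) (fun _ => htab h) (fun _ => rfl)
        (q 2 - t • q 1) ?_ ?_
      · have h5 := hq 1 rfl
        rw [Shape.tgt_one, htab h] at h5
        exact sub_mem (hq 2 rfl) (Submodule.smul_mem _ _ h5)
      · rw [one_smul, hpu, hpu, hdq 1 rfl, hdq 2 rfl, hd2t, ← LinearMap.map_smul_of_tower,
          ← map_add, ← map_sub]
        have : -t • (d 1 + q 1) + (t • d 1 + q 2) - (q 2 - t • q 1) = 0 := by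
          rw [smul_add, neg_smul, neg_smul]; abel
        rw [this, map_zero]
        exact zero_mem _
  have hj0i : j0 ≠ i0 := by
    intro h
    apply hj0
    rw [h, hct, sub_self]
  have hj0b : x.m j0 ≠ 0 ∧ lev G (x.b j0) (x.m j0) = 2 * n + 1 ∧ x.b j0 = some (sh.b l) := by
    by_cases h : c' j0 = 0
    · rw [h, zero_sub, neg_ne_zero] at hj0
      have ht0 : t ≠ 0 := left_ne_zero_of_mul hj0
      have hc0 : c j0 ≠ 0 := right_ne_zero_of_mul hj0
      rw [← htab ht0]
      exact h1 j0 hc0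
    · exact h1' j0 h
  obtain ⟨hmj, hlj, hbj⟩ := hj0b
  -- components
  obtain ⟨s1, hs1⟩ : ∃ s : ℕ →₀ R, s = F.pr l 1 • w := ⟨_, rfl⟩
  obtain ⟨s2, hs2⟩ : ∃ s : ℕ →₀ R, s = F.pr l 2 • w := ⟨_, rfl⟩
  have hs1dq : s1 = d 1 + q 1 := by rw [hs1]; exact hdq 1 rfl
  have hs2dq : s2 = d 2 + q 2 := by rw [hs2]; exact hdq 2 rfl
  have hq1i : (q 1) i0 = 0 := Zx_apply_eq_zero (VP_Z n (hq 1 rfl)) (by rw [hl0])
  have hq1j : (q 1) j0 = 0 := Zx_apply_eq_zero (VP_Z n (hq 1 rfl)) (by rw [hlj])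
  have hq2i : (q 2) i0 = 0 := Zx_apply_eq_zero (VP_Z n (hq 2 rfl)) (by rw [hl0])
  have hq2j : (q 2) j0 = 0 := Zx_apply_eq_zero (VP_Z n (hq 2 rfl)) (by rw [hlj])
  have hs1sp : s1 ∈ sp F x.b := by
    rw [hs1dq]; exact add_mem (DVx_Z (hd 1 rfl)).1 (VP_Z n (hq 1 rfl)).1
  have hs2sp : s2 ∈ sp F x.b := by
    rw [hs2dq]; exact add_mem (DVx_Z (hd 2 rfl)).1 (VP_Z n (hq 2 rfl)).1
  have hes1 : F.e (sh.a l) • s1 = s1 := by rw [hs1]; exact e_pr_smul l 1 w
  have hes2 : F.e (sh.b l) • s2 = s2 := by rw [hs2]; exact e_pr_smul l 2 w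
  have hs1i : s1 i0 = c i0 • F.e (sh.a l) := by
    rw [hs1dq, Finsupp.add_apply, h2, hq1i, add_zero]
  have hs1j : s1 j0 = c j0 • F.e (sh.a l) := by
    rw [hs1dq, Finsupp.add_apply, h2, hq1j, add_zero]
  have hs2i : s2 i0 = c' i0 • F.e (sh.b l) := by
    rw [hs2dq, Finsupp.add_apply, h2', hq2i, add_zero]
  have hs2j : s2 j0 = c' j0 • F.e (sh.b l) := by
    rw [hs2dq, Finsupp.add_apply, h2', hq2j, add_zero]
  -- first transvection
  obtain ⟨y1, y1r, y1b, y1bd, y1m⟩ := exists_T1 τ x i0 _ hb0 s1 hs1sp hes1 (c i0) hi0 hs1i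
  let δ : ℕ →₀ R := Finsupp.single i0 (F.e (sh.a l))
  have hδsp : δ ∈ sp F x.b := by
    have := single_mem_sp (F := F) (b := x.b) i0
    rw [hb0] at this
    exact this
  have heδ : F.e (sh.a l) • δ = δ := by
    simp only [δ, Finsupp.smul_single, smul_eq_mul, F.e_mul_e]
  have hksp : ∀ (c : k) (r : ℕ →₀ R), r ∈ sp F x.b → c • r ∈ sp F x.b := by
    intro c r hr j
    rw [Finsupp.smul_apply, smul_mul_assoc, hr j]
  let s2' : ℕ →₀ R := s2 - t • (s1 - δ)
  have hs2'sp : s2' ∈ sp F y1.b := by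
    rw [y1b]
    exact sub_mem hs2sp (hksp _ _ (sub_mem hs1sp hδsp))
  have hes2' : F.e (sh.b l) • s2' = s2' := by
    simp only [s2']
    rw [smul_sub, hes2]
    congr 1
    by_cases h : t = 0
    · rw [h, zero_smul, smul_zero]
    · rw [← htab h, smul_comm, smul_sub, hes1, heδ]
  have hs2'j : s2' j0 = (c' j0 - t * c j0) • F.e (sh.b l) := by
    simp only [s2', Finsupp.sub_apply, Finsupp.smul_apply]
    have hδj : δ j0 = 0 := by
      simp only [δ]
      exact Finsupp.single_eq_of_ne hj0i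
    rw [hδj, sub_zero, hs2j, hs1j, sub_smul]
    congr 1
    rw [mul_comm t (c j0), mul_smul, smul_comm t (c j0), hte]
  have hs2'i : s2' i0 = t • F.e (sh.a l) := by
    simp only [s2', Finsupp.sub_apply, Finsupp.smul_apply]
    have hδi : δ i0 = F.e (sh.a l) := by simp [δ]
    rw [hδi, hs2i, hs1i, hct, smul_sub, mul_comm, mul_smul, ← hte, smul_comm (c i0) t]
    abel
  have hPhi2 : Phi y1.m s2' = Phi x.m s2 := by
    rw [y1m, Phi_update, hs2'i]
    have h6 : F.e (sh.a l) • (Phi x.m s1 - x.m i0) = Phi x.m s1 - x.m i0 := by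
      rw [smul_sub, ← map_smul, hes1]
      congr 1
      have := x.hm i0
      rwa [hb0] at this
    rw [smul_assoc, h6]
    simp only [s2']
    rw [map_sub, LinearMap.map_smul_of_tower, map_sub]
    have h7 : Phi x.m δ = x.m i0 := by
      simp only [δ]
      rw [Phi_single]
      have := x.hm i0
      rwa [hb0] at this
    rw [h7]
    abel
  -- second transvection
  obtain ⟨y2, y2r, y2b, y2bd, y2m⟩ := exists_T1 τ y1 j0 (sh.b l) (by rw [y1b]; exact hbj) s2'
    hs2'sp hes2' (c' j0 - t * c j0) hj0 hs2'j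
  rw [hPhi2] at y2m
  -- merging
  obtain ⟨y3, y3r, y3b, y3bd, y3m⟩ := exists_T3 τ hτ y2 l i0 j0 hj0i.symm
    (by rw [y2b, y1b]; exact hb0) (by rw [y2b, y1b]; exact hbj)
  have hle := hmin y3 ((y1r.trans τ y2r).trans τ y3r)
  have hy2i : y2.m i0 = Phi x.m s1 := by
    rw [y2m, Function.update_of_ne hj0i.symm, y1m, Function.update_self]
  have hy2j : y2.m j0 = Phi x.m s2 := by
    rw [y2m, Function.update_self]
  have hyu : F.inj l 1 • y2.m i0 + F.inj l 2 • y2.m j0 = u := by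
    rw [hy2i, hy2j, hs1, hs2, ← map_smul, ← map_smul, ← map_add, ← eq_sum_12 hw]
  rw [hyu] at y3m
  have b3i : y3.b i0 = some (sh.v l) := by
    rw [y3b, Function.update_of_ne hj0i.symm, Function.update_self]
  have m3i : y3.m i0 = u := by
    rw [y3m, Function.update_of_ne hj0i.symm, Function.update_self]
  have m3j : y3.m j0 = 0 := by
    rw [y3m, Function.update_self]
  have b3o : ∀ j, j ≠ i0 → j ≠ j0 → y3.b j = x.b j := by
    intro j h3 h4
    rw [y3b, Function.update_of_ne h4, Function.update_of_ne h3, y2b, y1b]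
  have m3o : ∀ j, j ≠ i0 → j ≠ j0 → y3.m j = x.m j := by
    intro j h3 h4
    rw [y3m, Function.update_of_ne h4, Function.update_of_ne h3, y2m, Function.update_of_ne h4,
      y1m, Function.update_of_ne h3]
  have hmux : mu G x = 3 ^ (2 * n + 1) + (3 ^ (2 * n + 1) +
      ∑ j ∈ ((Finset.range x.bound).erase i0).erase j0, wt G (x.b j) (x.m j)) := by
    unfold mu
    rw [sum_two (fun j => wt G (x.b j) (x.m j)) (x.lt_bound hb0) (x.lt_bound hbj) hj0i.symm,
      wt_eq G hm0, wt_eq G hmj, hl0, hlj]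
  have hmuy : mu G y3 = wt G (some (sh.v l)) u + (0 +
      ∑ j ∈ ((Finset.range x.bound).erase i0).erase j0, wt G (x.b j) (x.m j)) := by
    unfold mu
    rw [y3bd, y2bd, y1bd, sum_two (fun j => wt G (y3.b j) (y3.m j)) (x.lt_bound hb0)
      (x.lt_bound hbj) hj0i.symm, b3i, m3i, m3j, wt_zero]
    congr 2
    refine Finset.sum_congr rfl fun j hj => ?_
    rw [Finset.mem_erase, Finset.mem_erase] at hj
    rw [b3o j hj.2.1 hj.1, m3o j hj.2.1 hj.1]
  have b1 := wt_le G (Or.inr ⟨n, l, rfl, rfl, hf⟩ : Lv G (some (sh.v l)) u (2 * n))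
  rw [hmux, hmuy] at hle
  have b3 : 3 ^ (2 * n + 1) = 3 * 3 ^ (2 * n) := by ring
  have b4 : 0 < 3 ^ (2 * n) := by positivity
  omega

theorem min_c23 (hτ : ∀ l, τ (sh.v l) = τ (sh.a l) + τ (sh.b l))
    (hmin : ∀ y, Rel τ x y → mu G x ≤ mu G y) (n : ℕ) (l : L) (ε : Bool) (w : ℕ →₀ R)
    (d q : Fin 3 → (ℕ →₀ R)) (hw : F.e (sh.v l) • w = w)
    (hd : ∀ i, side i = ε → d i ∈ DVx G x n (sh.tgt l i))
    (hq : ∀ i, side i = ε → q i ∈ VP F (DVx G x) (DEx G x) n (sh.tgt l i))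
    (hdq : ∀ i, side i = ε → F.pr l i • w = d i + q i)
    (hf : Phi x.m w ∈ upp F (G.V n) l) : ∀ i, side i = ε → d i = 0 := by
  cases ε
  · -- the end `v`
    have hi00 : ∀ i, side i = false → i = 0 := by decide
    intro i hi
    rw [hi00 i hi]
    by_contra hd0
    obtain ⟨c, h1, h2⟩ := id (hd 0 rfl)
    obtain ⟨i0, hi0⟩ := exists_coeff_ne_zero c h2 hd0
    obtain ⟨hm0, hl0, hb0⟩ := h1 i0 hi0
    have hwdq : w = d 0 + q 0 := by
      rw [← hdq 0 rfl, pr_zero_smul hw]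
    have hqi : (q 0) i0 = 0 := Zx_apply_eq_zero (VP_Z n (hq 0 rfl)) (by rw [hl0])
    refine minT1 hmin i0 (sh.v l) hb0 w ?_ hw (c i0) hi0 ?_ ?_
    · rw [hwdq]; exact add_mem (DVx_Z (hd 0 rfl)).1 (VP_Z n (hq 0 rfl)).1
    · rw [hwdq, Finsupp.add_apply, h2, hqi, add_zero]; rfl
    · have hw1 : wt G (some (sh.v l)) (x.m i0) = 3 ^ (2 * n + 1) := by
        have : some (sh.v l) = x.b i0 := hb0.symm
        rw [this, wt_eq G hm0, hl0]
      rw [hw1]
      refine lt_of_le_of_lt (wt_le G (Or.inr ⟨n, l, rfl, rfl, hf⟩)) ?_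
      exact Nat.pow_lt_pow_right (by norm_num) (by omega)
  · exact min_c23_true hτ hmin n l w d q hw hd hq hdq hf

/-- Measure-minimal families are strict. -/
theorem strictHyp_of_min (hτ : ∀ l, τ (sh.v l) = τ (sh.a l) + τ (sh.b l))
    (hmin : ∀ y, Rel τ x y → mu G x ≤ mu G y) :
    StrictHyp G (Phi (R := R) x.m) (DVx G x) (DEx G x) :=
  { filHyp G x with
    c1 := fun n b d w hd hw hf => min_c1 hmin n b d w hd hw hf
    c23 := fun n l ε w d q hw hd hq hdq hf => min_c23 hτ hmin n l ε w d q hw hd hq hdq hf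
    c45 := fun n l ε e p1 p2 he hp1 hp2 hf => min_c45 hτ hmin n l ε e p1 p2 he hp1 hp2 hf }

/-- Every family is equivalent to a strict one. -/
theorem exists_strict (hτ : ∀ l, τ (sh.v l) = τ (sh.a l) + τ (sh.b l)) (G : GoodFil k F M)
    (x : Fam F M) :
    ∃ y, Rel τ x y ∧ StrictHyp G (Phi (R := R) y.m) (DVx G y) (DEx G y) := by
  classical
  have hex : ∃ n, ∃ y, Rel τ x y ∧ mu G y = n := ⟨_, x, Rel.refl τ x, rfl⟩
  obtain ⟨y, hy, hyn⟩ := Nat.find_spec hex
  refine ⟨y, hy, strictHyp_of_min hτ fun z hz => ?_⟩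
  rw [hyn]
  exact Nat.find_min' hex ⟨z, hy.trans τ hz, rfl⟩

end Pool.Agent.Lib_helper8.Berg
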