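import Pool.Agent.Lib_helper8.Berg.Frame

/-!
The word model: a module with a good filtration, freely generated by given typed generators.
-/

set_option linter.unusedSectionVars false

namespace Pool.Agent.Lib_helper8.Berg

universe u1 u2 u3

/-- Words in the moves, starting at a generator. -/
inductive Wd (L : Type u2) : Type u2
  | nil (j : ℕ) : Wd L
  | upa (l : L) (w : Wd L) : Wd L
  | upb (l : L) (w : Wd L) : Wd L
  | dna (l : L) (w : Wd L) : Wd L
  | dnb (l : L) (w : Wd L) : Wd L

namespace Wd

variable {B : Type u1} {L : Type u2}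

/-- Length of a word. -/
def len : Wd L → ℕ
  | nil _ => 0
  | upa _ w => w.len + 1
  | upb _ w => w.len + 1
  | dna _ w => w.len + 1
  | dnb _ w => w.len + 1

/-- The last move is an up move of `l`. -/
def isUp (l : L) : Wd L → Prop
  | upa l' _ => l' = l
  | upb l' _ => l' = l
  | _ => False

/-- The last move is the second down move of `l`. -/
def isDnb (l : L) : Wd L → Prop
  | dnb l' _ => l' = l
  | _ => False

/-- Reduced words ending at `b`. -/
def ok (sh : Shape B L) (g : ℕ → Option B) : Wd L → B → Prop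
  | nil j, b => g j = some b
  | upa l w, b => sh.v l = b ∧ ok sh g w (sh.a l)
  | upb l w, b => sh.v l = b ∧ ok sh g w (sh.b l) ∧ ¬ isDnb l w
  | dna l w, b => sh.a l = b ∧ ok sh g w (sh.v l) ∧ ¬ isUp l w
  | dnb l w, b => sh.b l = b ∧ ok sh g w (sh.v l) ∧ ¬ isUp l w

theorem isUp_iff (l : L) (w : Wd L) : isUp l w ↔ (∃ w', w = upa l w') ∨ ∃ w', w = upb l w' := by
  cases w with
  | nil j => simp [isUp]
  | upa l' w =>
    constructor
    · intro h
      have : l' = l := h
      subst this
      exact Or.inl ⟨w, rfl⟩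
    · rintro (⟨w', h⟩ | ⟨w', h⟩)
      · exact (upa.inj h).1
      · exact absurd h (by simp)
  | upb l' w =>
    constructor
    · intro h
      have : l' = l := h
      subst this
      exact Or.inr ⟨w, rfl⟩
    · rintro (⟨w', h⟩ | ⟨w', h⟩)
      · exact absurd h (by simp)
      · exact (upb.inj h).1
  | dna l' w => simp [isUp]
  | dnb l' w => simp [isUp]

theorem isDnb_iff (l : L) (w : Wd L) : isDnb l w ↔ ∃ w', w = dnb l w' := by
  cases w with
  | nil j => simp [isDnb]
  | upa l' w => simp [isDnb]
  | upb l' w => simp [isDnb]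
  | dna l' w => simp [isDnb]
  | dnb l' w =>
    constructor
    · intro h
      have : l' = l := h
      subst this
      exact ⟨w, rfl⟩
    · rintro ⟨w', h⟩
      exact (dnb.inj h).1

end Wd

open Wd

section Ops

open scoped Classical

variable {B : Type u1} {L : Type u2} (sh : Shape B L) (g : ℕ → Option B)
variable (k : Type u3) [Field k]

/-- Projection to words ending at `b`, on words. -/
noncomputable def opE (b : B) (w : Wd L) : Wd L →₀ k :=
  if ok sh g w b then Finsupp.single w 1 else 0

noncomputable def opUpa (l : L) (w : Wd L) : Wd L →₀ k :=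
  if ok sh g w (sh.a l) then Finsupp.single (upa l w) 1 else 0

noncomputable def redUpb (l : L) : Wd L → (Wd L →₀ k)
  | dnb l' w' => if l' = l then Finsupp.single w' 1 - Finsupp.single (upa l (dna l w')) 1
      else Finsupp.single (upb l (dnb l' w')) 1
  | w => Finsupp.single (upb l w) 1

noncomputable def opUpb (l : L) (w : Wd L) : Wd L →₀ k :=
  if ok sh g w (sh.b l) then redUpb k l w else 0

noncomputable def redDna (l : L) : Wd L → (Wd L →₀ k)
  | upa l' w' => if l' = l then Finsupp.single w' 1 else Finsupp.single (dna l (upa l' w')) 1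
  | upb l' w' => if l' = l then 0 else Finsupp.single (dna l (upb l' w')) 1
  | w => Finsupp.single (dna l w) 1

noncomputable def opDna (l : L) (w : Wd L) : Wd L →₀ k :=
  if ok sh g w (sh.v l) then redDna k l w else 0

noncomputable def redDnb (l : L) : Wd L → (Wd L →₀ k)
  | upa l' w' => if l' = l then 0 else Finsupp.single (dnb l (upa l' w')) 1
  | upb l' w' => if l' = l then Finsupp.single w' 1 else Finsupp.single (dnb l (upb l' w')) 1
  | w => Finsupp.single (dnb l w) 1

noncomputable def opDnb (l : L) (w : Wd L) : Wd L →₀ k :=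
  if ok sh g w (sh.v l) then redDnb k l w else 0

/-- The operator attached to a function on words. -/
noncomputable def lc (f : Wd L → (Wd L →₀ k)) : Module.End k (Wd L →₀ k) :=
  Finsupp.linearCombination k f

variable {sh g k}

@[simp] theorem lc_single (f : Wd L → (Wd L →₀ k)) (w : Wd L) :
    lc k f (Finsupp.single w 1) = f w := by
  rw [lc, Finsupp.linearCombination_single, one_smul]

theorem end_ext {f h : Module.End k (Wd L →₀ k)}
    (H : ∀ w, f (Finsupp.single w 1) = h (Finsupp.single w 1)) : f = h := by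
  refine Finsupp.lhom_ext' fun w => ?_
  refine LinearMap.ext_ring ?_
  exact H w

theorem opE_ok {b : B} {w : Wd L} (h : ok sh g w b) : opE sh g k b w = Finsupp.single w 1 := by
  rw [opE, if_pos h]

theorem opE_not {b : B} {w : Wd L} (h : ¬ ok sh g w b) : opE sh g k b w = 0 := by
  rw [opE, if_neg h]

theorem opUpa_ok {l : L} {w : Wd L} (h : ok sh g w (sh.a l)) :
    opUpa sh g k l w = Finsupp.single (upa l w) 1 := by
  rw [opUpa, if_pos h]

theorem opUpa_not {l : L} {w : Wd L} (h : ¬ ok sh g w (sh.a l)) : opUpa sh g k l w = 0 := by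
  rw [opUpa, if_neg h]

theorem opUpb_not {l : L} {w : Wd L} (h : ¬ ok sh g w (sh.b l)) : opUpb sh g k l w = 0 := by
  rw [opUpb, if_neg h]

theorem opUpb_ok {l : L} {w : Wd L} (h : ok sh g w (sh.b l)) (h' : ¬ isDnb l w) :
    opUpb sh g k l w = Finsupp.single (upb l w) 1 := by
  rw [opUpb, if_pos h]
  cases w with
  | nil j => rfl
  | upa l' w => rfl
  | upb l' w => rfl
  | dna l' w => rfl
  | dnb l' w =>
    change (if l' = l then _ else _) = _
    rw [if_neg (show ¬ l' = l from h')]

theorem opUpb_dnb {l : L} {w : Wd L} (h : ok sh g (dnb l w) (sh.b l)) :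
    opUpb sh g k l (dnb l w) = Finsupp.single w 1 - Finsupp.single (upa l (dna l w)) 1 := by
  rw [opUpb, if_pos h]
  change (if l = l then _ else _) = _
  rw [if_pos rfl]

theorem opDna_not {l : L} {w : Wd L} (h : ¬ ok sh g w (sh.v l)) : opDna sh g k l w = 0 := by
  rw [opDna, if_neg h]

theorem opDnb_not {l : L} {w : Wd L} (h : ¬ ok sh g w (sh.v l)) : opDnb sh g k l w = 0 := by
  rw [opDnb, if_neg h]

theorem opDna_ok {l : L} {w : Wd L} (h : ok sh g w (sh.v l)) (h' : ¬ isUp l w) :
    opDna sh g k l w = Finsupp.single (dna l w) 1 := by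
  rw [opDna, if_pos h]
  cases w with
  | nil j => rfl
  | upa l' w =>
    change (if l' = l then _ else _) = _
    rw [if_neg (show ¬ l' = l from h')]
  | upb l' w =>
    change (if l' = l then _ else _) = _
    rw [if_neg (show ¬ l' = l from h')]
  | dna l' w => rfl
  | dnb l' w => rfl

theorem opDna_upa {l : L} {w : Wd L} (h : ok sh g (upa l w) (sh.v l)) :
    opDna sh g k l (upa l w) = Finsupp.single w 1 := by
  rw [opDna, if_pos h]
  change (if l = l then _ else _) = _
  rw [if_pos rfl]

theorem opDna_upb {l : L} {w : Wd L} : opDna sh g k l (upb l w) = 0 := by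
  rw [opDna]
  split_ifs
  · change (if l = l then _ else _) = _
    rw [if_pos rfl]
  · rfl

theorem opDnb_ok {l : L} {w : Wd L} (h : ok sh g w (sh.v l)) (h' : ¬ isUp l w) :
    opDnb sh g k l w = Finsupp.single (dnb l w) 1 := by
  rw [opDnb, if_pos h]
  cases w with
  | nil j => rfl
  | upa l' w =>
    change (if l' = l then _ else _) = _
    rw [if_neg (show ¬ l' = l from h')]
  | upb l' w =>
    change (if l' = l then _ else _) = _
    rw [if_neg (show ¬ l' = l from h')]
  | dna l' w => rfl
  | dnb l' w => rfl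

theorem opDnb_upb {l : L} {w : Wd L} (h : ok sh g (upb l w) (sh.v l)) :
    opDnb sh g k l (upb l w) = Finsupp.single w 1 := by
  rw [opDnb, if_pos h]
  change (if l = l then _ else _) = _
  rw [if_pos rfl]

theorem opDnb_upa {l : L} {w : Wd L} : opDnb sh g k l (upa l w) = 0 := by
  rw [opDnb]
  split_ifs
  · change (if l = l then _ else _) = _
    rw [if_pos rfl]
  · rfl

theorem ok_upa {l : L} {w : Wd L} (h : ok sh g w (sh.a l)) : ok sh g (upa l w) (sh.v l) :=
  ⟨rfl, h⟩

theorem ok_upb {l : L} {w : Wd L} (h : ok sh g w (sh.b l)) (h' : ¬ isDnb l w) :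
    ok sh g (upb l w) (sh.v l) := ⟨rfl, h, h'⟩

theorem ok_dna {l : L} {w : Wd L} (h : ok sh g w (sh.v l)) (h' : ¬ isUp l w) :
    ok sh g (dna l w) (sh.a l) := ⟨rfl, h, h'⟩

theorem ok_dnb {l : L} {w : Wd L} (h : ok sh g w (sh.v l)) (h' : ¬ isUp l w) :
    ok sh g (dnb l w) (sh.b l) := ⟨rfl, h, h'⟩

/-- Case analysis for reduced words ending at `v l`. -/
theorem ok_v_cases {l : L} {w : Wd L} (h : ok sh g w (sh.v l)) :
    (∃ w', w = upa l w' ∧ ok sh g w' (sh.a l)) ∨
    (∃ w', w = upb l w' ∧ ok sh g w' (sh.b l) ∧ ¬ isDnb l w') ∨ ¬ isUp l w := by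
  by_cases hu : isUp l w
  · rw [isUp_iff] at hu
    rcases hu with ⟨w', rfl⟩ | ⟨w', rfl⟩
    · exact Or.inl ⟨w', rfl, h.2⟩
    · exact Or.inr (Or.inl ⟨w', rfl, h.2⟩)
  · exact Or.inr (Or.inr hu)

variable (sh g k)

/-- The frame of the word model. -/
noncomputable def wordFrame : Frame sh (Module.End k (Wd L →₀ k)) where
  e b := lc k (opE sh g k b)
  pr l := ![lc k (opE sh g k (sh.v l)), lc k (opDna sh g k l), lc k (opDnb sh g k l)]
  inj l := ![lc k (opE sh g k (sh.v l)), lc k (opUpa sh g k l), lc k (opUpb sh g k l)]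
  e_mul_e b := by
    refine end_ext fun w => ?_
    rw [Module.End.mul_apply, lc_single]
    by_cases h : ok sh g w b
    · rw [opE_ok h, lc_single, opE_ok h]
    · rw [opE_not h, map_zero]
  pr_zero l := rfl
  inj_zero l := rfl
  e_mul_pr l i := by
    refine end_ext fun w => ?_
    rw [Module.End.mul_apply]
    fin_cases i
    · change lc k (opE sh g k (sh.v l)) (lc k (opE sh g k (sh.v l)) _)
        = lc k (opE sh g k (sh.v l)) _
      rw [lc_single]
      by_cases h : ok sh g w (sh.v l)
      · rw [opE_ok h, lc_single, opE_ok h]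
      · rw [opE_not h, map_zero]
    · change lc k (opE sh g k (sh.a l)) (lc k (opDna sh g k l) _) = lc k (opDna sh g k l) _
      rw [lc_single]
      by_cases h : ok sh g w (sh.v l)
      · rcases ok_v_cases h with ⟨w', rfl, h'⟩ | ⟨w', rfl, h'⟩ | h'
        · rw [opDna_upa h, lc_single, opE_ok h']
        · rw [opDna_upb, map_zero]
        · rw [opDna_ok h h', lc_single, opE_ok (ok_dna h h')]
      · rw [opDna_not h, map_zero]
    · change lc k (opE sh g k (sh.b l)) (lc k (opDnb sh g k l) _) = lc k (opDnb sh g k l) _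
      rw [lc_single]
      by_cases h : ok sh g w (sh.v l)
      · rcases ok_v_cases h with ⟨w', rfl, h'⟩ | ⟨w', rfl, h'⟩ | h'
        · rw [opDnb_upa, map_zero]
        · rw [opDnb_upb h, lc_single, opE_ok h'.1]
        · rw [opDnb_ok h h', lc_single, opE_ok (ok_dnb h h')]
      · rw [opDnb_not h, map_zero]
  pr_mul_e l i := by
    refine end_ext fun w => ?_
    rw [Module.End.mul_apply, lc_single]
    by_cases h : ok sh g w (sh.v l)
    · rw [opE_ok h]
    · rw [opE_not h, map_zero]
      fin_cases i
      · change _ = lc k (opE sh g k (sh.v l)) _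
        rw [lc_single, opE_not h]
      · change _ = lc k (opDna sh g k l) _
        rw [lc_single, opDna_not h]
      · change _ = lc k (opDnb sh g k l) _
        rw [lc_single, opDnb_not h]
  e_mul_inj l i := by
    refine end_ext fun w => ?_
    rw [Module.End.mul_apply]
    fin_cases i
    · change lc k (opE sh g k (sh.v l)) (lc k (opE sh g k (sh.v l)) _)
        = lc k (opE sh g k (sh.v l)) _
      rw [lc_single]
      by_cases h : ok sh g w (sh.v l)
      · rw [opE_ok h, lc_single, opE_ok h]
      · rw [opE_not h, map_zero]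
    · change lc k (opE sh g k (sh.v l)) (lc k (opUpa sh g k l) _) = lc k (opUpa sh g k l) _
      rw [lc_single]
      by_cases h : ok sh g w (sh.a l)
      · rw [opUpa_ok h, lc_single, opE_ok (ok_upa h)]
      · rw [opUpa_not h, map_zero]
    · change lc k (opE sh g k (sh.v l)) (lc k (opUpb sh g k l) _) = lc k (opUpb sh g k l) _
      rw [lc_single]
      by_cases h : ok sh g w (sh.b l)
      · by_cases h' : isDnb l w
        · obtain ⟨w', rfl⟩ := (isDnb_iff l w).mp h'
          rw [opUpb_dnb h, map_sub, lc_single, lc_single, opE_ok h.2.1,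
            opE_ok (ok_upa (ok_dna h.2.1 h.2.2))]
        · rw [opUpb_ok h h', lc_single, opE_ok (ok_upb h h')]
      · rw [opUpb_not h, map_zero]
  inj_mul_e l i := by
    refine end_ext fun w => ?_
    rw [Module.End.mul_apply, lc_single]
    by_cases h : ok sh g w (sh.tgt l i)
    · rw [opE_ok h]
    · rw [opE_not h, map_zero]
      fin_cases i
      · change _ = lc k (opE sh g k (sh.v l)) _
        change ¬ ok sh g w (sh.v l) at h
        rw [lc_single, opE_not h]
      · change _ = lc k (opUpa sh g k l) _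
        change ¬ ok sh g w (sh.a l) at h
        rw [lc_single, opUpa_not h]
      · change _ = lc k (opUpb sh g k l) _
        change ¬ ok sh g w (sh.b l) at h
        rw [lc_single, opUpb_not h]
  pr_mul_inj_same l i := by
    refine end_ext fun w => ?_
    rw [Module.End.mul_apply, lc_single]
    fin_cases i
    · change lc k (opE sh g k (sh.v l)) (lc k (opE sh g k (sh.v l)) _) = opE sh g k (sh.v l) _
      rw [lc_single]
      by_cases h : ok sh g w (sh.v l)
      · rw [opE_ok h, lc_single, opE_ok h]
      · rw [opE_not h, map_zero]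
    · change lc k (opDna sh g k l) (lc k (opUpa sh g k l) _) = opE sh g k (sh.a l) _
      rw [lc_single]
      by_cases h : ok sh g w (sh.a l)
      · rw [opUpa_ok h, lc_single, opDna_upa (ok_upa h), opE_ok h]
      · rw [opUpa_not h, map_zero, opE_not h]
    · change lc k (opDnb sh g k l) (lc k (opUpb sh g k l) _) = opE sh g k (sh.b l) _
      rw [lc_single]
      by_cases h : ok sh g w (sh.b l)
      · by_cases h' : isDnb l w
        · obtain ⟨w', rfl⟩ := (isDnb_iff l w).mp h'
          rw [opUpb_dnb h, map_sub, lc_single, lc_single, opDnb_ok h.2.1 h.2.2, opDnb_upa,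
            sub_zero, opE_ok h]
        · rw [opUpb_ok h h', lc_single, opDnb_upb (ok_upb h h'), opE_ok h]
      · rw [opUpb_not h, map_zero, opE_not h]
  pr_mul_inj_12 l := by
    refine end_ext fun w => ?_
    rw [Module.End.mul_apply]
    change lc k (opDna sh g k l) (lc k (opUpb sh g k l) _) = 0
    rw [lc_single]
    by_cases h : ok sh g w (sh.b l)
    · by_cases h' : isDnb l w
      · obtain ⟨w', rfl⟩ := (isDnb_iff l w).mp h'
        rw [opUpb_dnb h, map_sub, lc_single, lc_single, opDna_ok h.2.1 h.2.2,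
          opDna_upa (ok_upa (ok_dna h.2.1 h.2.2)), sub_self]
      · rw [opUpb_ok h h', lc_single, opDna_upb]
    · rw [opUpb_not h, map_zero]
  pr_mul_inj_21 l := by
    refine end_ext fun w => ?_
    rw [Module.End.mul_apply]
    change lc k (opDnb sh g k l) (lc k (opUpa sh g k l) _) = 0
    rw [lc_single]
    by_cases h : ok sh g w (sh.a l)
    · rw [opUpa_ok h, lc_single, opDnb_upa]
    · rw [opUpa_not h, map_zero]
  sum_12 l := by
    refine end_ext fun w => ?_
    rw [LinearMap.add_apply, Module.End.mul_apply, Module.End.mul_apply]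
    change lc k (opUpa sh g k l) (lc k (opDna sh g k l) _)
      + lc k (opUpb sh g k l) (lc k (opDnb sh g k l) _) = lc k (opE sh g k (sh.v l)) _
    rw [lc_single, lc_single, lc_single]
    by_cases h : ok sh g w (sh.v l)
    · rcases ok_v_cases h with ⟨w', rfl, h'⟩ | ⟨w', rfl, h'⟩ | h'
      · rw [opDna_upa h, opDnb_upa, map_zero, add_zero, lc_single, opUpa_ok h', opE_ok h]
      · rw [opDna_upb, opDnb_upb h, map_zero, zero_add, lc_single, opUpb_ok h'.1 h'.2, opE_ok h]
      · rw [opDna_ok h h', opDnb_ok h h', lc_single, lc_single,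
          opUpa_ok (show ok sh g (dna l w) (sh.a l) from ⟨rfl, h, h'⟩),
          opUpb_dnb (show ok sh g (dnb l w) (sh.b l) from ⟨rfl, h, h'⟩), opE_ok h]
        abel
    · rw [opDna_not h, opDnb_not h, map_zero, map_zero, add_zero, opE_not h]

end Ops

section Fil

open scoped Classical

variable {B : Type u1} {L : Type u2} {sh : Shape B L} {g : ℕ → Option B}
variable {k : Type u3} [Field k]

theorem lc_mem (f : Wd L → (Wd L →₀ k)) (S : Submodule k (Wd L →₀ k)) (s : Set (Wd L))
    (h : ∀ w ∈ s, f w ∈ S) {t : Wd L →₀ k} (ht : t ∈ Finsupp.supported k k s) :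
    lc k f t ∈ S := by
  rw [lc, Finsupp.linearCombination_apply]
  exact sum_mem fun w hw => Submodule.smul_mem _ _ (h w (ht hw))

theorem mem_supported_iff {s : Set (Wd L)} {t : Wd L →₀ k} :
    t ∈ Finsupp.supported k k s ↔ ∀ w, t w ≠ 0 → w ∈ s := by
  rw [Finsupp.mem_supported]
  constructor
  · intro h w hw
    exact h (Finsupp.mem_support_iff.mpr hw)
  · intro h w hw
    exact h w (Finsupp.mem_support_iff.mp hw)

variable (sh g k)

/-- The filtration of the word model by length. -/
noncomputable def wV (n : ℕ) (b : B) : Submodule k (Wd L →₀ k) :=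
  Finsupp.supported k k {w | ok sh g w b ∧ w.len ≤ n}

variable {sh g k}

theorem single_mem_wV {n : ℕ} {b : B} {w : Wd L} (h : ok sh g w b) (h' : w.len ≤ n) :
    Finsupp.single w (1 : k) ∈ wV sh g k n b :=
  Finsupp.single_mem_supported k _ ⟨h, h'⟩

theorem mem_wV {n : ℕ} {b : B} {t : Wd L →₀ k} :
    t ∈ wV sh g k n b ↔ ∀ w, t w ≠ 0 → ok sh g w b ∧ w.len ≤ n := mem_supported_iff

theorem lcE_of_supported {b : B} {t : Wd L →₀ k}
    (ht : t ∈ Finsupp.supported k k {w | ok sh g w b}) : lc k (opE sh g k b) t = t := by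
  rw [lc, Finsupp.linearCombination_apply]
  have : ∀ w ∈ t.support, t w • opE sh g k b w = Finsupp.single w (t w) := by
    intro w hw
    rw [opE_ok (ht hw), Finsupp.smul_single, smul_eq_mul, mul_one]
  rw [Finsupp.sum, Finset.sum_congr rfl this]
  exact Finsupp.sum_single t

theorem lcE_mem_supported (b : B) (t : Wd L →₀ k) :
    lc k (opE sh g k b) t ∈ Finsupp.supported k k {w | ok sh g w b} := by
  refine lc_mem _ _ Set.univ (fun w _ => ?_) (t := t) ?_
  · by_cases h : ok sh g w b
    · rw [opE_ok h]; exact Finsupp.single_mem_supported k _ h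
    · rw [opE_not h]; exact zero_mem _
  · rw [Finsupp.supported_univ]; trivial

/-- Coefficient formula for the first down move. -/
theorem lcDna_apply (l : L) (w : Wd L) (h : ok sh g w (sh.v l)) (h' : ¬ isUp l w)
    (t : Wd L →₀ k) : (lc k (opDna sh g k l) t) (dna l w) = t w + t (upa l (dna l w)) := by
  have key : (Finsupp.lapply (dna l w)) ∘ₗ (lc k (opDna sh g k l))
      = Finsupp.lapply w + Finsupp.lapply (upa l (dna l w)) := by
    refine Finsupp.lhom_ext' fun w' => ?_
    refine LinearMap.ext_ring ?_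
    simp only [LinearMap.comp_apply, Finsupp.lsingle_apply, LinearMap.add_apply,
      Finsupp.lapply_apply]
    rw [lc_single]
    have hwd : ok sh g (upa l (dna l w)) (sh.v l) := ok_upa (ok_dna h h')
    by_cases hk : ok sh g w' (sh.v l)
    · rcases ok_v_cases hk with ⟨w'', rfl, h''⟩ | ⟨w'', rfl, h''⟩ | h''
      · rw [opDna_upa hk]
        have e1 : upa l w'' ≠ w := by
          rintro rfl; exact h' rfl
        rw [Finsupp.single_eq_of_ne e1.symm, zero_add]
        by_cases e2 : w'' = dna l w
        · subst e2; simp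
        · rw [Finsupp.single_eq_of_ne (Ne.symm e2), Finsupp.single_eq_of_ne]
          intro h3
          exact e2 (upa.inj h3).2.symm
      · rw [opDna_upb]
        have e1 : upb l w'' ≠ w := by
          rintro rfl; exact h' rfl
        rw [Finsupp.single_eq_of_ne e1.symm, Finsupp.single_eq_of_ne (by simp)]
        simp
      · rw [opDna_ok hk h'']
        have e1 : w' ≠ upa l (dna l w) := by
          rintro rfl; exact h'' rfl
        rw [Finsupp.single_eq_of_ne (a := w') (Ne.symm e1), add_zero]
        by_cases e2 : w' = w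
        · subst e2; simp
        · rw [Finsupp.single_eq_of_ne (Ne.symm e2), Finsupp.single_eq_of_ne]
          intro h3
          exact e2 (dna.inj h3).2.symm
    · rw [opDna_not hk]
      have e1 : w' ≠ w := by rintro rfl; exact hk h
      have e2 : w' ≠ upa l (dna l w) := by rintro rfl; exact hk hwd
      rw [Finsupp.single_eq_of_ne e1.symm, Finsupp.single_eq_of_ne e2.symm]
      simp
  exact LinearMap.congr_fun key t

/-- Coefficient formula for the second down move. -/
theorem lcDnb_apply (l : L) (w : Wd L) (h : ok sh g w (sh.v l)) (h' : ¬ isUp l w)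
    (t : Wd L →₀ k) : (lc k (opDnb sh g k l) t) (dnb l w) = t w := by
  have key : (Finsupp.lapply (dnb l w)) ∘ₗ (lc k (opDnb sh g k l)) = Finsupp.lapply w := by
    refine Finsupp.lhom_ext' fun w' => ?_
    refine LinearMap.ext_ring ?_
    simp only [LinearMap.comp_apply, Finsupp.lsingle_apply, Finsupp.lapply_apply]
    rw [lc_single]
    by_cases hk : ok sh g w' (sh.v l)
    · rcases ok_v_cases hk with ⟨w'', rfl, h''⟩ | ⟨w'', rfl, h''⟩ | h''
      · rw [opDnb_upa]
        have e1 : upa l w'' ≠ w := by
          rintro rfl; exact h' rfl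
        rw [Finsupp.single_eq_of_ne e1.symm]
        simp
      · rw [opDnb_upb hk]
        have e1 : upb l w'' ≠ w := by
          rintro rfl; exact h' rfl
        rw [Finsupp.single_eq_of_ne e1.symm, Finsupp.single_eq_of_ne]
        rintro rfl
        exact h''.2 rfl
      · rw [opDnb_ok hk h'']
        by_cases e2 : w' = w
        · subst e2; simp
        · rw [Finsupp.single_eq_of_ne (Ne.symm e2), Finsupp.single_eq_of_ne]
          intro h3
          exact e2 (dnb.inj h3).2.symm
    · rw [opDnb_not hk]
      have e1 : w' ≠ w := by rintro rfl; exact hk h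
      rw [Finsupp.single_eq_of_ne e1.symm]
      simp
  exact LinearMap.congr_fun key t

/-- Words that are good at `l` in degree `m`. -/
def gd (sh : Shape B L) (g : ℕ → Option B) (l : L) (m p : ℕ) : Set (Wd L) :=
  {w | ok sh g w (sh.v l) ∧ ((isUp l w ∧ w.len ≤ p) ∨ w.len + 1 ≤ m)}

theorem gd_dna {l : L} {m : ℕ} {t : Wd L →₀ k}
    (ht : t ∈ Finsupp.supported k k (gd sh g l m (m + 1))) :
    lc k (opDna sh g k l) t ∈ wV sh g k m (sh.a l) := by
  refine lc_mem _ _ _ (fun w hw => ?_) ht
  obtain ⟨hk, h2⟩ := hw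
  rcases ok_v_cases hk with ⟨w', rfl, h'⟩ | ⟨w', rfl, h'⟩ | h'
  · rw [opDna_upa hk]
    refine single_mem_wV h' ?_
    rcases h2 with h2 | h2
    · have := h2.2; simp only [len] at this; omega
    · simp only [len] at h2; omega
  · rw [opDna_upb]; exact zero_mem _
  · rw [opDna_ok hk h']
    refine single_mem_wV (ok_dna hk h') ?_
    rcases h2 with h2 | h2
    · exact absurd h2.1 h'
    · exact h2

theorem gd_dnb {l : L} {m : ℕ} {t : Wd L →₀ k}
    (ht : t ∈ Finsupp.supported k k (gd sh g l m (m + 1))) :
    lc k (opDnb sh g k l) t ∈ wV sh g k m (sh.b l) := by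
  refine lc_mem _ _ _ (fun w hw => ?_) ht
  obtain ⟨hk, h2⟩ := hw
  rcases ok_v_cases hk with ⟨w', rfl, h'⟩ | ⟨w', rfl, h'⟩ | h'
  · rw [opDnb_upa]; exact zero_mem _
  · rw [opDnb_upb hk]
    refine single_mem_wV h'.1 ?_
    rcases h2 with h2 | h2
    · have := h2.2; simp only [len] at this; omega
    · simp only [len] at h2; omega
  · rw [opDnb_ok hk h']
    refine single_mem_wV (ok_dnb hk h') ?_
    rcases h2 with h2 | h2
    · exact absurd h2.1 h'
    · exact h2

/-- If the first down image is small then the support is good. -/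
theorem supp_of_dna {l : L} {m p : ℕ} {t : Wd L →₀ k} (ht : t ∈ wV sh g k p (sh.v l))
    (hmp : p ≤ m + 1) (hd : lc k (opDna sh g k l) t ∈ wV sh g k m (sh.a l)) :
    t ∈ Finsupp.supported k k (gd sh g l m p) := by
  rw [mem_wV] at ht hd
  rw [mem_supported_iff]
  intro w hw
  obtain ⟨hk, hlen⟩ := ht w hw
  refine ⟨hk, ?_⟩
  by_cases h' : isUp l w
  · exact Or.inl ⟨h', hlen⟩
  · right
    by_contra hcon
    have h1 := lcDna_apply (k := k) l w hk h' t
    have h2 : (lc k (opDna sh g k l) t) (dna l w) = 0 := by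
      by_contra h3
      have := (hd _ h3).2
      simp only [len] at this
      omega
    have h3 : t (upa l (dna l w)) = 0 := by
      by_contra h3
      have := (ht _ h3).2
      simp only [len] at this
      omega
    rw [h2, h3, add_zero] at h1
    exact hw h1.symm

/-- If the second down image is small then the support is good. -/
theorem supp_of_dnb {l : L} {m p : ℕ} {t : Wd L →₀ k} (ht : t ∈ wV sh g k p (sh.v l))
    (hd : lc k (opDnb sh g k l) t ∈ wV sh g k m (sh.b l)) :
    t ∈ Finsupp.supported k k (gd sh g l m p) := by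
  rw [mem_wV] at ht hd
  rw [mem_supported_iff]
  intro w hw
  obtain ⟨hk, hlen⟩ := ht w hw
  refine ⟨hk, ?_⟩
  by_cases h' : isUp l w
  · exact Or.inl ⟨h', hlen⟩
  · right
    have h1 := lcDnb_apply (k := k) l w hk h' t
    rw [← h1] at hw
    exact (hd _ hw).2

/-- The class of words a slot contributes to in top degree. -/
def Kc : L × Fin 3 → Wd L → Prop
  | (l, 0) => fun u => isUp l u
  | (l, 1) => fun u => ∃ w, u = dna l w
  | (l, 2) => fun u => ∃ w, u = dnb l w

theorem Kc_disjoint {s s' : L × Fin 3} {u : Wd L} (h : Kc s u) (h' : Kc s' u) : s = s' := by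
  obtain ⟨l, i⟩ := s
  obtain ⟨l', i'⟩ := s'
  fin_cases i <;> fin_cases i'
  · change isUp l u at h
    change isUp l' u at h'
    rw [isUp_iff] at h h'
    rcases h with ⟨w, rfl⟩ | ⟨w, rfl⟩
    · rcases h' with ⟨w', h'⟩ | ⟨w', h'⟩
      · rw [(upa.inj h').1]
      · exact absurd h' (by simp)
    · rcases h' with ⟨w', h'⟩ | ⟨w', h'⟩
      · exact absurd h' (by simp)
      · rw [(upb.inj h').1]
  · change isUp l u at h
    obtain ⟨w, rfl⟩ := h'
    exact absurd h (by simp [isUp])
  · change isUp l u at h
    obtain ⟨w, rfl⟩ := h'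
    exact absurd h (by simp [isUp])
  · change isUp l' u at h'
    obtain ⟨w, rfl⟩ := h
    exact absurd h' (by simp [isUp])
  · obtain ⟨w, rfl⟩ := h
    obtain ⟨w', h'⟩ := h'
    rw [(dna.inj h').1]
  · obtain ⟨w, rfl⟩ := h
    obtain ⟨w', h'⟩ := h'
    exact absurd h' (by simp)
  · change isUp l' u at h'
    obtain ⟨w, rfl⟩ := h
    exact absurd h' (by simp [isUp])
  · obtain ⟨w, rfl⟩ := h
    obtain ⟨w', h'⟩ := h'
    exact absurd h' (by simp)
  · obtain ⟨w, rfl⟩ := h
    obtain ⟨w', h'⟩ := h'
    rw [(dnb.inj h').1]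

theorem word_smul (f : Module.End k (Wd L →₀ k)) (t : Wd L →₀ k) : f • t = f t := rfl

theorem pr0_eq (l : L) : (wordFrame sh g k).pr l 0 = lc k (opE sh g k (sh.v l)) := rfl
theorem pr1_eq (l : L) : (wordFrame sh g k).pr l 1 = lc k (opDna sh g k l) := rfl
theorem pr2_eq (l : L) : (wordFrame sh g k).pr l 2 = lc k (opDnb sh g k l) := rfl
theorem inj0_eq (l : L) : (wordFrame sh g k).inj l 0 = lc k (opE sh g k (sh.v l)) := rfl
theorem inj1_eq (l : L) : (wordFrame sh g k).inj l 1 = lc k (opUpa sh g k l) := rfl
theorem inj2_eq (l : L) : (wordFrame sh g k).inj l 2 = lc k (opUpb sh g k l) := rfl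
theorem e_eq (b : B) : (wordFrame sh g k).e b = lc k (opE sh g k b) := rfl

theorem upp_gd {l : L} {m : ℕ} {t : Wd L →₀ k}
    (ht : t ∈ upp (wordFrame sh g k) (wV sh g k m) l) :
    t ∈ Finsupp.supported k k (gd sh g l m m) := by
  rw [mem_upp] at ht
  obtain ⟨h1, h2⟩ := ht
  have h3 := h2 0
  rw [pr_zero_smul h1] at h3
  have h4 := h2 1
  rw [pr1_eq] at h4
  exact supp_of_dna h3 (by omega) h4

theorem upp_class {l : L} {n : ℕ} {t : Wd L →₀ k}
    (ht : t ∈ upp (wordFrame sh g k) (wV sh g k (n + 1)) l) (i : Fin 3) :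
    (wordFrame sh g k).pr l i • t ∈ Finsupp.supported k k {u | u.len ≤ n ∨ Kc (l, i) u} := by
  have hgd := upp_gd ht
  rw [mem_upp] at ht
  fin_cases i
  · change (wordFrame sh g k).pr l 0 • t ∈ Finsupp.supported k k {u | u.len ≤ n ∨ isUp l u}
    rw [pr_zero_smul ht.1]
    refine Finsupp.supported_mono (fun w hw => ?_) hgd
    obtain ⟨_, h2 | h2⟩ := hw
    · exact Or.inr h2.1
    · exact Or.inl (by omega)
  · change (lc k (opDna sh g k l)) t ∈ Finsupp.supported k k {u | u.len ≤ n ∨ ∃ w, u = dna l w}
    refine lc_mem _ _ _ (fun w hw => ?_) hgd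
    obtain ⟨hk, h2⟩ := hw
    rcases ok_v_cases hk with ⟨w', rfl, h'⟩ | ⟨w', rfl, h'⟩ | h'
    · rw [opDna_upa hk]
      refine Finsupp.single_mem_supported k _ (Or.inl ?_)
      rcases h2 with h2 | h2
      · have := h2.2; simp only [len] at this; omega
      · simp only [len] at h2; omega
    · rw [opDna_upb]; exact zero_mem _
    · rw [opDna_ok hk h']
      exact Finsupp.single_mem_supported k _ (Or.inr ⟨w, rfl⟩)
  · change (lc k (opDnb sh g k l)) t ∈ Finsupp.supported k k {u | u.len ≤ n ∨ ∃ w, u = dnb l w}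
    refine lc_mem _ _ _ (fun w hw => ?_) hgd
    obtain ⟨hk, h2⟩ := hw
    rcases ok_v_cases hk with ⟨w', rfl, h'⟩ | ⟨w', rfl, h'⟩ | h'
    · rw [opDnb_upa]; exact zero_mem _
    · rw [opDnb_upb hk]
      refine Finsupp.single_mem_supported k _ (Or.inl ?_)
      rcases h2 with h2 | h2
      · have := h2.2; simp only [len] at this; omega
      · simp only [len] at h2; omega
    · rw [opDnb_ok hk h']
      exact Finsupp.single_mem_supported k _ (Or.inr ⟨w, rfl⟩)

theorem wV_mono {n : ℕ} {b : B} {t : Wd L →₀ k} (ht : t ∈ wV sh g k n b) :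
    t ∈ wV sh g k (n + 1) b := by
  rw [mem_wV] at ht ⊢
  intro w hw
  exact ⟨(ht w hw).1, Nat.le_succ_of_le (ht w hw).2⟩

theorem lcE_of_wV {n : ℕ} {b : B} {t : Wd L →₀ k} (ht : t ∈ wV sh g k n b) :
    lc k (opE sh g k b) t = t := by
  refine lcE_of_supported ?_
  rw [mem_supported_iff]
  rw [mem_wV] at ht
  intro w hw
  exact (ht w hw).1

theorem side_false_cases (j : Fin 3) (h : side j = false) : j = 0 := by
  revert j; decide

theorem side_true_cases (j : Fin 3) (h : side j = true) : j = 1 ∨ j = 2 := by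
  revert j; decide

variable (sh g k)

/-- The good filtration of the word model. -/
noncomputable def wordFil : GoodFil k (wordFrame sh g k) (Wd L →₀ k) where
  V := wV sh g k
  le_obj n b t ht := by
    change lc k (opE sh g k b) t = t
    exact lcE_of_wV ht
  mono n b t ht := wV_mono ht
  pr_mem n l i t ht := by
    fin_cases i
    · change lc k (opE sh g k (sh.v l)) t ∈ wV sh g k (n + 1) (sh.v l)
      change t ∈ wV sh g k n (sh.v l) at ht
      rw [lcE_of_wV ht]
      exact wV_mono ht
    · change lc k (opDna sh g k l) t ∈ wV sh g k (n + 1) (sh.a l)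
      refine gd_dna (Finsupp.supported_mono (fun w hw => ?_) ht)
      exact ⟨hw.1, Or.inr (Nat.succ_le_succ hw.2)⟩
    · change lc k (opDnb sh g k l) t ∈ wV sh g k (n + 1) (sh.b l)
      refine gd_dnb (Finsupp.supported_mono (fun w hw => ?_) ht)
      exact ⟨hw.1, Or.inr (Nat.succ_le_succ hw.2)⟩
  inj_mem n l i t ht := by
    fin_cases i
    · change lc k (opE sh g k (sh.v l)) t ∈ wV sh g k (n + 1) (sh.v l)
      change t ∈ wV sh g k n (sh.v l) at ht
      rw [lcE_of_wV ht]
      exact wV_mono ht
    · change lc k (opUpa sh g k l) t ∈ wV sh g k (n + 1) (sh.v l)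
      refine lc_mem _ _ _ (fun w hw => ?_) ht
      rw [opUpa_ok hw.1]
      exact single_mem_wV (ok_upa hw.1) (Nat.succ_le_succ hw.2)
    · change lc k (opUpb sh g k l) t ∈ wV sh g k (n + 1) (sh.v l)
      refine lc_mem _ _ _ (fun w hw => ?_) ht
      obtain ⟨hk, hl⟩ := hw
      change ok sh g w (sh.b l) at hk
      by_cases h' : isDnb l w
      · obtain ⟨w', rfl⟩ := (isDnb_iff l w).mp h'
        rw [opUpb_dnb hk]
        simp only [len] at hl
        refine sub_mem (single_mem_wV hk.2.1 (by omega))
          (single_mem_wV (ok_upa (ok_dna hk.2.1 hk.2.2)) ?_)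
        simp only [len]
        omega
      · rw [opUpb_ok hk h']
        exact single_mem_wV (ok_upb hk h') (Nat.succ_le_succ hl)
  zero l t ht := by
    have h := upp_gd ht
    rw [mem_supported_iff] at h
    ext w
    by_contra hw
    obtain ⟨_, h2 | h2⟩ := h w hw
    · obtain ⟨h3, h4⟩ := h2
      rw [isUp_iff] at h3
      rcases h3 with ⟨w', rfl⟩ | ⟨w', rfl⟩
      · simp only [len] at h4; omega
      · simp only [len] at h4; omega
    · omega
  exh b t ht := by
    have h1 : t ∈ Finsupp.supported k k {w | ok sh g w b} := by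
      have h2 := lcE_mem_supported (sh := sh) (g := g) b t
      have h3 : lc k (opE sh g k b) t = t := ht
      rwa [h3] at h2
    refine ⟨t.support.sup len, ?_⟩
    rw [mem_wV]
    intro w hw
    exact ⟨(mem_supported_iff.mp h1) w hw, Finset.le_sup (f := len)
      (Finsupp.mem_support_iff.mpr hw)⟩
  indep n b x hx htgt hsum := by
    -- top degree parts vanish
    have htop : ∀ s u, n < u.len → ((wordFrame sh g k).pr s.1 s.2 • x s) u = 0 := by
      intro s0 u hu
      by_cases hK : Kc s0 u
      · have h1 : (prSum k (wordFrame sh g k) (Wd L →₀ k) x) u = 0 := by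
          by_contra h
          have := ((mem_wV.mp hsum) u h).2
          omega
        rw [prSum_apply, Finsupp.sum, Finsupp.finsetSum_apply] at h1
        rw [Finset.sum_eq_single s0] at h1
        · exact h1
        · intro s _ hs
          have h2 := mem_supported_iff.mp (upp_class (hx s) s.2)
          by_contra h3
          rcases h2 u h3 with h4 | h4
          · change u.len ≤ n at h4; omega
          · exact hs (Kc_disjoint (s := (s.1, s.2)) h4 hK)
        · intro hs
          rw [Finsupp.notMem_support_iff] at hs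
          rw [hs, smul_zero]; rfl
      · have h2 := mem_supported_iff.mp (upp_class (hx s0) s0.2)
        by_contra h3
        rcases h2 u h3 with h4 | h4
        · change u.len ≤ n at h4; omega
        · exact hK h4
    have hmem : ∀ s, (wordFrame sh g k).pr s.1 s.2 • x s ∈ wV sh g k n (sh.tgt s.1 s.2) := by
      intro s
      have h1 := (mem_upp.mp (hx s)).2 s.2
      rw [mem_wV] at h1 ⊢
      intro u hu
      refine ⟨(h1 u hu).1, ?_⟩
      by_contra h
      exact hu (htop s u (by omega))
    intro s
    obtain ⟨l, i⟩ := s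
    have hxs := mem_upp.mp (hx (l, i))
    have hV : x (l, i) ∈ wV sh g k (n + 1) (sh.v l) := by
      have := hxs.2 0
      rwa [pr_zero_smul hxs.1] at this
    have hm := hmem (l, i)
    refine ⟨hxs.1, ?_⟩
    fin_cases i
    · intro j hj
      have : j = 0 := side_false_cases j hj
      subst this
      exact hm
    · have hm' : lc k (opDna sh g k l) (x (l, 1)) ∈ wV sh g k n (sh.a l) := hm
      have hg : x (l, 1) ∈ Finsupp.supported k k (gd sh g l n (n + 1)) :=
        supp_of_dna hV (by omega) hm'
      intro j hj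
      have : j = 1 ∨ j = 2 := side_true_cases j hj
      rcases this with rfl | rfl
      · exact hm
      · exact gd_dnb hg
    · have hm' : lc k (opDnb sh g k l) (x (l, 2)) ∈ wV sh g k n (sh.b l) := hm
      have hg : x (l, 2) ∈ Finsupp.supported k k (gd sh g l n (n + 1)) :=
        supp_of_dnb hV hm'
      intro j hj
      have : j = 1 ∨ j = 2 := side_true_cases j hj
      rcases this with rfl | rfl
      · exact gd_dna hg
      · exact hm

end Fil

end Pool.Agent.Lib_helper8.Berg
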