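import Pool.Agent.Lib_helper8.Berg.Frame

/-!
Finite families of elements, elementary moves and measure-minimal families.
-/

set_option linter.unusedSectionVars false

namespace Pool.Agent.Lib_helper8.Berg

universe u1 u2 u3 u4 u5 u6

variable {B : Type u1} {L : Type u2} {sh : Shape B L}
variable {k : Type u3} [Field k] {R : Type u4} [Ring R] [Algebra k R]

/-- Idempotent of an object or of the zero object. -/
def Frame.eo (F : Frame sh R) : Option B → R
  | none => 0
  | some b => F.e b

@[simp] theorem Frame.eo_none (F : Frame sh R) : F.eo none = 0 := rfl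
@[simp] theorem Frame.eo_some (F : Frame sh R) (b : B) : F.eo (some b) = F.e b := rfl

theorem Frame.eo_mul_eo (F : Frame sh R) (o : Option B) : F.eo o * F.eo o = F.eo o := by
  cases o with
  | none => simp
  | some b => exact F.e_mul_e b

variable (F : Frame sh R)
variable (M : Type u5) [AddCommGroup M] [Module k M] [Module R M] [IsScalarTower k R M]

/-- A finite family of typed elements of `M`, indexed by the natural numbers. -/
structure Fam where
  b : ℕ → Option B
  m : ℕ → M
  bound : ℕ
  hb : ∀ j, bound ≤ j → b j = none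
  hm : ∀ j, F.eo (b j) • m j = m j

variable {F M}

theorem Fam.m_eq_zero (x : Fam F M) {j : ℕ} (h : x.b j = none) : x.m j = 0 := by
  have := x.hm j
  rw [h] at this
  simpa using this.symm

theorem Fam.m_eq_zero' (x : Fam F M) {j : ℕ} (h : x.bound ≤ j) : x.m j = 0 :=
  x.m_eq_zero (x.hb j h)

/-- The free module on the types `b`, inside the finitely supported functions. -/
def sp (F : Frame sh R) (b : ℕ → Option B) : Submodule R (ℕ →₀ R) where
  carrier := {r | ∀ j, r j * F.eo (b j) = r j}
  add_mem' := by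
    intro r s hr hs j
    rw [Finsupp.add_apply, add_mul, hr j, hs j]
  zero_mem' := by intro j; simp
  smul_mem' := by
    intro c r hr j
    rw [Finsupp.smul_apply, smul_eq_mul, mul_assoc, hr j]

theorem mem_sp {b : ℕ → Option B} {r : ℕ →₀ R} : r ∈ sp F b ↔ ∀ j, r j * F.eo (b j) = r j :=
  Iff.rfl

/-- The map from the free module. -/
noncomputable def Phi (m : ℕ → M) : (ℕ →₀ R) →ₗ[R] M := Finsupp.linearCombination R m

theorem Phi_apply (m : ℕ → M) (r : ℕ →₀ R) : Phi (R := R) m r = r.sum fun j c => c • m j := by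
  rw [Phi, Finsupp.linearCombination_apply]

@[simp] theorem Phi_single (m : ℕ → M) (j : ℕ) (c : R) :
    Phi (R := R) m (Finsupp.single j c) = c • m j := by
  rw [Phi, Finsupp.linearCombination_single]

theorem single_mem_sp {b : ℕ → Option B} (j : ℕ) : Finsupp.single j (F.eo (b j)) ∈ sp F b := by
  intro i
  rw [Finsupp.single_apply]
  split_ifs with h
  · subst h; exact F.eo_mul_eo _
  · simp

variable {T : Type u6} [AddCommMonoid T] (τ : B → T)

/-- The class of an object or of the zero object. -/
def tau (o : Option B) : T := o.elim 0 τ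

@[simp] theorem tau_none : tau τ none = 0 := rfl
@[simp] theorem tau_some (b : B) : tau τ (some b) = τ b := rfl

/-- The class of a family. -/
def Fam.cls (x : Fam F M) : T := ∑ j ∈ Finset.range x.bound, tau τ (x.b j)

theorem Fam.cls_eq (x : Fam F M) {n : ℕ} (hn : x.bound ≤ n) :
    ∑ j ∈ Finset.range n, tau τ (x.b j) = x.cls τ := by
  unfold Fam.cls
  symm
  apply Finset.sum_subset
  · intro j hj
    rw [Finset.mem_range] at *
    omega
  · intro j _ hj
    rw [Finset.mem_range, not_lt] at hj
    rw [x.hb j hj, tau_none]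

/-- Equivalence of families by a change of basis. -/
def Rel (x y : Fam F M) : Prop :=
  (∃ θ θ' : (ℕ →₀ R) →ₗ[R] (ℕ →₀ R),
    (∀ r ∈ sp F x.b, θ r ∈ sp F y.b ∧ θ' (θ r) = r ∧ Phi y.m (θ r) = Phi x.m r) ∧
    (∀ r ∈ sp F y.b, θ' r ∈ sp F x.b ∧ θ (θ' r) = r ∧ Phi x.m (θ' r) = Phi y.m r)) ∧
  x.cls τ = y.cls τ

theorem Rel.refl (x : Fam F M) : Rel τ x x :=
  ⟨⟨LinearMap.id, LinearMap.id, fun _ hr => ⟨hr, rfl, rfl⟩, fun _ hr => ⟨hr, rfl, rfl⟩⟩, rfl⟩

theorem Rel.symm {x y : Fam F M} (h : Rel τ x y) : Rel τ y x := by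
  obtain ⟨⟨θ, θ', h1, h2⟩, h3⟩ := h
  exact ⟨⟨θ', θ, h2, h1⟩, h3.symm⟩

theorem Rel.trans {x y z : Fam F M} (h : Rel τ x y) (h' : Rel τ y z) : Rel τ x z := by
  obtain ⟨⟨θ, θ', h1, h2⟩, h3⟩ := h
  obtain ⟨⟨η, η', h1', h2'⟩, h3'⟩ := h'
  refine ⟨⟨η ∘ₗ θ, θ' ∘ₗ η', fun r hr => ?_, fun r hr => ?_⟩, h3.trans h3'⟩
  · obtain ⟨a1, a2, a3⟩ := h1 r hr
    obtain ⟨b1, b2, b3⟩ := h1' _ a1
    refine ⟨b1, ?_, ?_⟩
    · simp only [LinearMap.comp_apply]
      rw [b2, a2]
    · simp only [LinearMap.comp_apply]
      rw [b3, a3]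
  · obtain ⟨a1, a2, a3⟩ := h2' r hr
    obtain ⟨b1, b2, b3⟩ := h2 _ a1
    refine ⟨b1, ?_, ?_⟩
    · simp only [LinearMap.comp_apply]
      rw [b2, a2]
    · simp only [LinearMap.comp_apply]
      rw [b3, a3]

/-- Change of basis given by explicit new and old basis elements. -/
theorem Rel.of_basis {x y : Fam F M} (u u' : ℕ → (ℕ →₀ R))
    (hu : ∀ j, u j ∈ sp F x.b)
    (huf : ∀ j, Phi x.m (u j) = y.m j)
    (hu' : ∀ j, u' j ∈ sp F y.b)
    (h1 : ∀ j, Finsupp.linearCombination R u' (u j) = Finsupp.single j (F.eo (y.b j)))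
    (h2 : ∀ j, Finsupp.linearCombination R u (u' j) = Finsupp.single j (F.eo (x.b j)))
    (hcls : x.cls τ = y.cls τ) : Rel τ x y := by
  have key : ∀ (c : ℕ → Option B) (w w' : ℕ → (ℕ →₀ R)),
      (∀ j, Finsupp.linearCombination R w (w' j) = Finsupp.single j (F.eo (c j))) →
      ∀ r ∈ sp F c, Finsupp.linearCombination R w (Finsupp.linearCombination R w' r) = r := by
    intro c w w' h r hr
    rw [Finsupp.linearCombination_apply (R := R) (v := w') (l := r), Finsupp.sum, map_sum]
    have : ∀ j ∈ r.support, Finsupp.linearCombination R w (r j • w' j) = Finsupp.single j (r j) := by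
      intro j _
      rw [map_smul, h j, Finsupp.smul_single, smul_eq_mul, hr j]
    rw [Finset.sum_congr rfl this]
    exact Finsupp.sum_single r
  have keyf : ∀ r, Phi x.m (Finsupp.linearCombination R u r) = Phi y.m r := by
    intro r
    rw [Finsupp.linearCombination_apply, Finsupp.sum, map_sum, Phi_apply, Finsupp.sum]
    refine Finset.sum_congr rfl fun j _ => ?_
    rw [map_smul, huf j]
  have memu : ∀ r, Finsupp.linearCombination R u r ∈ sp F x.b := by
    intro r
    rw [Finsupp.linearCombination_apply]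
    exact sum_mem fun j _ => Submodule.smul_mem _ _ (hu j)
  have memu' : ∀ r, Finsupp.linearCombination R u' r ∈ sp F y.b := by
    intro r
    rw [Finsupp.linearCombination_apply]
    exact sum_mem fun j _ => Submodule.smul_mem _ _ (hu' j)
  refine ⟨⟨Finsupp.linearCombination R u', Finsupp.linearCombination R u, fun r hr => ?_,
    fun r hr => ?_⟩, hcls⟩
  · have h3 := key x.b u u' h2 r hr
    refine ⟨memu' r, h3, ?_⟩
    rw [← keyf, h3]
  · exact ⟨memu r, key y.b u' u h1 r hr, keyf r⟩

/-- First move: transvection. -/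
theorem exists_T1 (x : Fam F M) (i0 : ℕ) (β : B) (hi0 : x.b i0 = some β) (s : ℕ →₀ R)
    (hs : s ∈ sp F x.b) (hes : F.e β • s = s) (c : k) (hc : c ≠ 0)
    (hsi : s i0 = c • F.e β) :
    ∃ y : Fam F M, Rel τ x y ∧ y.b = x.b ∧ y.bound = x.bound ∧
      y.m = Function.update x.m i0 (Phi x.m s) := by
  classical
  let δ : ℕ →₀ R := Finsupp.single i0 (F.e β)
  have hδ : δ ∈ sp F x.b := by
    have := single_mem_sp (F := F) (b := x.b) i0
    rw [hi0] at this
    exact this
  have heδ : F.e β • δ = δ := by
    simp only [δ, Finsupp.smul_single, smul_eq_mul, F.e_mul_e]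
  let y : Fam F M :=
    { b := x.b
      m := Function.update x.m i0 (Phi x.m s)
      bound := x.bound
      hb := x.hb
      hm := by
        intro j
        by_cases hj : j = i0
        · subst hj
          rw [Function.update_self, hi0, Frame.eo_some, ← map_smul, hes]
        · rw [Function.update_of_ne hj, x.hm j] }
  refine ⟨y, ?_, rfl, rfl, rfl⟩
  let u : ℕ → (ℕ →₀ R) := fun j => if j = i0 then s else Finsupp.single j (F.eo (x.b j))
  let u' : ℕ → (ℕ →₀ R) := fun j =>
    if j = i0 then δ - c⁻¹ • (s - δ) else Finsupp.single j (F.eo (x.b j))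
  have hu : ∀ j, u j ∈ sp F x.b := by
    intro j
    by_cases hj : j = i0
    · simp only [u, hj, if_true]; exact hs
    · simp only [u, hj, if_false]; exact single_mem_sp j
  have hksp : ∀ (c : k) (r : ℕ →₀ R), r ∈ sp F x.b → c • r ∈ sp F x.b := by
    intro c r hr j
    rw [Finsupp.smul_apply, smul_mul_assoc, hr j]
  have hu' : ∀ j, u' j ∈ sp F x.b := by
    intro j
    by_cases hj : j = i0
    · simp only [u', hj, if_true]
      exact sub_mem hδ (hksp _ _ (sub_mem hs hδ))
    · simp only [u', hj, if_false]; exact single_mem_sp j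
  have hsingle_e : ∀ j, F.eo (x.b j) • (Finsupp.single j (F.eo (x.b j)) : ℕ →₀ R)
      = Finsupp.single j (F.eo (x.b j)) := by
    intro j
    rw [Finsupp.smul_single, smul_eq_mul, F.eo_mul_eo]
  -- general formula for linear combinations
  have hlc : ∀ (w : ℕ →₀ R) (hw : ∀ j, j ≠ i0 → True) (z : ℕ → (ℕ →₀ R)) (t : ℕ →₀ R),
      (∀ j, j ≠ i0 → z j = Finsupp.single j (F.eo (x.b j))) → t ∈ sp F x.b →
      Finsupp.linearCombination R z t = t + t i0 • (z i0 - δ) := by
    intro w hw z t hz ht
    rw [Finsupp.linearCombination_apply]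
    have h1 : t = t.sum fun j c => Finsupp.single j c := (Finsupp.sum_single t).symm
    have h2 : (t.sum fun j c => c • z j) - (t.sum fun j c => Finsupp.single j c)
        = t i0 • (z i0 - δ) := by
      rw [← Finsupp.sum_sub, Finsupp.sum]
      rw [Finset.sum_eq_single i0]
      · rw [smul_sub]
        congr 1
        simp only [δ]
        rw [Finsupp.smul_single, smul_eq_mul]
        have := ht i0
        rw [hi0, Frame.eo_some] at this
        rw [this]
      · intro j _ hj
        rw [hz j hj, Finsupp.smul_single, smul_eq_mul, ht j, sub_self]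
      · intro h0
        rw [Finsupp.notMem_support_iff] at h0
        simp [h0]
    rw [← h1] at h2
    rw [← h2]
    abel
  have hlu : ∀ t ∈ sp F x.b, Finsupp.linearCombination R u t = t + t i0 • (s - δ) := by
    intro t ht
    have := hlc 0 (fun _ _ => trivial) u t (fun j hj => by simp [u, hj]) ht
    rw [this]
    simp [u]
  have hlu' : ∀ t ∈ sp F x.b,
      Finsupp.linearCombination R u' t = t - c⁻¹ • (t i0 • (s - δ)) := by
    intro t ht
    have := hlc 0 (fun _ _ => trivial) u' t (fun j hj => by simp [u', hj]) ht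
    rw [this]
    simp only [u', if_true]
    rw [sub_sub_cancel_left, smul_neg, smul_comm (t i0) c⁻¹ (s - δ)]
    abel
  have hes' : F.e β • (s - δ) = s - δ := by rw [smul_sub, hes, heδ]
  have hδi : δ i0 = F.e β := by simp [δ]
  refine Rel.of_basis τ u u' hu ?_ hu' ?_ ?_ rfl
  · intro j
    change Phi x.m (u j) = Function.update x.m i0 (Phi x.m s) j
    by_cases hj : j = i0
    · subst hj
      simp [u]
    · rw [Function.update_of_ne hj]
      simp only [u, hj, if_false, Phi_single]
      exact x.hm j
  · intro j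
    change _ = Finsupp.single j (F.eo (x.b j))
    rw [hlu' _ (hu j)]
    by_cases hj : j = i0
    · subst hj
      simp only [u, if_true, hi0, Frame.eo_some]
      rw [hsi, smul_assoc, hes', inv_smul_smul₀ hc]
      simp [δ]
    · have : (u j) i0 = 0 := by
        simp [u, hj]
      rw [this, zero_smul, smul_zero, sub_zero]
      simp [u, hj]
  · intro j
    rw [hlu _ (hu' j)]
    by_cases hj : j = i0
    · subst hj
      simp only [u', if_true, hi0, Frame.eo_some]
      have h3 : (δ - c⁻¹ • (s - δ)) j = c⁻¹ • F.e β := by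
        rw [Finsupp.sub_apply, Finsupp.smul_apply, Finsupp.sub_apply, hδi, hsi, smul_sub,
          smul_smul, inv_mul_cancel₀ hc, one_smul]
        abel
      rw [h3, smul_assoc, hes']
      simp [δ]
    · have : (u' j) i0 = 0 := by
        simp [u', hj]
      rw [this, zero_smul, add_zero]
      simp [u', hj]

/-- Splitting a sum over a range into two distinguished indices and the rest. -/
theorem sum_two {A : Type*} [AddCommMonoid A] (g : ℕ → A) {n i j : ℕ} (hi : i < n) (hj : j < n)
    (hij : i ≠ j) : ∑ t ∈ Finset.range n, g t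
      = g i + (g j + ∑ t ∈ ((Finset.range n).erase i).erase j, g t) := by
  have h1 : i ∈ Finset.range n := Finset.mem_range.mpr hi
  have h2 : j ∈ (Finset.range n).erase i :=
    Finset.mem_erase.mpr ⟨hij.symm, Finset.mem_range.mpr hj⟩
  rw [← Finset.add_sum_erase _ _ h1, ← Finset.add_sum_erase _ _ h2]

theorem Fam.lt_bound (x : Fam F M) {j : ℕ} {β : B} (h : x.b j = some β) : j < x.bound := by
  by_contra h'
  rw [x.hb j (not_lt.mp h')] at h
  exact absurd h (by simp)

/-- Second move: merging. -/
theorem exists_T3 (hτ : ∀ l, τ (sh.v l) = τ (sh.a l) + τ (sh.b l))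
    (x : Fam F M) (l : L) (i0 j0 : ℕ) (hij : i0 ≠ j0)
    (hi0 : x.b i0 = some (sh.a l)) (hj0 : x.b j0 = some (sh.b l)) :
    ∃ y : Fam F M, Rel τ x y ∧ y.b = Function.update (Function.update x.b i0 (some (sh.v l))) j0 none
      ∧ y.bound = x.bound ∧
      y.m = Function.update (Function.update x.m i0
        (F.inj l 1 • x.m i0 + F.inj l 2 • x.m j0)) j0 0 := by
  classical
  have hji : j0 ≠ i0 := hij.symm
  let yb : ℕ → Option B := Function.update (Function.update x.b i0 (some (sh.v l))) j0 none
  let ym : ℕ → M := Function.update (Function.update x.m i0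
        (F.inj l 1 • x.m i0 + F.inj l 2 • x.m j0)) j0 0
  have yb_i : yb i0 = some (sh.v l) := by
    simp [yb, Function.update_of_ne hij]
  have yb_j : yb j0 = none := by simp [yb]
  have yb_o : ∀ j, j ≠ i0 → j ≠ j0 → yb j = x.b j := by
    intro j h1 h2
    simp [yb, Function.update_of_ne h1, Function.update_of_ne h2]
  have ym_i : ym i0 = F.inj l 1 • x.m i0 + F.inj l 2 • x.m j0 := by
    simp [ym, Function.update_of_ne hij]
  have ym_j : ym j0 = 0 := by simp [ym]
  have ym_o : ∀ j, j ≠ i0 → j ≠ j0 → ym j = x.m j := by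
    intro j h1 h2
    simp [ym, Function.update_of_ne h1, Function.update_of_ne h2]
  let y : Fam F M :=
    { b := yb
      m := ym
      bound := x.bound
      hb := by
        intro j hj
        have h1 : j ≠ i0 := by
          have := x.lt_bound hi0
          omega
        by_cases h2 : j = j0
        · rw [h2, yb_j]
        · rw [yb_o j h1 h2, x.hb j hj]
      hm := by
        intro j
        by_cases h1 : j = i0
        · subst h1
          rw [yb_i, ym_i, Frame.eo_some, smul_add, e_inj_smul, e_inj_smul]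
        · by_cases h2 : j = j0
          · subst h2
            rw [ym_j, smul_zero]
          · rw [yb_o j h1 h2, ym_o j h1 h2, x.hm j] }
  refine ⟨y, ?_, rfl, rfl, rfl⟩
  -- basis elements
  let u : ℕ → (ℕ →₀ R) := fun j =>
    if j = i0 then Finsupp.single i0 (F.inj l 1) + Finsupp.single j0 (F.inj l 2)
    else if j = j0 then 0 else Finsupp.single j (F.eo (x.b j))
  let u' : ℕ → (ℕ →₀ R) := fun j =>
    if j = i0 then Finsupp.single i0 (F.pr l 1)
    else if j = j0 then Finsupp.single i0 (F.pr l 2) else Finsupp.single j (F.eo (x.b j))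
  have u_i : u i0 = Finsupp.single i0 (F.inj l 1) + Finsupp.single j0 (F.inj l 2) := by simp [u]
  have u_j : u j0 = 0 := by simp [u, hji]
  have u_o : ∀ j, j ≠ i0 → j ≠ j0 → u j = Finsupp.single j (F.eo (x.b j)) := by
    intro j h1 h2; simp [u, h1, h2]
  have u'_i : u' i0 = Finsupp.single i0 (F.pr l 1) := by simp [u']
  have u'_j : u' j0 = Finsupp.single i0 (F.pr l 2) := by simp [u', hji]
  have u'_o : ∀ j, j ≠ i0 → j ≠ j0 → u' j = Finsupp.single j (F.eo (x.b j)) := by
    intro j h1 h2; simp [u', h1, h2]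
  have sp_single : ∀ (c : ℕ → Option B) (j : ℕ) (r : R), r * F.eo (c j) = r →
      Finsupp.single j r ∈ sp F c := by
    intro c j r hr i
    rw [Finsupp.single_apply]
    split_ifs with h
    · subst h; exact hr
    · simp
  refine Rel.of_basis τ u u' ?_ ?_ ?_ ?_ ?_ ?_
  · intro j
    by_cases h1 : j = i0
    · rw [h1, u_i]
      refine add_mem (sp_single _ _ _ ?_) (sp_single _ _ _ ?_)
      · rw [hi0]; exact F.inj_mul_e l 1
      · rw [hj0]; exact F.inj_mul_e l 2
    · by_cases h2 : j = j0
      · rw [h2, u_j]; exact zero_mem _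
      · rw [u_o j h1 h2]; exact single_mem_sp j
  · intro j
    change Phi x.m (u j) = ym j
    by_cases h1 : j = i0
    · rw [h1, u_i, ym_i, map_add, Phi_single, Phi_single]
    · by_cases h2 : j = j0
      · rw [h2, u_j, ym_j, map_zero]
      · rw [u_o j h1 h2, ym_o j h1 h2, Phi_single, x.hm j]
  · intro j
    change u' j ∈ sp F yb
    by_cases h1 : j = i0
    · rw [h1, u'_i]
      refine sp_single _ _ _ ?_
      rw [yb_i]; exact F.pr_mul_e l 1
    · by_cases h2 : j = j0
      · rw [h2, u'_j]
        refine sp_single _ _ _ ?_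
        rw [yb_i]; exact F.pr_mul_e l 2
      · rw [u'_o j h1 h2]
        refine sp_single _ _ _ ?_
        rw [yb_o j h1 h2, F.eo_mul_eo]
  · intro j
    change _ = Finsupp.single j (F.eo (yb j))
    by_cases h1 : j = i0
    · rw [h1, u_i, map_add, Finsupp.linearCombination_single, Finsupp.linearCombination_single,
        u'_i, u'_j, yb_i, Frame.eo_some, Finsupp.smul_single, Finsupp.smul_single,
        ← Finsupp.single_add, smul_eq_mul, smul_eq_mul, F.sum_12]
    · by_cases h2 : j = j0
      · rw [h2, u_j, map_zero, yb_j, Frame.eo_none, Finsupp.single_zero]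
      · rw [u_o j h1 h2, Finsupp.linearCombination_single, u'_o j h1 h2, yb_o j h1 h2,
          Finsupp.smul_single, smul_eq_mul, F.eo_mul_eo]
  · intro j
    by_cases h1 : j = i0
    · rw [h1, u'_i, Finsupp.linearCombination_single, u_i, hi0, smul_add, Finsupp.smul_single,
        Finsupp.smul_single, smul_eq_mul, smul_eq_mul, F.pr_mul_inj_same, F.pr_mul_inj_12,
        Finsupp.single_zero, add_zero]
      rfl
    · by_cases h2 : j = j0
      · rw [h2, u'_j, Finsupp.linearCombination_single, u_i, hj0, smul_add, Finsupp.smul_single,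
          Finsupp.smul_single, smul_eq_mul, smul_eq_mul, F.pr_mul_inj_same, F.pr_mul_inj_21,
          Finsupp.single_zero, zero_add]
        rfl
      · rw [u'_o j h1 h2, Finsupp.linearCombination_single, u_o j h1 h2, Finsupp.smul_single,
          smul_eq_mul, F.eo_mul_eo]
  · change ∑ j ∈ Finset.range x.bound, tau τ (x.b j) = ∑ j ∈ Finset.range x.bound, tau τ (yb j)
    rw [sum_two _ (x.lt_bound hi0) (x.lt_bound hj0) hij,
      sum_two (fun j => tau τ (yb j)) (x.lt_bound hi0) (x.lt_bound hj0) hij]
    rw [yb_i, yb_j, hi0, hj0, tau_some, tau_some, tau_some, tau_none, zero_add, hτ l, add_assoc]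
    congr 2
    refine Finset.sum_congr rfl fun t ht => ?_
    rw [Finset.mem_erase, Finset.mem_erase] at ht
    rw [yb_o t ht.2.1 ht.1]

/-- Third move: splitting into a fresh slot. -/
theorem exists_T2 (hτ : ∀ l, τ (sh.v l) = τ (sh.a l) + τ (sh.b l))
    (x : Fam F M) (l : L) (i0 : ℕ) (hi0 : x.b i0 = some (sh.v l)) :
    ∃ y : Fam F M, Rel τ x y ∧
      y.b = Function.update (Function.update x.b i0 (some (sh.a l))) x.bound (some (sh.b l))
      ∧ y.bound = x.bound + 1 ∧
      y.m = Function.update (Function.update x.m i0 (F.pr l 1 • x.m i0)) x.bound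
        (F.pr l 2 • x.m i0) := by
  classical
  have hlt := x.lt_bound hi0
  have hij : i0 ≠ x.bound := hlt.ne
  have hv : F.e (sh.v l) • x.m i0 = x.m i0 := by
    have := x.hm i0
    rwa [hi0, Frame.eo_some] at this
  let yb : ℕ → Option B :=
    Function.update (Function.update x.b i0 (some (sh.a l))) x.bound (some (sh.b l))
  let ym : ℕ → M := Function.update (Function.update x.m i0 (F.pr l 1 • x.m i0)) x.bound
        (F.pr l 2 • x.m i0)
  have yb_i : yb i0 = some (sh.a l) := by
    simp [yb, Function.update_of_ne hij]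
  have yb_j : yb x.bound = some (sh.b l) := by simp [yb]
  have yb_o : ∀ j, j ≠ i0 → j ≠ x.bound → yb j = x.b j := by
    intro j h1 h2
    simp [yb, Function.update_of_ne h1, Function.update_of_ne h2]
  have ym_i : ym i0 = F.pr l 1 • x.m i0 := by
    simp [ym, Function.update_of_ne hij]
  have ym_j : ym x.bound = F.pr l 2 • x.m i0 := by simp [ym]
  have ym_o : ∀ j, j ≠ i0 → j ≠ x.bound → ym j = x.m j := by
    intro j h1 h2
    simp [ym, Function.update_of_ne h1, Function.update_of_ne h2]
  let y : Fam F M :=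
    { b := yb
      m := ym
      bound := x.bound + 1
      hb := by
        intro j hj
        rw [yb_o j (by omega) (by omega), x.hb j (by omega)]
      hm := by
        intro j
        by_cases h1 : j = i0
        · subst h1
          rw [yb_i, ym_i, Frame.eo_some]
          exact e_pr_smul l 1 _
        · by_cases h2 : j = x.bound
          · rw [h2, yb_j, ym_j, Frame.eo_some]
            exact e_pr_smul l 2 _
          · rw [yb_o j h1 h2, ym_o j h1 h2, x.hm j] }
  refine ⟨y, ?_, rfl, rfl, rfl⟩
  obtain ⟨z, hz, hzb, hzbd, hzm⟩ := exists_T3 τ hτ y l i0 x.bound hij yb_i yb_j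
  have hb : z.b = x.b := by
    funext j
    rw [hzb]
    by_cases h2 : j = x.bound
    · rw [h2, Function.update_self, x.hb _ le_rfl]
    · rw [Function.update_of_ne h2]
      by_cases h1 : j = i0
      · rw [h1, Function.update_self, hi0]
      · rw [Function.update_of_ne h1]
        exact yb_o j h1 h2
  have hm : z.m = x.m := by
    funext j
    rw [hzm]
    by_cases h2 : j = x.bound
    · rw [h2, Function.update_self, x.m_eq_zero' le_rfl]
    · rw [Function.update_of_ne h2]
      by_cases h1 : j = i0
      · rw [h1, Function.update_self]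
        change F.inj l 1 • ym i0 + F.inj l 2 • ym x.bound = _
        rw [ym_i, ym_j]
        exact (eq_sum_12 hv).symm
      · rw [Function.update_of_ne h1]
        exact ym_o j h1 h2
  have hyx : Rel τ y x := by
    obtain ⟨⟨θ, θ', h1, h2⟩, h3⟩ := hz
    rw [hb, hm] at h1 h2
    refine ⟨⟨θ, θ', h1, h2⟩, h3.trans ?_⟩
    rw [← z.cls_eq τ le_rfl, ← x.cls_eq τ (n := z.bound) (by rw [hzbd]; exact Nat.le_succ _), hb]
  exact hyx.symm

end Pool.Agent.Lib_helper8.Berg
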