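import Pool.Agent.Lib_helper8.Berg.Minimal
import Pool.Agent.Lib_helper8.Berg.Model

/-!
Pulling back good filtrations; injectivity on free modules.
-/

set_option linter.unusedSectionVars false

namespace Pool.Agent.Lib_helper8.Berg

universe u1 u2 u3 u4 u5 u6 u7

section Pull

variable {B : Type u1} {L : Type u2} {sh : Shape B L}
variable {k : Type u3} [Field k]
variable {R : Type u4} [Ring R] [Algebra k R] {F : Frame sh R}
variable {W : Type u5} [AddCommGroup W] [Module k W] [Module R W] [IsScalarTower k R W]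
variable {R' : Type u6} [Ring R'] [Algebra k R'] {F' : Frame sh R'}
variable {W' : Type u7} [AddCommGroup W'] [Module k W'] [Module R' W'] [IsScalarTower k R' W']

/-- Maps of frames modules along which good filtrations can be pulled back. -/
structure PullMap (k : Type u3) [Field k] [Algebra k R] [Algebra k R']
    (F : Frame sh R) (F' : Frame sh R')
    (W : Type u5) [AddCommGroup W] [Module k W] [Module R W] [IsScalarTower k R W]
    (W' : Type u7) [AddCommGroup W'] [Module k W'] [Module R' W'] [IsScalarTower k R' W'] where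
  h : B → (W →ₗ[k] W')
  h_obj : ∀ b w, F.e b • w = w → F'.e b • h b w = h b w
  h_inj : ∀ b w, F.e b • w = w → h b w = 0 → w = 0
  h_pr : ∀ l i w, F.e (sh.v l) • w = w → h (sh.tgt l i) (F.pr l i • w) = F'.pr l i • h (sh.v l) w
  h_ij : ∀ l i w, F.e (sh.tgt l i) • w = w →
    h (sh.v l) (F.inj l i • w) = F'.inj l i • h (sh.tgt l i) w

/-- Pullback of the spaces. -/
def pullV (P : PullMap k F F' W W') (V : B → Submodule k W') (b : B) : Submodule k W :=
  obj k F W b ⊓ (V b).comap (P.h b)

theorem mem_pullV {P : PullMap k F F' W W'} {V : B → Submodule k W'} {b : B} {w : W} :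
    w ∈ pullV P V b ↔ F.e b • w = w ∧ P.h b w ∈ V b := by
  unfold pullV
  rw [Submodule.mem_inf, mem_obj, Submodule.mem_comap]

theorem low_pull {P : PullMap k F F' W W'} {V : B → Submodule k W'} {l : L} {ε : Bool} {w : W} :
    w ∈ low F (pullV P V) l ε ↔ F.e (sh.v l) • w = w ∧ P.h (sh.v l) w ∈ low F' V l ε := by
  constructor
  · rintro ⟨h1, h2⟩
    refine ⟨h1, P.h_obj _ _ h1, fun i hi => ?_⟩
    rw [← P.h_pr l i w h1]
    exact (mem_pullV.mp (h2 i hi)).2
  · rintro ⟨h1, h2⟩
    refine ⟨h1, fun i hi => ?_⟩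
    rw [mem_pullV]
    refine ⟨e_pr_smul l i w, ?_⟩
    rw [P.h_pr l i w h1]
    exact h2.2 i hi

theorem upp_pull {P : PullMap k F F' W W'} {V : B → Submodule k W'} {l : L} {w : W} :
    w ∈ upp F (pullV P V) l ↔ F.e (sh.v l) • w = w ∧ P.h (sh.v l) w ∈ upp F' V l := by
  unfold upp
  rw [Submodule.mem_inf, Submodule.mem_inf, low_pull, low_pull]
  tauto

/-- Pullback of a good filtration. -/
def pullFil (P : PullMap k F F' W W') (G : GoodFil k F' W') : GoodFil k F W where
  V n := pullV P (G.V n)
  le_obj n b w hw := (mem_pullV.mp hw).1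
  mono n b w hw := by
    rw [mem_pullV] at hw ⊢
    exact ⟨hw.1, G.mono _ _ _ hw.2⟩
  pr_mem n l i w hw := by
    rw [mem_pullV] at hw ⊢
    refine ⟨e_pr_smul l i w, ?_⟩
    rw [P.h_pr l i w hw.1]
    exact G.pr_mem _ _ _ _ hw.2
  inj_mem n l i w hw := by
    rw [mem_pullV] at hw ⊢
    refine ⟨e_inj_smul l i w, ?_⟩
    rw [P.h_ij l i w hw.1]
    exact G.inj_mem _ _ _ _ hw.2
  zero l w hw := by
    rw [upp_pull] at hw
    exact P.h_inj _ _ hw.1 (G.zero _ _ hw.2)
  exh b w hw := by
    obtain ⟨n, hn⟩ := G.exh b (P.h b w) (P.h_obj _ _ hw)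
    exact ⟨n, mem_pullV.mpr ⟨hw, hn⟩⟩
  indep n b x hx htgt hsum := by
    classical
    let x' : L × Fin 3 →₀ W' := Finsupp.onFinset x.support (fun s => P.h (sh.v s.1) (x s)) (by
      intro s hs
      rw [Finsupp.mem_support_iff]
      intro h
      apply hs
      rw [h, map_zero])
    have hx' : ∀ s, x' s = P.h (sh.v s.1) (x s) := fun s => rfl
    have hsupp : ∀ s, x' s ≠ 0 → x s ≠ 0 := by
      intro s hs h
      apply hs
      rw [hx', h, map_zero]
    have key := G.indep n b x' ?_ ?_ ?_
    · intro s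
      rw [low_pull]
      refine ⟨(mem_upp.mp (hx s)).1, ?_⟩
      have := key s
      rwa [hx'] at this
    · intro s
      rw [hx']
      exact (upp_pull.mp (hx s)).2
    · intro s hs
      exact htgt s (hsupp s hs)
    · have h1 : prSum k F' W' x' = P.h b (prSum k F W x) := by
        rw [prSum_apply, prSum_apply, Finsupp.sum, Finsupp.sum, map_sum]
        rw [Finset.sum_subset (s₂ := x.support)]
        · refine Finset.sum_congr rfl fun s hs => ?_
          rw [hx', ← P.h_pr s.1 s.2 (x s) (mem_upp.mp (hx s)).1]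
          rw [htgt s (Finsupp.mem_support_iff.mp hs)]
        · intro s hs
          rw [Finsupp.mem_support_iff] at hs ⊢
          exact hsupp s hs
        · intro s _ hs
          rw [Finsupp.notMem_support_iff] at hs
          rw [hs, smul_zero]
      rw [h1]
      exact (mem_pullV.mp hsum).2

end Pull

section Free

variable {B : Type u1} {L : Type u2} {sh : Shape B L}
variable {k : Type u3} [Field k] {R : Type u4} [Ring R] [Algebra k R]
variable {F : Frame sh R}

/-- Connectedness of a frame: all objects are reached from `star`. -/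
structure Conn (k : Type u3) [Field k] [Algebra k R] (F : Frame sh R) (star : B) : Prop where
  one : F.e star = 1
  gen : ∀ V : B → Submodule k (ℕ →₀ R),
    (∀ b w, w ∈ V b → F.e b • w = w) →
    (∀ l i w, w ∈ V (sh.v l) → F.pr l i • w ∈ V (sh.tgt l i)) →
    (∀ l i w, w ∈ V (sh.tgt l i) → F.inj l i • w ∈ V (sh.v l)) →
    (∀ b w, w ∈ V b → w ∈ V star) ∧ (∀ (r : R) w, w ∈ V star → r • w ∈ V star) ∧
    (∀ b w, w ∈ V star → F.e b • w ∈ V b)

variable {DV : ℕ → B → Submodule k (ℕ →₀ R)} {DE : ℕ → L → Submodule k (ℕ →₀ R)}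

/-- The union of the generated filtration. -/
def Vinf (F : Frame sh R) (DV : ℕ → B → Submodule k (ℕ →₀ R))
    (DE : ℕ → L → Submodule k (ℕ →₀ R)) (b : B) : Submodule k (ℕ →₀ R) where
  carrier := {w | ∃ n, w ∈ VN F DV DE n b}
  add_mem' := by
    rintro w w' ⟨n, hn⟩ ⟨n', hn'⟩
    exact ⟨max n n', add_mem (VN_mono (le_max_left _ _) b hn) (VN_mono (le_max_right _ _) b hn')⟩
  zero_mem' := ⟨0, zero_mem _⟩
  smul_mem' := by
    rintro c w ⟨n, hn⟩
    exact ⟨n, Submodule.smul_mem _ _ hn⟩

theorem Vinf_pr (hDV : ∀ n b w, w ∈ DV n b → F.e b • w = w) (l : L) (i : Fin 3) (w : ℕ →₀ R)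
    (hw : w ∈ Vinf F DV DE (sh.v l)) : F.pr l i • w ∈ Vinf F DV DE (sh.tgt l i) := by
  obtain ⟨n, hn⟩ := hw
  refine ⟨n + 1, VP_le_VN _ _ (pr_UN_mem n l i (low_le_UN n l false ⟨VN_e hDV n _ hn, ?_⟩))⟩
  intro j hj
  rw [side_false_cases j hj, pr_zero_smul (VN_e hDV n _ hn)]
  exact hn

theorem Vinf_inj (hDV : ∀ n b w, w ∈ DV n b → F.e b • w = w) (l : L) (i : Fin 3) (w : ℕ →₀ R)
    (hw : w ∈ Vinf F DV DE (sh.tgt l i)) : F.inj l i • w ∈ Vinf F DV DE (sh.v l) := by
  obtain ⟨n, hn⟩ := hw
  have he := VN_e hDV n _ hn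
  have hv : F.e (sh.v l) • F.inj l i • w = F.inj l i • w := e_inj_smul l i w
  have key : ∀ ε, F.inj l i • w ∈ low F (VN F DV DE n) l ε →
      F.inj l i • w ∈ Vinf F DV DE (sh.v l) := by
    intro ε h
    refine ⟨n + 1, VP_le_VN _ _ ?_⟩
    have := pr_UN_mem n l 0 (low_le_UN n l ε h)
    rwa [pr_zero_smul hv] at this
  have hii : F.pr l i • F.inj l i • w = w := by
    rw [smul_smul, F.pr_mul_inj_same, he]
  cases hi : side i
  · refine key false ⟨hv, fun j hj => ?_⟩
    rw [side_false_cases j hj]
    have hi0 := side_false_cases i hi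
    subst hi0
    rw [hii]; exact hn
  · refine key true ⟨hv, fun j hj => ?_⟩
    rcases side_true_cases j hj with rfl | rfl
    · rcases side_true_cases i hi with rfl | rfl
      · rw [hii]; exact hn
      · rw [smul_smul, F.pr_mul_inj_12, zero_smul]; exact zero_mem _
    · rcases side_true_cases i hi with rfl | rfl
      · rw [smul_smul, F.pr_mul_inj_21, zero_smul]; exact zero_mem _
      · rw [hii]; exact hn

variable {star : B}

theorem Conn.span_mem (C : Conn k F star) (hDV : ∀ n b w, w ∈ DV n b → F.e b • w = w)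
    {b : ℕ → Option B} {w : ℕ →₀ R} (hw : w ∈ sp F b)
    (hgen : ∀ j, w j ≠ 0 → ∃ β, b j = some β ∧ Finsupp.single j (F.e β) ∈ Vinf F DV DE β) :
    w ∈ Vinf F DV DE star := by
  obtain ⟨h1, h2, h3⟩ := C.gen (Vinf F DV DE) (fun b w hw => by
    obtain ⟨n, hn⟩ := hw
    exact VN_e hDV n _ hn) (Vinf_pr hDV) (Vinf_inj hDV)
  rw [← Finsupp.sum_single w, Finsupp.sum]
  refine sum_mem fun j hj => ?_
  obtain ⟨β, hβ, hm⟩ := hgen j (Finsupp.mem_support_iff.mp hj)
  have h4 := h2 (w j) _ (h1 β _ hm)
  rw [Finsupp.smul_single, smul_eq_mul] at h4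
  have h5 := hw j
  rw [hβ, Frame.eo_some] at h5
  rwa [h5] at h4

theorem Conn.e_mem (C : Conn k F star) (hDV : ∀ n b w, w ∈ DV n b → F.e b • w = w)
    {w : ℕ →₀ R} (hw : w ∈ Vinf F DV DE star) (β : B) : F.e β • w ∈ Vinf F DV DE β := by
  obtain ⟨h1, h2, h3⟩ := C.gen (Vinf F DV DE) (fun b w hw => by
    obtain ⟨n, hn⟩ := hw
    exact VN_e hDV n _ hn) (Vinf_pr hDV) (Vinf_inj hDV)
  exact h3 β w hw

variable {M : Type u4} [AddCommGroup M] [Module k M] [Module R M] [IsScalarTower k R M]
variable {G : GoodFil k F M} {x : Fam F M}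

theorem single_mem_Vinf (j : ℕ) (hj : x.m j ≠ 0) :
    ∃ β, x.b j = some β ∧ Finsupp.single j (F.e β) ∈ Vinf F (DVx G x) (DEx G x) β := by
  classical
  have hspec := lev_spec G (x.hm j) hj
  rcases hspec with ⟨n, β, h1, h2, h3⟩ | ⟨n, l, h1, h2, h3⟩
  · refine ⟨β, h2, n, DV_le_VN n β ?_⟩
    refine ⟨Finsupp.single j 1, fun i hi => ?_, fun i => ?_⟩
    · have : j = i := by
        by_contra h
        apply hi
        rw [Finsupp.single_eq_of_ne (Ne.symm h)]
      subst this
      exact ⟨hj, h1, h2⟩
    · rw [Finsupp.single_apply, Finsupp.single_apply]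
      split_ifs <;> simp
  · refine ⟨sh.v l, h2, ?_⟩
    cases n with
    | zero => exact absurd (G.zero l _ h3) hj
    | succ n =>
      have h4 : Finsupp.single j (F.e (sh.v l)) ∈ DEx G x (n + 1) l := by
        refine ⟨Finsupp.single j 1, fun i hi => ?_, fun i => ?_⟩
        · have : j = i := by
            by_contra h
            apply hi
            rw [Finsupp.single_eq_of_ne (Ne.symm h)]
          subst this
          exact ⟨hj, h1, h2, h3⟩
        · rw [Finsupp.single_apply, Finsupp.single_apply]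
          split_ifs <;> simp
      have h5 := UN_le_low (F := F) (DV := DVx G x) (DE := DEx G x)
        (fun n l w hw => cf_e hw) (n + 1) l false (DE_le_UN n l h4)
      have h6 := h5.2 0 rfl
      rw [pr_zero_smul h5.1] at h6
      exact ⟨n + 1, h6⟩

/-- Injectivity on the part of the free module where the family is nonzero. -/
theorem Conn.inj_strict (C : Conn k F star)
    (H : StrictHyp G (Phi (R := R) x.m) (DVx G x) (DEx G x)) {w : ℕ →₀ R} (hw : w ∈ sp F x.b)
    (hsupp : ∀ j, w j ≠ 0 → x.m j ≠ 0) (h0 : Phi x.m w = 0) : w = 0 := by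
  obtain ⟨n, hn⟩ := C.span_mem H.hDV hw (fun j hj => single_mem_Vinf j (hsupp j hj))
  exact H.inj_of_mem n star w hn h0

/-- Elements mapping to the bottom of the filtration are scalar combinations of generators. -/
theorem Conn.reflect_zero (C : Conn k F star)
    (H : StrictHyp G (Phi (R := R) x.m) (DVx G x) (DEx G x)) {w : ℕ →₀ R} (hw : w ∈ sp F x.b)
    (hsupp : ∀ j, w j ≠ 0 → x.m j ≠ 0) {β : B} (hβ : F.e β • w = w)
    (h0 : Phi x.m w ∈ G.V 0 β) : w ∈ DVx G x 0 β := by
  have h1 := C.span_mem H.hDV hw (fun j hj => single_mem_Vinf j (hsupp j hj))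
  have h2 := C.e_mem H.hDV h1 β
  rw [hβ] at h2
  obtain ⟨n, hn⟩ := h2
  exact H.reflect 0 n β w hn h0

/-- Families in the bottom of the filtration that are linearly independent in each type are
bases of free submodules. -/
theorem Conn.inj_init (C : Conn k F star) (G : GoodFil k F M) (b : ℕ → Option B) (m : ℕ → M)
    (hV : ∀ j β, b j = some β → m j ∈ G.V 0 β)
    (hind : ∀ β d, d ∈ cf k F (fun j => b j = some β) β → Phi m d = 0 → d = 0)
    {w : ℕ →₀ R} (hw : w ∈ sp F b) (h0 : Phi m w = 0) : w = 0 := by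
  classical
  let DV : ℕ → B → Submodule k (ℕ →₀ R) := fun n β =>
    match n with
    | 0 => cf k F (fun j => b j = some β) β
    | _ + 1 => ⊥
  let DE : ℕ → L → Submodule k (ℕ →₀ R) := fun _ _ => ⊥
  have hm : ∀ j β, b j = some β → F.e β • m j = m j := fun j β h => G.le_obj 0 β _ (hV j β h)
  have H : StrictHyp G (Phi (R := R) m) DV DE :=
    { hDV := by
        intro n β d hd
        cases n with
        | zero => exact cf_e hd
        | succ n => rw [(Submodule.mem_bot k).mp hd, smul_zero]
      hDE := by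
        intro n l d hd
        rw [(Submodule.mem_bot k).mp hd, smul_zero]
      fDV := by
        intro n β d hd
        cases n with
        | zero =>
          obtain ⟨c, h1, h2⟩ := hd
          rw [Phi_apply]
          refine sum_mem fun j _ => ?_
          change d j • m j ∈ _
          rw [h2]
          by_cases hc : c j = 0
          · rw [hc, zero_smul, zero_smul]; exact zero_mem _
          · rw [smul_assoc, hm j β (h1 j hc)]
            exact Submodule.smul_mem _ _ (hV j β (h1 j hc))
        | succ n => rw [(Submodule.mem_bot k).mp hd, map_zero]; exact zero_mem _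
      fDE := by
        intro n l d hd
        rw [(Submodule.mem_bot k).mp hd, map_zero]; exact zero_mem _
      c1 := by
        intro n β d w hd hw hf
        cases n with
        | zero =>
          have hw0 : w = 0 := by simpa [VP] using hw
          rw [hw0, add_zero] at hf
          exact hind β d hd (by simpa [GoodFil.prev] using hf)
        | succ n => exact (Submodule.mem_bot k).mp hd
      c23 := by
        intro n l ε w d q hw hd hq hdq hf i hi
        cases n with
        | zero =>
          have hq0 : q i = 0 := by simpa [VP] using hq i hi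
          have hf0 := G.zero l _ hf
          refine hind _ _ (hd i hi) ?_
          have h3 := hdq i hi
          rw [hq0, add_zero] at h3
          rw [← h3, map_smul, hf0, smul_zero]
        | succ n => exact (Submodule.mem_bot k).mp (hd i hi)
      c45 := by
        intro n l ε e p1 p2 he _ _ _
        exact (Submodule.mem_bot k).mp he }
  have h1 : w ∈ Vinf F DV DE star := by
    refine C.span_mem (b := b) H.hDV hw (fun j hj => ?_)
    cases hb : b j with
    | none =>
      have := hw j
      rw [hb, Frame.eo_none, mul_zero] at this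
      exact absurd this.symm hj
    | some β =>
      refine ⟨β, rfl, 0, ?_⟩
      change _ ∈ cf k F (fun j => b j = some β) β
      refine ⟨Finsupp.single j 1, fun i hi => ?_, fun i => ?_⟩
      · have : j = i := by
          by_contra h
          apply hi
          rw [Finsupp.single_eq_of_ne (Ne.symm h)]
        subst this
        exact hb
      · rw [Finsupp.single_apply, Finsupp.single_apply]
        split_ifs <;> simp
  obtain ⟨n, hn⟩ := h1
  exact H.inj_of_mem n star w hn h0

end Free

end Pool.Agent.Lib_helper8.Berg
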