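import Pool.Agent.Lib_helper8.Berg.AlgFrame

/-!
The star part of a framed module as a module over the algebra, and its good filtration.
-/

set_option linter.unusedSectionVars false

namespace Pool.Agent.Lib_helper8.Berg

universe u v w w'

section

variable {M : Type u} [AddCommMonoid M] {hM : ∀ x y : M, x + y = 0 → x = 0}
variable {k : Type v} [Field k]
variable {S : Type w} [Ring S] [Algebra k S] (F : Frame (shM hM) S)
variable (T : Type w') [AddCommGroup T] [Module k T] [Module S T] [IsScalarTower k S T]

/-- The star part of a framed module. -/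
def StarMod (k : Type v) [Field k] [Algebra k S] (F : Frame (shM hM) S)
    (T : Type w') [AddCommGroup T] [Module k T] [Module S T] [IsScalarTower k S T] : Type w' :=
  obj k F T Ob.star

noncomputable instance : AddCommGroup (StarMod k F T) :=
  inferInstanceAs (AddCommGroup (obj k F T Ob.star))

noncomputable instance : Module k (StarMod k F T) :=
  inferInstanceAs (Module k (obj k F T Ob.star))

/-- Inclusion. -/
def StarMod.incl : StarMod k F T →ₗ[k] T := (obj k F T Ob.star).subtype

variable {F T}

theorem StarMod.incl_mem (x : StarMod k F T) : F.e Ob.star • StarMod.incl F T x = StarMod.incl F T x :=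
  x.2

theorem StarMod.ext {x y : StarMod k F T} (h : StarMod.incl F T x = StarMod.incl F T y) : x = y :=
  Subtype.ext h

/-- Constructor. -/
def StarMod.mk (t : T) (ht : F.e Ob.star • t = t) : StarMod k F T := ⟨t, ht⟩

@[simp] theorem StarMod.incl_mk (t : T) (ht : F.e Ob.star • t = t) :
    StarMod.incl F T (StarMod.mk (k := k) t ht) = t := rfl

theorem toS_smul_mem (r : Alg k M) (t : T) (ht : F.e Ob.star • t = t) :
    F.e Ob.star • (toS F r • t) = toS F r • t := by
  rw [smul_smul, toS_comm, ← smul_smul, ht]

noncomputable instance : Module (Alg k M) (StarMod k F T) where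
  smul r x := StarMod.mk (toS F r • StarMod.incl F T x) (toS_smul_mem r _ x.incl_mem)
  one_smul x := by
    apply StarMod.ext
    change toS F (1 : Alg k M) • StarMod.incl F T x = _
    rw [map_one, one_smul]
  mul_smul r s x := by
    apply StarMod.ext
    change toS F (r * s) • StarMod.incl F T x = toS F r • (toS F s • StarMod.incl F T x)
    rw [map_mul, mul_smul]
  smul_zero r := by
    apply StarMod.ext
    change toS F r • StarMod.incl F T (0 : StarMod k F T) = StarMod.incl F T 0
    rw [map_zero, smul_zero]
  smul_add r x y := by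
    apply StarMod.ext
    change toS F r • StarMod.incl F T (x + y)
      = StarMod.incl F T (StarMod.mk (toS F r • StarMod.incl F T x) (toS_smul_mem r _ x.incl_mem)
        + StarMod.mk (toS F r • StarMod.incl F T y) (toS_smul_mem r _ y.incl_mem))
    rw [map_add, map_add, smul_add]
    rfl
  add_smul r s x := by
    apply StarMod.ext
    change toS F (r + s) • StarMod.incl F T x
      = StarMod.incl F T (StarMod.mk (toS F r • StarMod.incl F T x) (toS_smul_mem r _ x.incl_mem)
        + StarMod.mk (toS F s • StarMod.incl F T x) (toS_smul_mem s _ x.incl_mem))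
    rw [map_add, map_add, add_smul]
    rfl
  zero_smul x := by
    apply StarMod.ext
    change toS F (0 : Alg k M) • StarMod.incl F T x = StarMod.incl F T (0 : StarMod k F T)
    rw [map_zero, map_zero, zero_smul]

theorem StarMod.incl_smul (r : Alg k M) (x : StarMod k F T) :
    StarMod.incl F T (r • x) = toS F r • StarMod.incl F T x := rfl

instance : IsScalarTower k (Alg k M) (StarMod k F T) where
  smul_assoc c r x := by
    apply StarMod.ext
    rw [StarMod.incl_smul, map_smul, map_smul, StarMod.incl_smul, smul_assoc]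

variable (F T)

/-- The components of the pull map. -/
noncomputable def starPull : Ob M → (StarMod k F T →ₗ[k] T)
  | Ob.star => StarMod.incl F T
  | Ob.p x hx => (Algebra.lsmul k k T (F.pr (Ed.t x hx) 1)) ∘ₗ StarMod.incl F T
  | Ob.q x hx => (Algebra.lsmul k k T (F.pr (Ed.t x hx) 2)) ∘ₗ StarMod.incl F T

variable {F T}

theorem starPull_star (x : StarMod k F T) : starPull F T Ob.star x = StarMod.incl F T x := rfl
theorem starPull_p (y : M) (hy : y ≠ 0) (x : StarMod k F T) :
    starPull F T (Ob.p y hy) x = F.pr (Ed.t y hy) 1 • StarMod.incl F T x := rfl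
theorem starPull_q (y : M) (hy : y ≠ 0) (x : StarMod k F T) :
    starPull F T (Ob.q y hy) x = F.pr (Ed.t y hy) 2 • StarMod.incl F T x := rfl

theorem incl_E_smul (y : M) (hy : y ≠ 0) (x : StarMod k F T) :
    StarMod.incl F T (E k y • x)
      = F.inj (Ed.t y hy) 1 • F.pr (Ed.t y hy) 1 • StarMod.incl F T x := by
  rw [StarMod.incl_smul, toS_E, fE_ne F hy, smul_smul]

theorem incl_Q_smul (y : M) (hy : y ≠ 0) (x : StarMod k F T) :
    StarMod.incl F T ((1 - E k y) • x)
      = F.inj (Ed.t y hy) 2 • F.pr (Ed.t y hy) 2 • StarMod.incl F T x := by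
  rw [sub_smul, one_smul, map_sub, incl_E_smul y hy]
  have h : F.e ((shM hM).v (Ed.t y hy)) • StarMod.incl F T x = StarMod.incl F T x := x.incl_mem
  have h2 := eq_sum_12 h
  rw [sub_eq_iff_eq_add']
  exact h2

theorem pr_inj_smul_same (l : Ed M) (i : Fin 3) (t : T) :
    F.pr l i • F.inj l i • t = F.e ((shM hM).tgt l i) • t := by
  rw [smul_smul, F.pr_mul_inj_same]

/-- The pull map from the star part. -/
noncomputable def starPullMap (k : Type v) [Field k] [Algebra k S] (F : Frame (shM hM) S)
    (T : Type w') [AddCommGroup T] [Module k T] [Module S T] [IsScalarTower k S T] :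
    PullMap k (algFrame hM k) F (StarMod k F T) T where
  h := starPull F T
  h_obj b x hx := by
    cases b with
    | star => exact x.incl_mem
    | p y hy =>
      rw [starPull_p]
      exact e_pr_smul (Ed.t y hy) 1 _
    | q y hy =>
      rw [starPull_q]
      exact e_pr_smul (Ed.t y hy) 2 _
  h_inj b x hx h0 := by
    cases b with
    | star => exact StarMod.ext (by rw [map_zero]; exact h0)
    | p y hy =>
      rw [starPull_p] at h0
      rw [algFrame_p] at hx
      apply StarMod.ext
      rw [← hx, incl_E_smul y hy, h0, smul_zero, map_zero]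
    | q y hy =>
      rw [starPull_q] at h0
      rw [algFrame_q] at hx
      apply StarMod.ext
      rw [← hx, incl_Q_smul y hy, h0, smul_zero, map_zero]
  h_pr l i x hx := by
    cases l with
    | t y hy =>
      fin_cases i
      · change StarMod.incl F T ((1 : Alg k M) • x) = F.pr (Ed.t y hy) 0 • StarMod.incl F T x
        rw [one_smul, F.pr_zero]
        exact x.incl_mem.symm
      · change F.pr (Ed.t y hy) 1 • StarMod.incl F T (E k y • x)
          = F.pr (Ed.t y hy) 1 • StarMod.incl F T x
        rw [incl_E_smul y hy, pr_inj_smul_same, e_pr_smul]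
      · change F.pr (Ed.t y hy) 2 • StarMod.incl F T ((1 - E k y) • x)
          = F.pr (Ed.t y hy) 2 • StarMod.incl F T x
        rw [incl_Q_smul y hy, pr_inj_smul_same, e_pr_smul]
    | s y z hy hz =>
      have hyz := con_ne hM (x := y) (y := z) hy
      fin_cases i
      · change F.pr (Ed.t (y + z) hyz) 1 • StarMod.incl F T (E k (y + z) • x)
          = F.pr (Ed.s y z hy hz) 0 • F.pr (Ed.t (y + z) hyz) 1 • StarMod.incl F T x
        rw [incl_E_smul (y + z) hyz, pr_inj_smul_same, e_pr_smul, F.pr_zero]
        exact (e_pr_smul (F := F) (Ed.t (y + z) hyz) 1 _).symm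
      · change F.pr (Ed.t y hy) 1 • StarMod.incl F T (Alg.g k (Gn.c y z) • x)
          = F.pr (Ed.s y z hy hz) 1 • F.pr (Ed.t (y + z) hyz) 1 • StarMod.incl F T x
        rw [StarMod.incl_smul, toS_c, fC_ne F hy hz, mul_smul, mul_smul, pr_inj_smul_same]
        exact e_pr_smul (F := F) (Ed.s y z hy hz) 1 _
      · change F.pr (Ed.t z hz) 1 • StarMod.incl F T (Alg.g k (Gn.d y z) • x)
          = F.pr (Ed.s y z hy hz) 2 • F.pr (Ed.t (y + z) hyz) 1 • StarMod.incl F T x
        rw [StarMod.incl_smul, toS_d, fD_ne F hy hz, mul_smul, mul_smul, pr_inj_smul_same]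
        exact e_pr_smul (F := F) (Ed.s y z hy hz) 2 _
  h_ij l i x hx := by
    cases l with
    | t y hy =>
      fin_cases i
      · change StarMod.incl F T ((1 : Alg k M) • x) = F.inj (Ed.t y hy) 0 • StarMod.incl F T x
        rw [one_smul, F.inj_zero]
        exact x.incl_mem.symm
      · change StarMod.incl F T (E k y • x)
          = F.inj (Ed.t y hy) 1 • F.pr (Ed.t y hy) 1 • StarMod.incl F T x
        rw [incl_E_smul y hy]
      · change StarMod.incl F T ((1 - E k y) • x)
          = F.inj (Ed.t y hy) 2 • F.pr (Ed.t y hy) 2 • StarMod.incl F T x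
        rw [incl_Q_smul y hy]
    | s y z hy hz =>
      have hyz := con_ne hM (x := y) (y := z) hy
      fin_cases i
      · change F.pr (Ed.t (y + z) hyz) 1 • StarMod.incl F T (E k (y + z) • x)
          = F.inj (Ed.s y z hy hz) 0 • F.pr (Ed.t (y + z) hyz) 1 • StarMod.incl F T x
        rw [incl_E_smul (y + z) hyz, pr_inj_smul_same, e_pr_smul, F.inj_zero]
        exact (e_pr_smul (F := F) (Ed.t (y + z) hyz) 1 _).symm
      · change F.pr (Ed.t (y + z) hyz) 1 • StarMod.incl F T (Alg.g k (Gn.a y z) • x)
          = F.inj (Ed.s y z hy hz) 1 • F.pr (Ed.t y hy) 1 • StarMod.incl F T x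
        rw [StarMod.incl_smul, toS_a, fA_ne F hy hz, mul_smul, mul_smul, pr_inj_smul_same]
        exact e_inj_smul (F := F) (Ed.s y z hy hz) 1 _
      · change F.pr (Ed.t (y + z) hyz) 1 • StarMod.incl F T (Alg.g k (Gn.b y z) • x)
          = F.inj (Ed.s y z hy hz) 2 • F.pr (Ed.t z hz) 1 • StarMod.incl F T x
        rw [StarMod.incl_smul, toS_b, fB_ne F hy hz, mul_smul, mul_smul, pr_inj_smul_same]
        exact e_inj_smul (F := F) (Ed.s y z hy hz) 2 _

theorem exists_gen (β : Ob M) (t : T) (ht : F.e β • t = t) :
    ∃ m : StarMod k F T, (algFrame hM k).e β • m = m ∧ starPull F T β m = t := by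
  cases β with
  | star =>
    refine ⟨StarMod.mk t ht, ?_, rfl⟩
    rw [algFrame_star, one_smul]
  | p y hy =>
    have h1 : F.pr (Ed.t y hy) 1 • F.inj (Ed.t y hy) 1 • t = t := by
      rw [pr_inj_smul_same]; exact ht
    have h2 : F.e Ob.star • F.inj (Ed.t y hy) 1 • t = F.inj (Ed.t y hy) 1 • t :=
      e_inj_smul (F := F) (Ed.t y hy) 1 t
    refine ⟨StarMod.mk (F.inj (Ed.t y hy) 1 • t) h2, ?_, ?_⟩
    · apply StarMod.ext
      rw [algFrame_p, incl_E_smul y hy, StarMod.incl_mk, h1]
    · rw [starPull_p, StarMod.incl_mk, h1]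
  | q y hy =>
    have h1 : F.pr (Ed.t y hy) 2 • F.inj (Ed.t y hy) 2 • t = t := by
      rw [pr_inj_smul_same]; exact ht
    have h2 : F.e Ob.star • F.inj (Ed.t y hy) 2 • t = F.inj (Ed.t y hy) 2 • t :=
      e_inj_smul (F := F) (Ed.t y hy) 2 t
    refine ⟨StarMod.mk (F.inj (Ed.t y hy) 2 • t) h2, ?_, ?_⟩
    · apply StarMod.ext
      rw [algFrame_q, incl_Q_smul y hy, StarMod.incl_mk, h1]
    · rw [starPull_q, StarMod.incl_mk, h1]

end

section Model

open scoped Classical

variable {M : Type u} [AddCommMonoid M] {hM : ∀ x y : M, x + y = 0 → x = 0}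
variable {k : Type v} [Field k]

/-- The word model of the free module with generators of types `g`. -/
abbrev WM (hM : ∀ x y : M, x + y = 0 → x = 0) (k : Type v) [Field k] (g : ℕ → Option (Ob M)) :=
  StarMod k (wordFrame (shM hM) g k) (Wd (Ed M) →₀ k)

/-- Its good filtration. -/
noncomputable def wmFil (hM : ∀ x y : M, x + y = 0 → x = 0) (k : Type v) [Field k]
    (g : ℕ → Option (Ob M)) : GoodFil k (algFrame hM k) (WM hM k g) :=
  pullFil (starPullMap k (wordFrame (shM hM) g k) (Wd (Ed M) →₀ k)) (wordFil (shM hM) g k)

variable (hM k)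

theorem wm_gen_aux (g : ℕ → Option (Ob M)) (j : ℕ) (β : Ob M) (hβ : g j = some β) :
    ∃ m : WM hM k g, (algFrame hM k).e β • m = m ∧
      starPull (wordFrame (shM hM) g k) (Wd (Ed M) →₀ k) β m
        = Finsupp.single (Wd.nil j) 1 := by
  have hok : Wd.ok (shM hM) g (Wd.nil j) β := hβ
  have he : (wordFrame (shM hM) g k).e β • (Finsupp.single (Wd.nil j) (1 : k) : Wd (Ed M) →₀ k)
      = Finsupp.single (Wd.nil j) 1 := by
    change lc k (opE (shM hM) g k β) _ = _
    rw [lc_single, opE_ok hok]
  exact exists_gen β _ he

/-- The model theorem: free modules embed into a module with a good filtration in such a way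
that the generators form a basis of the bottom part. -/
theorem exists_model (g : ℕ → Option (Ob M)) :
    ∃ m : ℕ → WM hM k g, (∀ j, (algFrame hM k).eo (g j) • m j = m j) ∧
      (∀ j β, g j = some β → m j ∈ (wmFil hM k g).V 0 β) ∧
      (∀ j β, g j = some β → m j ≠ 0) ∧
      (∀ β d, d ∈ cf k (algFrame hM k) (fun j => g j = some β) β → Phi m d = 0 → d = 0) ∧
      (∀ β w, w ∈ (wmFil hM k g).V 0 β → ∃ c : ℕ →₀ k, (∀ j, c j ≠ 0 → g j = some β) ∧
        w = c.sum fun j a => a • m j) := by
  have hex : ∀ j, ∃ m : WM hM k g, (algFrame hM k).eo (g j) • m = m ∧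
      ∀ β, g j = some β → starPull (wordFrame (shM hM) g k) (Wd (Ed M) →₀ k) β m
        = Finsupp.single (Wd.nil j) 1 := by
    intro j
    cases hj : g j with
    | none => exact ⟨0, smul_zero _, fun β h => absurd h (by simp)⟩
    | some β =>
      obtain ⟨m, h1, h2⟩ := wm_gen_aux hM k g j β hj
      refine ⟨m, h1, fun β' h => ?_⟩
      rw [← Option.some.inj h]
      exact h2
  choose m hm1 hm2 using hex
  set P := starPullMap k (wordFrame (shM hM) g k) (Wd (Ed M) →₀ k) with hP
  have hP2 : ∀ j β, g j = some β → P.h β (m j) = Finsupp.single (Wd.nil j) 1 := hm2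
  have hme : ∀ j β, g j = some β → (algFrame hM k).e β • m j = m j := by
    intro j β h
    have := hm1 j
    rwa [h, Frame.eo_some] at this
  refine ⟨m, hm1, ?_, ?_, ?_, ?_⟩
  · intro j β hβ
    change m j ∈ pullV P (wV (shM hM) g k 0) β
    rw [mem_pullV]
    refine ⟨hme j β hβ, ?_⟩
    rw [hP2 j β hβ]
    exact single_mem_wV hβ le_rfl
  · intro j β hβ h0
    have h1 := hP2 j β hβ
    rw [h0, map_zero] at h1
    have h2 := congrArg (fun f => f (Wd.nil j)) h1
    simp at h2
  · intro β d hd h0
    obtain ⟨c, h1, h2⟩ := hd
    have h3 : P.h β (Phi m d) = c.sum fun j a => Finsupp.single (Wd.nil j) a := by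
      rw [Phi_apply, Finsupp.sum, map_sum, Finsupp.sum]
      rw [← Finset.sum_subset (s₁ := d.support) (s₂ := c.support)]
      · refine Finset.sum_congr rfl fun j hj => ?_
        have hc : c j ≠ 0 := by
          intro h
          rw [Finsupp.mem_support_iff, h2, h, zero_smul] at hj
          exact hj rfl
        change P.h β (d j • m j) = _
        rw [h2, smul_assoc, hme j β (h1 j hc), map_smul, hP2 j β (h1 j hc), Finsupp.smul_single,
          smul_eq_mul, mul_one]
      · intro j hj
        rw [Finsupp.mem_support_iff] at hj ⊢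
        intro h
        rw [h2, h, zero_smul] at hj
        exact hj rfl
      · intro j hj hj'
        rw [Finsupp.notMem_support_iff] at hj'
        have hc : c j ≠ 0 := Finsupp.mem_support_iff.mp hj
        have h5 : P.h β (d j • m j) = 0 := by rw [hj', zero_smul, map_zero]
        rw [h2, smul_assoc, hme j β (h1 j hc), map_smul, hP2 j β (h1 j hc), Finsupp.smul_single,
          smul_eq_mul, mul_one] at h5
        exact h5
    rw [h0, map_zero] at h3
    ext j
    have hcj : c j = 0 := by
      have h4 := congrArg (fun f => f (Wd.nil j)) h3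
      simp only [Finsupp.coe_zero, Pi.zero_apply] at h4
      rw [Finsupp.sum, Finsupp.finsetSum_apply] at h4
      rw [Finset.sum_eq_single j] at h4
      · simpa using h4.symm
      · intro i _ hij
        rw [Finsupp.single_eq_of_ne]
        intro h
        exact hij (Wd.nil.inj h).symm
      · intro h
        rw [Finsupp.notMem_support_iff] at h
        rw [h]; simp
    rw [h2, hcj, zero_smul, Finsupp.zero_apply]
  · intro β w hw
    change w ∈ pullV P (wV (shM hM) g k 0) β at hw
    rw [mem_pullV] at hw
    obtain ⟨h1, h2⟩ := hw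
    rw [mem_wV] at h2
    -- coefficients
    let c : ℕ →₀ k := (P.h β w).comapDomain Wd.nil (fun i _ j _ h => Wd.nil.inj h)
    have hc : ∀ j, c j = (P.h β w) (Wd.nil j) := fun j => rfl
    have hcg : ∀ j, c j ≠ 0 → g j = some β := by
      intro j hj
      exact (h2 _ hj).1
    refine ⟨c, hcg, ?_⟩
    have h3 : w - c.sum (fun j a => a • m j) = 0 := by
      refine P.h_inj β _ ?_ ?_
      · rw [smul_sub, h1]
        congr 1
        rw [Finsupp.sum, Finset.smul_sum]
        refine Finset.sum_congr rfl fun j hj => ?_
        rw [smul_comm, hme j β (hcg j (Finsupp.mem_support_iff.mp hj))]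
      · rw [map_sub, Finsupp.sum, map_sum]
        have h4 : ∀ j ∈ c.support, P.h β (c j • m j) = Finsupp.single (Wd.nil j) (c j) := by
          intro j hj
          rw [map_smul, hP2 j β (hcg j (Finsupp.mem_support_iff.mp hj)), Finsupp.smul_single,
            smul_eq_mul, mul_one]
        rw [Finset.sum_congr rfl h4, sub_eq_zero]
        ext u
        rw [Finsupp.finsetSum_apply]
        cases u with
        | nil j =>
          rw [Finset.sum_eq_single j]
          · rw [Finsupp.single_eq_same, hc]
          · intro i _ hij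
            rw [Finsupp.single_eq_of_ne]
            intro h
            exact hij (Wd.nil.inj h).symm
          · intro h
            rw [Finsupp.notMem_support_iff] at h
            rw [h]; simp
        | upa l u =>
          rw [Finset.sum_eq_zero (fun i _ => Finsupp.single_eq_of_ne (by simp))]
          by_contra h
          have := (h2 _ h).2
          simp only [Wd.len] at this
          omega
        | upb l u =>
          rw [Finset.sum_eq_zero (fun i _ => Finsupp.single_eq_of_ne (by simp))]
          by_contra h
          have := (h2 _ h).2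
          simp only [Wd.len] at this
          omega
        | dna l u =>
          rw [Finset.sum_eq_zero (fun i _ => Finsupp.single_eq_of_ne (by simp))]
          by_contra h
          have := (h2 _ h).2
          simp only [Wd.len] at this
          omega
        | dnb l u =>
          rw [Finset.sum_eq_zero (fun i _ => Finsupp.single_eq_of_ne (by simp))]
          by_contra h
          have := (h2 _ h).2
          simp only [Wd.len] at this
          omega
    exact sub_eq_zero.mp h3

end Model

end Pool.Agent.Lib_helper8.Berg
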